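import Mathlib

set_option autoImplicit false

/-!
# Algebraic families of rational functions: definitions
-/

namespace Pool.Agent.FAM

open Polynomial

/-- The integral points of the cube `[-H, H]^r`. -/
noncomputable def Cube (r H : ℕ) : Finset (Fin r → ℤ) :=
  Fintype.piFinset fun _ => Finset.Icc (-(H : ℤ)) H

/-- The member at `s` of a family of polynomials with coefficients in `ℤ[s_1, …, s_r]`. -/
noncomputable def spec {r : ℕ} (s : Fin r → ℤ) (F : (MvPolynomial (Fin r) ℤ)[X]) : ℤ[X] :=
  F.map (MvPolynomial.eval s)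

/-- Some fixed point `x ≠ ∞` of `F / G` over the algebraic closure of `ℚ(s_1, …, s_r)` has a
multiplier that is not algebraic over `ℚ`. -/
def Varies {r : ℕ} (F G : (MvPolynomial (Fin r) ℤ)[X]) : Prop :=
  ∃ x m : AlgebraicClosure (FractionRing (MvPolynomial (Fin r) ℤ)),
    aeval x F = x * aeval x G ∧
    m * aeval x G ^ 2 = aeval x (derivative F) * aeval x G - aeval x F * aeval x (derivative G) ∧
    Transcendental ℤ m

/-- The substitution `s ↦ s + x u`. -/
noncomputable def shift {r : ℕ} (u : Fin r → ℤ) :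
    MvPolynomial (Fin r) ℤ →+* (MvPolynomial (Fin r) ℤ)[X] :=
  MvPolynomial.eval₂Hom (C.comp MvPolynomial.C)
    (fun i => C (MvPolynomial.X i) + C (MvPolynomial.C (u i)) * X)

theorem mem_Cube {r H : ℕ} {s : Fin r → ℤ} : s ∈ Cube r H ↔ ∀ i, |s i| ≤ H := by
  unfold Cube
  rw [Fintype.mem_piFinset]
  refine forall_congr' fun i => ?_
  rw [Finset.mem_Icc, abs_le]

theorem card_Cube (r H : ℕ) : (Cube r H).card = (2 * H + 1) ^ r := by
  unfold Cube
  rw [Fintype.card_piFinset]
  simp only [Int.card_Icc, Finset.prod_const, Finset.card_univ, Fintype.card_fin]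
  congr 1
  omega

theorem spec_natDegree_le {r d : ℕ} (s : Fin r → ℤ) (F : (MvPolynomial (Fin r) ℤ)[X])
    (hF : F.natDegree ≤ d) : (spec s F).natDegree ≤ d :=
  natDegree_map_le.trans hF

theorem spec_coeff {r : ℕ} (s : Fin r → ℤ) (F : (MvPolynomial (Fin r) ℤ)[X]) (i : ℕ) :
    (spec s F).coeff i = MvPolynomial.eval s (F.coeff i) := coeff_map _ _

theorem spec_res {r : ℕ} (s : Fin r → ℤ) (F G : (MvPolynomial (Fin r) ℤ)[X]) (m n : ℕ) :
    resultant (spec s F) (spec s G) m n = MvPolynomial.eval s (resultant F G m n) :=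
  resultant_map_map _ _ _ _ _

/-- The values of `U` on the lines `s + x u`. -/
theorem eval_shift {r : ℕ} (u s : Fin r → ℤ) (U : MvPolynomial (Fin r) ℤ) (x : ℤ) :
    ((shift u U).map (MvPolynomial.eval s)).eval x = MvPolynomial.eval (s + x • u) U := by
  have h : ((evalRingHom x).comp ((mapRingHom (MvPolynomial.eval s)).comp (shift u))) =
      MvPolynomial.eval (s + x • u) := by
    refine MvPolynomial.ringHom_ext (fun a => by simp [shift]) (fun i => ?_)
    simp [shift, mul_comm]
  exact congrArg (fun f => f U) h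

end Pool.Agent.FAM
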