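import Mathlib
import Pool.Agent.FAM.Defs
import Pool.Agent.AVR.Conv
import Pool.Agent.RDF.DetE
import Pool.Agent.RDF.ResId
import Pool.Agent.RDF.FibRes

set_option autoImplicit false

/-!
# Iterates of a family of rational functions
-/

namespace Pool.Agent.FAM

open Polynomial
open Pool.Agent.RDF (lift form wedge)

/-- The two parts of the `n`-th iterate of `(F, G)`, as polynomials in one variable. -/
noncomputable def itP {R : Type*} [CommRing R] (d n : ℕ) (F G : R[X]) : R[X] × R[X] :=
  (lift d (F.map C) (G.map C))^[n] (X, 1)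

namespace IterAux

section ring

variable {R S : Type*} [CommRing R] [CommRing S]

theorem natDegree_form_le (d D : ℕ) (F : R[X]) (q : R[X] × R[X]) (h1 : q.1.natDegree ≤ D)
    (h2 : q.2.natDegree ≤ D) : (form d (F.map C) q).natDegree ≤ d * D := by
  unfold form
  refine natDegree_sum_le_of_forall_le _ _ fun i hi => ?_
  have hi' : i ≤ d := Nat.lt_succ_iff.1 (Finset.mem_range.1 hi)
  rw [coeff_map]
  refine (natDegree_mul_le).trans ?_
  refine (Nat.add_le_add ((natDegree_C_mul_le _ _).trans (natDegree_pow_le_of_le i h1))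
    (natDegree_pow_le_of_le (d - i) h2)).trans (le_of_eq ?_)
  rw [← Nat.add_mul, Nat.add_sub_cancel' hi']

theorem itP_succ (d n : ℕ) (F G : R[X]) :
    itP d (n + 1) F G = lift d (F.map C) (G.map C) (itP d n F G) := by
  unfold itP
  rw [Function.iterate_succ_apply']

theorem natDegree_itP (d n : ℕ) (F G : R[X]) :
    (itP d n F G).1.natDegree ≤ d ^ n ∧ (itP d n F G).2.natDegree ≤ d ^ n := by
  induction n with
  | zero =>
    refine ⟨?_, ?_⟩
    · change (X : R[X]).natDegree ≤ d ^ 0
      rw [pow_zero]; exact natDegree_X_le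
    · change (1 : R[X]).natDegree ≤ d ^ 0
      rw [natDegree_one]; exact Nat.zero_le _
  | succ n ih =>
    rw [itP_succ, pow_succ']
    exact ⟨natDegree_form_le d (d ^ n) F _ ih.1 ih.2, natDegree_form_le d (d ^ n) G _ ih.1 ih.2⟩

theorem form_sum {ι : Type*} (s : Finset ι) (n : ℕ) (P : ι → R[X]) (p : R × R) :
    form n (∑ i ∈ s, P i) p = ∑ i ∈ s, form n (P i) p := by
  unfold form
  rw [Finset.sum_comm]
  refine Finset.sum_congr rfl fun j _ => ?_
  rw [finsetSum_coeff, Finset.sum_mul, Finset.sum_mul]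

theorem form_C (c : R) (p : R × R) : form 0 (C c) p = c := by
  unfold form
  simp

/-- Homogenisation of a composition. -/
theorem form_comp (d D : ℕ) (F : R[X]) (q : R[X] × R[X]) (h1 : q.1.natDegree ≤ D)
    (h2 : q.2.natDegree ≤ D) (p : R × R) :
    form (d * D) (form d (F.map C) q) p = form d F (form D q.1 p, form D q.2 p) := by
  have h : form d (F.map C) q =
      ∑ i ∈ Finset.range (d + 1), C (F.coeff i) * (q.1 ^ i * q.2 ^ (d - i)) := by
    unfold form
    refine Finset.sum_congr rfl fun i _ => ?_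
    rw [coeff_map, mul_assoc]
  rw [h, form_sum]
  conv_rhs => rw [form]
  refine Finset.sum_congr rfl fun i hi => ?_
  have hi' : i ≤ d := Nat.lt_succ_iff.1 (Finset.mem_range.1 hi)
  have e : d * D = 0 + (i * D + (d - i) * D) := by
    rw [zero_add, ← Nat.add_mul, Nat.add_sub_cancel' hi']
  have hq1 : (q.1 ^ i).natDegree ≤ i * D := natDegree_pow_le_of_le i h1
  have hq2 : (q.2 ^ (d - i)).natDegree ≤ (d - i) * D := natDegree_pow_le_of_le (d - i) h2
  rw [e, RDF.DetE.form_mul (by rw [natDegree_C]) (natDegree_mul_le.trans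
      (Nat.add_le_add hq1 hq2)), RDF.DetE.form_mul hq1 hq2, RDF.DetE.form_pow h1,
    RDF.DetE.form_pow h2, form_C]
  ring

/-- The lift of the iterate. -/
theorem lift_itP (d n : ℕ) (F G : R[X]) (p : R × R) :
    lift (d ^ n) (itP d n F G).1 (itP d n F G).2 p = (lift d F G)^[n] p := by
  induction n with
  | zero =>
    change (form (d ^ 0) X p, form (d ^ 0) 1 p) = p
    rw [pow_zero]
    ext
    · change form 1 (X : R[X]) p = p.1
      have := RDF.DetE.form_X_pow (R := R) (le_refl 1) p
      simpa using this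
    · change form 1 (1 : R[X]) p = p.2
      have := RDF.DetE.form_X_pow (R := R) (Nat.zero_le 1) p
      simpa using this
  | succ n ih =>
    rw [Function.iterate_succ_apply', ← ih, itP_succ, pow_succ']
    have h := natDegree_itP d n F G
    change (form (d * d ^ n) (form d (F.map C) (itP d n F G)) p,
      form (d * d ^ n) (form d (G.map C) (itP d n F G)) p) = _
    rw [form_comp d (d ^ n) F _ h.1 h.2 p, form_comp d (d ^ n) G _ h.1 h.2 p]
    rfl

theorem itP_map (f : R →+* S) (d n : ℕ) (F G : R[X]) :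
    itP d n (F.map f) (G.map f) = ((itP d n F G).1.map f, (itP d n F G).2.map f) := by
  have h := RDF.iter_map (mapRingHom f) d n (F.map C) (G.map C) ((X : R[X]), (1 : R[X]))
  have e : ∀ P : R[X], ((P.map (C : R →+* R[X])).map (mapRingHom f)) =
      (P.map f).map (C : S →+* S[X]) := by
    intro P
    rw [Polynomial.map_map, Polynomial.map_map]
    congr 1
    ext x
    simp
  rw [e, e] at h
  have e2 : Prod.map (mapRingHom f) (mapRingHom f) ((X : R[X]), (1 : R[X])) =
      ((X : S[X]), (1 : S[X])) := by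
    simp
  rw [e2] at h
  unfold itP
  rw [← h]
  rfl

end ring

section field

variable {L : Type*} [Field L]

/-- A common zero of `F` and `G`. -/
theorem exists_zero [IsAlgClosed L] (d : ℕ) (hd : 1 ≤ d) (F G : L[X]) (hF : F.natDegree ≤ d)
    (hG : G.natDegree ≤ d) (hR : resultant F G d d = 0) : ∃ z : L × L, z ≠ 0 ∧ lift d F G z = 0 := by
  -- the case where one of the leading coefficients is nonzero
  have key : ∀ A B : L[X], A.natDegree ≤ d → B.natDegree ≤ d → resultant A B d d = 0 →
      A.coeff d ≠ 0 → ∃ z : L × L, z ≠ 0 ∧ form d A z = 0 ∧ form d B z = 0 := by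
    intro A B hA hB h0 hc
    have hdeg : A.natDegree = d := le_antisymm hA (le_natDegree_of_ne_zero hc)
    have hA0 : A ≠ 0 := by
      rintro rfl
      exact hc (coeff_zero _)
    have h1 := resultant_eq_prod_eval A B d hB (IsAlgClosed.splits A)
    rw [hdeg, h0] at h1
    have h2 : (A.roots.map B.eval).prod = 0 := by
      rcases mul_eq_zero.1 h1.symm with h | h
      · exact absurd (pow_eq_zero_iff (by omega) |>.1 h) (leadingCoeff_ne_zero.2 hA0)
      · exact h
    rw [Multiset.prod_eq_zero_iff, Multiset.mem_map] at h2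
    obtain ⟨β, hβ, hβB⟩ := h2
    have hβA : A.eval β = 0 := (mem_roots hA0).1 hβ
    refine ⟨(β, 1), fun h => one_ne_zero (congrArg Prod.snd h), ?_, ?_⟩
    · rw [RDF.form_affine d A hA β 1 one_ne_zero, div_one, hβA, mul_zero]
    · rw [RDF.form_affine d B hB β 1 one_ne_zero, div_one, hβB, mul_zero]
  by_cases h1 : F.coeff d = 0
  · by_cases h2 : G.coeff d = 0
    · refine ⟨(1, 0), fun h => one_ne_zero (congrArg Prod.fst h), ?_⟩
      change (form d F (1, 0), form d G (1, 0)) = 0
      rw [RDF.form_infty, RDF.form_infty, h1, h2, zero_mul]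
      rfl
    · obtain ⟨z, hz, hz1, hz2⟩ := key G F hG hF (by rw [resultant_comm, hR, mul_zero]) h2
      refine ⟨z, hz, ?_⟩
      change (form d F z, form d G z) = 0
      rw [hz1, hz2]
      rfl
  · obtain ⟨z, hz, hz1, hz2⟩ := key F G hF hG hR h1
    refine ⟨z, hz, ?_⟩
    change (form d F z, form d G z) = 0
    rw [hz1, hz2]
    rfl

theorem res_itP_alg [IsAlgClosed L] (d n : ℕ) (hd : 1 ≤ d) (hn : 1 ≤ n) (F G : L[X])
    (hF : F.natDegree ≤ d) (hG : G.natDegree ≤ d) :
    resultant (itP d n F G).1 (itP d n F G).2 (d ^ n) (d ^ n) = 0 ↔ resultant F G d d = 0 := by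
  have hdn : 1 ≤ d ^ n := Nat.one_le_pow _ _ hd
  have hdeg := natDegree_itP d n F G
  constructor
  · intro h
    by_contra hR
    obtain ⟨z, hz, hz0⟩ := exists_zero (d ^ n) hdn _ _ hdeg.1 hdeg.2 h
    rw [lift_itP] at hz0
    exact RDF.iter_ne_zero d hd F G hF hG hR n hz hz0
  · intro h
    by_contra hR
    obtain ⟨z, hz, hz0⟩ := exists_zero d hd F G hF hG h
    refine RDF.lift_ne_zero (d ^ n) hdn _ _ hR hz ?_
    rw [lift_itP]
    obtain ⟨m, rfl⟩ := Nat.exists_eq_add_of_le' hn
    rw [Function.iterate_succ_apply, hz0, RDF.iter_zero d m hd]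

end field

/-- The resultant of an iterate. -/
theorem res_itP {R : Type} [CommRing R] [IsDomain R] (d n : ℕ) (hd : 1 ≤ d) (hn : 1 ≤ n)
    (F G : R[X]) (hF : F.natDegree ≤ d) (hG : G.natDegree ≤ d) :
    resultant (itP d n F G).1 (itP d n F G).2 (d ^ n) (d ^ n) = 0 ↔ resultant F G d d = 0 := by
  set f : R →+* AlgebraicClosure (FractionRing R) :=
    (algebraMap (FractionRing R) (AlgebraicClosure (FractionRing R))).comp
      (algebraMap R (FractionRing R)) with hf
  have hinj : Function.Injective f :=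
    (algebraMap (FractionRing R) (AlgebraicClosure (FractionRing R))).injective.comp
      (IsFractionRing.injective R (FractionRing R))
  have h := res_itP_alg d n hd hn (F.map f) (G.map f) (natDegree_map_le.trans hF)
    (natDegree_map_le.trans hG)
  rw [itP_map, resultant_map_map, resultant_map_map, map_eq_zero_iff f hinj,
    map_eq_zero_iff f hinj] at h
  exact h

section pts

variable {L : Type*} [Field L]

/-- Proportional vectors. -/
theorem exists_smul {x y : L × L} (hx : x ≠ 0) (h : wedge x y = 0) : ∃ c : L, y = c • x := by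
  unfold RDF.wedge at h
  by_cases h1 : x.1 = 0
  · have h2 : x.2 ≠ 0 := fun h2 => hx (Prod.ext h1 h2)
    refine ⟨y.2 / x.2, Prod.ext ?_ ?_⟩
    · rw [h1, zero_mul, zero_sub, neg_eq_zero] at h
      have h3 : y.1 = 0 := (mul_eq_zero.1 h).resolve_right h2
      simp [h1, h3]
    · simp [h2]
  · refine ⟨y.1 / x.1, Prod.ext ?_ ?_⟩
    · simp [h1]
    · simp only [Prod.smul_snd, smul_eq_mul]
      field_simp
      linear_combination h

theorem prop_iter (d : ℕ) (F G : L[X]) (p : L × L) (a e : ℕ) (c : L)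
    (h : (lift d F G)^[a + e] p = c • (lift d F G)^[a] p) (A m : ℕ) (hA : a ≤ A) :
    ∃ c' : L, (lift d F G)^[A + m * e] p = c' • (lift d F G)^[A] p := by
  have h1 : ∀ k, (lift d F G)^[a + k + e] p = (c ^ d ^ k) • (lift d F G)^[a + k] p := by
    intro k
    have e1 : a + k + e = k + (a + e) := by ring
    have e2 : a + k = k + a := by ring
    rw [e1, e2, Function.iterate_add_apply, h, RDF.iter_smul, ← Function.iterate_add_apply]
  induction m with
  | zero => exact ⟨1, by rw [zero_mul, add_zero, one_smul]⟩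
  | succ m ih =>
    obtain ⟨c', hc'⟩ := ih
    obtain ⟨k, hk⟩ := Nat.exists_eq_add_of_le (hA.trans (Nat.le_add_right A (m * e)))
    have h2 := h1 k
    rw [← hk] at h2
    refine ⟨c ^ d ^ k * c', ?_⟩
    have e3 : A + (m + 1) * e = A + m * e + e := by ring
    rw [e3, h2, hc', smul_smul]

theorem preper_itP (d n : ℕ) (hd : 1 ≤ d) (hn : 1 ≤ n) (F G : L[X]) (hF : F.natDegree ≤ d)
    (hG : G.natDegree ≤ d) (hR : resultant F G d d ≠ 0) (p : L × L) (hp : p ≠ 0) :
    (∃ a b : ℕ, a < b ∧ wedge ((lift (d ^ n) (itP d n F G).1 (itP d n F G).2)^[a] p)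
      ((lift (d ^ n) (itP d n F G).1 (itP d n F G).2)^[b] p) = 0) ↔
    ∃ a b : ℕ, a < b ∧ wedge ((lift d F G)^[a] p) ((lift d F G)^[b] p) = 0 := by
  have hfun : lift (d ^ n) (itP d n F G).1 (itP d n F G).2 = (lift d F G)^[n] :=
    funext fun z => lift_itP d n F G z
  rw [hfun]
  constructor
  · rintro ⟨a, b, hab, h⟩
    refine ⟨n * a, n * b, (Nat.mul_lt_mul_left (by omega)).2 hab, ?_⟩
    rw [Function.iterate_mul, Function.iterate_mul]
    exact h
  · rintro ⟨a, b, hab, h⟩
    obtain ⟨e, rfl⟩ := Nat.exists_eq_add_of_lt hab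
    have hx : (lift d F G)^[a] p ≠ 0 := RDF.iter_ne_zero d hd F G hF hG hR a hp
    obtain ⟨c, hc⟩ := exists_smul hx h
    have e0 : a + e + 1 = a + (e + 1) := by ring
    rw [e0] at hc
    obtain ⟨c', hc'⟩ := prop_iter d F G p a (e + 1) c hc (n * a) n
      (Nat.le_mul_of_pos_left a (by omega))
    refine ⟨a, a + (e + 1), by omega, ?_⟩
    rw [← Function.iterate_mul, ← Function.iterate_mul, Nat.mul_add, hc', RDF.wedge_smul_right]
    simp [RDF.wedge]

end pts

/-- The iterate has the same preperiodic points. -/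
theorem Pts_itP (N d n : ℕ) (hd : 1 ≤ d) (hn : 1 ≤ n) (F G : ℤ[X]) (hF : F.natDegree ≤ d)
    (hG : G.natDegree ≤ d) (hR : resultant F G d d ≠ 0) :
    AVR.Pts N (d ^ n) (itP d n F G).1 (itP d n F G).2 = AVR.Pts N d F G := by
  set f : ℤ →+* AlgebraicClosure ℚ := algebraMap ℤ (AlgebraicClosure ℚ) with hf
  have hinj : Function.Injective f := by
    rw [hf]
    exact (algebraMap ℤ (AlgebraicClosure ℚ)).injective_int
  have hR' : resultant (F.map f) (G.map f) d d ≠ 0 := by
    rw [resultant_map_map]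
    exact (map_ne_zero_iff f hinj).2 hR
  ext p
  have hm := itP_map f d n F G
  have h1 : (itP d n F G).1.map f = (itP d n (F.map f) (G.map f)).1 := by rw [hm]
  have h2 : (itP d n F G).2.map f = (itP d n (F.map f) (G.map f)).2 := by rw [hm]
  unfold AVR.Pts
  rw [Set.mem_ofPred_eq, Set.mem_ofPred_eq, h1, h2]
  refine and_congr_right fun hp => and_congr_right fun _ => ?_
  have hp0 : p ≠ 0 := by
    rcases hp with hp | hp
    · intro h
      rw [h] at hp
      exact zero_ne_one hp
    · intro h
      rw [h] at hp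
      exact one_ne_zero (congrArg Prod.fst hp).symm
  exact preper_itP d n hd hn (F.map f) (G.map f) (natDegree_map_le.trans hF)
    (natDegree_map_le.trans hG) hR' p hp0

theorem spec_itP {r : ℕ} (d n : ℕ) (F G : (MvPolynomial (Fin r) ℤ)[X]) (s : Fin r → ℤ) :
    itP d n (spec s F) (spec s G) = (spec s (itP d n F G).1, spec s (itP d n F G).2) :=
  itP_map (MvPolynomial.eval s) d n F G

theorem eval_res {r : ℕ} (d n : ℕ) (hd : 1 ≤ d) (hn : 1 ≤ n) (F G : (MvPolynomial (Fin r) ℤ)[X])
    (hF : F.natDegree ≤ d) (hG : G.natDegree ≤ d) (s : Fin r → ℤ) :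
    MvPolynomial.eval s (resultant (itP d n F G).1 (itP d n F G).2 (d ^ n) (d ^ n)) = 0 ↔
      MvPolynomial.eval s (resultant F G d d) = 0 := by
  rw [← spec_res, ← spec_res]
  have h := res_itP d n hd hn (spec s F) (spec s G) (spec_natDegree_le s F hF)
    (spec_natDegree_le s G hG)
  rw [spec_itP] at h
  exact h

end IterAux

end Pool.Agent.FAM
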