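import Mathlib
import Pool.Agent.FAM.Defs
import Pool.Agent.FAM.Iter
import Pool.Agent.RDF.Defs

set_option autoImplicit false

/-!
# Algebraic families of rational functions over a number field: definitions
-/

namespace Pool.Agent.FamK

open Polynomial NumberField IsDedekindDomain
open Pool.Agent.RDF (lift wedge)
open Pool.Agent.FAM (Cube itP)

/-- The value at the integral point `s` of a polynomial in `r` variables over a ring. -/
noncomputable def ev {r : ℕ} {A : Type} [CommRing A] (s : Fin r → ℤ) :
    MvPolynomial (Fin r) A →+* A :=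
  MvPolynomial.eval fun i => ((s i : ℤ) : A)

/-- The member at `s` of a family of polynomials with coefficients in `A[s_1, …, s_r]`. -/
noncomputable def spec {r : ℕ} {A : Type} [CommRing A] (s : Fin r → ℤ)
    (F : (MvPolynomial (Fin r) A)[X]) : A[X] :=
  F.map (ev s)

/-- The substitution `s ↦ s + x u`. -/
noncomputable def shift {r : ℕ} {A : Type} [CommRing A] (u : Fin r → ℤ) :
    MvPolynomial (Fin r) A →+* (MvPolynomial (Fin r) A)[X] :=
  MvPolynomial.eval₂Hom (C.comp MvPolynomial.C)
    (fun i => C (MvPolynomial.X i) + C (MvPolynomial.C ((u i : ℤ) : A)) * X)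

/-- Some fixed point `x ≠ ∞` of `F / G` over the algebraic closure of `K(s_1, …, s_r)` has a
multiplier that is not algebraic over `ℚ`. -/
def Varies1 {r : ℕ} {A : Type} [CommRing A] [IsDomain A] (F G : (MvPolynomial (Fin r) A)[X]) :
    Prop :=
  ∃ x m : AlgebraicClosure (FractionRing (MvPolynomial (Fin r) A)),
    aeval x F = x * aeval x G ∧
    m * aeval x G ^ 2 = aeval x (derivative F) * aeval x G - aeval x F * aeval x (derivative G) ∧
    Transcendental ℤ m

/-- Some periodic point `x ≠ ∞` of `F / G` over the algebraic closure of `K(s_1, …, s_r)` has a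
multiplier that is not algebraic over `ℚ` (a fixed point of the `n`-th iterate, `itP d n F G`). -/
def Varies {r : ℕ} {A : Type} [CommRing A] [IsDomain A] (d : ℕ)
    (F G : (MvPolynomial (Fin r) A)[X]) : Prop :=
  ∃ n : ℕ, 1 ≤ n ∧ Varies1 (itP d n F G).1 (itP d n F G).2

/-- The points of `P¹` over the algebraic closure of `K` (as `(x, 1)` and `(1, 0)`) of degree at
most `N` over `K` which are preperiodic for `F / G`. -/
def Pts {K : Type} [Field K] [NumberField K] (N d : ℕ) (F G : (𝓞 K)[X]) :
    Set (AlgebraicClosure K × AlgebraicClosure K) :=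
  {p | (p.2 = 1 ∨ p = (1, 0)) ∧ (minpoly K p.1).natDegree ≤ N ∧ ∃ a b : ℕ, a < b ∧
    wedge ((lift d (F.map (algebraMap (𝓞 K) _)) (G.map (algebraMap (𝓞 K) _)))^[a] p)
      ((lift d (F.map (algebraMap (𝓞 K) _)) (G.map (algebraMap (𝓞 K) _)))^[b] p) = 0}

theorem ev_map {r : ℕ} {A B : Type} [CommRing A] [CommRing B] (f : A →+* B) (s : Fin r → ℤ)
    (U : MvPolynomial (Fin r) A) : ev s (MvPolynomial.map f U) = f (ev s U) := by
  unfold ev
  rw [MvPolynomial.eval_map, ← MvPolynomial.coe_eval₂Hom]
  have h : MvPolynomial.eval₂Hom f (fun i => ((s i : ℤ) : B)) =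
      f.comp (MvPolynomial.eval fun i => ((s i : ℤ) : A)) := by
    refine MvPolynomial.ringHom_ext (fun a => by simp) (fun i => by simp)
  exact congrArg (fun g => g U) h

/-- The values of `U` on the lines `s + x u`. -/
theorem eval_shift {r : ℕ} {A : Type} [CommRing A] (u s : Fin r → ℤ)
    (U : MvPolynomial (Fin r) A) (x : ℤ) :
    ((shift u U).map (ev s)).eval ((x : ℤ) : A) = ev (s + x • u) U := by
  have h : ((evalRingHom ((x : ℤ) : A)).comp ((mapRingHom (ev s)).comp (shift u))) =
      ev (s + x • u) := by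
    refine MvPolynomial.ringHom_ext (fun a => by simp [shift, ev]) (fun i => ?_)
    simp [shift, ev, mul_comm]
  exact congrArg (fun f => f U) h

theorem spec_natDegree_le {r d : ℕ} {A : Type} [CommRing A] (s : Fin r → ℤ)
    (F : (MvPolynomial (Fin r) A)[X]) (hF : F.natDegree ≤ d) : (spec s F).natDegree ≤ d :=
  natDegree_map_le.trans hF

theorem spec_coeff {r : ℕ} {A : Type} [CommRing A] (s : Fin r → ℤ)
    (F : (MvPolynomial (Fin r) A)[X]) (i : ℕ) : (spec s F).coeff i = ev s (F.coeff i) :=
  coeff_map _ _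

theorem spec_res {r : ℕ} {A : Type} [CommRing A] (s : Fin r → ℤ)
    (F G : (MvPolynomial (Fin r) A)[X]) (m n : ℕ) :
    resultant (spec s F) (spec s G) m n = ev s (resultant F G m n) :=
  resultant_map_map _ _ _ _ _

/-- Over `ℤ` the value `ev s` is the usual one. -/
theorem ev_int {r : ℕ} (s : Fin r → ℤ) (U : MvPolynomial (Fin r) ℤ) :
    ev s U = MvPolynomial.eval s U := by
  unfold ev
  simp

end Pool.Agent.FamK
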