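import Mathlib
import Pool.Agent.FAM.KDefs
import Pool.Agent.FAM.Iter

set_option autoImplicit false

/-!
# Iterates of a family of rational functions over a number field
-/

namespace Pool.Agent.FamK

open Polynomial NumberField
open Pool.Agent.RDF (lift wedge)
open Pool.Agent.FAM (Cube itP)

/-- The iterate has the same preperiodic points. -/
theorem pts_itP {K : Type} [Field K] [NumberField K] (N d n : ℕ) (hd : 1 ≤ d) (hn : 1 ≤ n)
    (F G : (𝓞 K)[X]) (hF : F.natDegree ≤ d) (hG : G.natDegree ≤ d)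
    (hR : resultant F G d d ≠ 0) :
    Pts N (d ^ n) (itP d n F G).1 (itP d n F G).2 = Pts N d F G := by
  set f : (𝓞 K) →+* AlgebraicClosure K := algebraMap (𝓞 K) (AlgebraicClosure K) with hf
  have hinj : Function.Injective f := by
    rw [hf, IsScalarTower.algebraMap_eq (𝓞 K) K (AlgebraicClosure K)]
    exact (algebraMap K (AlgebraicClosure K)).injective.comp
      (IsFractionRing.injective (𝓞 K) K)
  have hR' : resultant (F.map f) (G.map f) d d ≠ 0 := by
    rw [resultant_map_map]
    exact (map_ne_zero_iff f hinj).2 hR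
  ext p
  have hm := FAM.IterAux.itP_map f d n F G
  have h1 : (itP d n F G).1.map f = (itP d n (F.map f) (G.map f)).1 := by rw [hm]
  have h2 : (itP d n F G).2.map f = (itP d n (F.map f) (G.map f)).2 := by rw [hm]
  unfold Pts
  rw [Set.mem_ofPred_eq, Set.mem_ofPred_eq, h1, h2]
  refine and_congr_right fun hp => and_congr_right fun _ => ?_
  have hp0 : p ≠ 0 := by
    rcases hp with hp | hp
    · intro h
      rw [h] at hp
      exact zero_ne_one hp
    · intro h
      rw [h] at hp
      exact one_ne_zero (congrArg Prod.fst hp).symm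
  exact FAM.IterAux.preper_itP d n hd hn (F.map f) (G.map f) (natDegree_map_le.trans hF)
    (natDegree_map_le.trans hG) hR' p hp0

theorem spec_itP {A : Type} [CommRing A] {r : ℕ} (d n : ℕ) (F G : (MvPolynomial (Fin r) A)[X])
    (s : Fin r → ℤ) :
    itP d n (spec s F) (spec s G) = (spec s (itP d n F G).1, spec s (itP d n F G).2) :=
  FAM.IterAux.itP_map (ev s) d n F G

theorem ev_res {A : Type} [CommRing A] [IsDomain A] {r : ℕ} (d n : ℕ) (hd : 1 ≤ d) (hn : 1 ≤ n)
    (F G : (MvPolynomial (Fin r) A)[X])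
    (hF : F.natDegree ≤ d) (hG : G.natDegree ≤ d) (s : Fin r → ℤ) :
    ev s (resultant (itP d n F G).1 (itP d n F G).2 (d ^ n) (d ^ n)) = 0 ↔
      ev s (resultant F G d d) = 0 := by
  rw [← spec_res, ← spec_res]
  have h := FAM.IterAux.res_itP d n hd hn (spec s F) (spec s G) (spec_natDegree_le s F hF)
    (spec_natDegree_le s G hG)
  rw [spec_itP] at h
  exact h

open Classical in
/-- The theorem for families with a varying multiplier of a fixed point gives the theorem for
families with a varying multiplier of a periodic point. -/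
theorem average_of {K : Type} [Field K] [NumberField K] (N : ℕ) {r : ℕ}
    (h1 : ∀ {d : ℕ}, 2 ≤ d → ∀ F G : (MvPolynomial (Fin r) (𝓞 K))[X],
      F.natDegree ≤ d → G.natDegree ≤ d → resultant F G d d ≠ 0 → Varies1 F G →
      (∀ s : Fin r → ℤ, ev s (resultant F G d d) ≠ 0 →
        (Pts N d (spec s F) (spec s G)).Finite) ∧
      ∃ C : ℝ, ∀ H : ℕ, 1 ≤ H →
        ∑ s ∈ (Cube r H).filter (fun s => ev s (resultant F G d d) ≠ 0),
          Real.exp (((Pts N d (spec s F) (spec s G)).ncard : ℝ) ^ ((1 : ℝ) / 3)) ≤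
        C * (2 * H + 1) ^ r)
    {d : ℕ} (hd : 2 ≤ d) (F G : (MvPolynomial (Fin r) (𝓞 K))[X])
    (hF : F.natDegree ≤ d) (hG : G.natDegree ≤ d) (hR : resultant F G d d ≠ 0)
    (hv : Varies d F G) :
    (∀ s : Fin r → ℤ, ev s (resultant F G d d) ≠ 0 →
      (Pts N d (spec s F) (spec s G)).Finite) ∧
    ∃ C : ℝ, ∀ H : ℕ, 1 ≤ H → ∑ s ∈ (Cube r H).filter (fun s => ev s (resultant F G d d) ≠ 0),
      Real.exp (((Pts N d (spec s F) (spec s G)).ncard : ℝ) ^ ((1 : ℝ) / 3)) ≤
      C * (2 * H + 1) ^ r := by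
  obtain ⟨n, hn, hv⟩ := hv
  have hd1 : 1 ≤ d := by omega
  have hdn : 2 ≤ d ^ n := hd.trans (Nat.le_self_pow (by omega) d)
  have hdeg := FAM.IterAux.natDegree_itP d n F G
  have hR' : resultant (itP d n F G).1 (itP d n F G).2 (d ^ n) (d ^ n) ≠ 0 := fun h =>
    hR ((FAM.IterAux.res_itP d n hd1 hn F G hF hG).1 h)
  have hpts : ∀ s : Fin r → ℤ, ev s (resultant F G d d) ≠ 0 →
      Pts N (d ^ n) (spec s (itP d n F G).1) (spec s (itP d n F G).2) =
        Pts N d (spec s F) (spec s G) := by
    intro s hs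
    have h := pts_itP N d n hd1 hn (spec s F) (spec s G) (spec_natDegree_le s F hF)
      (spec_natDegree_le s G hG) (by rw [spec_res]; exact hs)
    rw [spec_itP] at h
    exact h
  have hiff : ∀ s : Fin r → ℤ,
      ev s (resultant (itP d n F G).1 (itP d n F G).2 (d ^ n) (d ^ n)) ≠ 0 ↔
        ev s (resultant F G d d) ≠ 0 := fun s =>
    not_congr (ev_res d n hd1 hn F G hF hG s)
  obtain ⟨hA, C, hC⟩ := h1 hdn (itP d n F G).1 (itP d n F G).2 hdeg.1 hdeg.2 hR' hv
  refine ⟨fun s hs => ?_, C, fun H hH => ?_⟩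
  · rw [← hpts s hs]
    exact hA s ((hiff s).2 hs)
  · refine le_trans (le_of_eq ?_) (hC H hH)
    have hset : (Cube r H).filter (fun s => ev s (resultant F G d d) ≠ 0) =
        (Cube r H).filter (fun s =>
          ev s (resultant (itP d n F G).1 (itP d n F G).2 (d ^ n) (d ^ n)) ≠ 0) :=
      Finset.filter_congr fun s _ => (hiff s).symm
    rw [hset]
    refine Finset.sum_congr rfl fun s hs => ?_
    rw [hpts s ((hiff s).1 (Finset.mem_filter.1 hs).2)]

end Pool.Agent.FamK
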