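import Pool.Agent.FAM.KDefs

set_option autoImplicit false

/-!
# The norm of a polynomial over the ring of integers of a number field
-/

namespace Pool.Agent.FamK

open Polynomial NumberField

variable {K : Type} [Field K] [NumberField K]

namespace KNorm

/-- The total degree of a product over a domain. -/
theorem totalDegree_prod {r : ℕ} {A : Type*} [CommRing A] [IsDomain A] {ι : Type*}
    (t : Finset ι) (f : ι → MvPolynomial (Fin r) A) (h : ∀ i ∈ t, f i ≠ 0) :
    ∏ i ∈ t, f i ≠ 0 ∧ (∏ i ∈ t, f i).totalDegree = ∑ i ∈ t, (f i).totalDegree := by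
  classical
  induction t using Finset.induction_on with
  | empty => simp
  | insert a t ha ih =>
    obtain ⟨h1, h2⟩ := ih fun i hi => h i (Finset.mem_insert_of_mem hi)
    have h3 := h a (Finset.mem_insert_self a t)
    rw [Finset.prod_insert ha, Finset.sum_insert ha]
    exact ⟨mul_ne_zero h3 h1, by rw [MvPolynomial.totalDegree_mul_of_isDomain h3 h1, h2]⟩

theorem totalDegree_map_inj {r : ℕ} {A B : Type*} [CommRing A] [CommRing B] (f : A →+* B)
    (hf : Function.Injective f) (V : MvPolynomial (Fin r) A) :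
    (MvPolynomial.map f V).totalDegree = V.totalDegree := by
  unfold MvPolynomial.totalDegree
  rw [MvPolynomial.support_map_of_injective _ hf]

/-- The norms of the values of `V` are the values of a polynomial. -/
theorem exists_norm {r : ℕ} (V : MvPolynomial (Fin r) (𝓞 K)) : ∃ W : MvPolynomial (Fin r) ℤ,
    ∀ s : Fin r → ℤ, MvPolynomial.eval s W = Algebra.norm ℤ (ev s V) := by
  classical
  refine ⟨Matrix.det (Matrix.of fun i j => ∑ m ∈ V.support, MvPolynomial.monomial m
    (Algebra.leftMulMatrix (RingOfIntegers.basis K) (V.coeff m) i j)), fun s => ?_⟩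
  rw [Algebra.norm_eq_matrix_det (RingOfIntegers.basis K), RingHom.map_det]
  congr 1
  have hev : ev s V = ∑ m ∈ V.support, (∏ i, s i ^ m i) • V.coeff m := by
    unfold ev
    rw [MvPolynomial.eval_eq']
    refine Finset.sum_congr rfl fun m _ => ?_
    rw [zsmul_eq_mul, mul_comm]
    push_cast
    rfl
  ext i j
  rw [hev, map_sum, Matrix.sum_apply, RingHom.mapMatrix_apply, Matrix.map_apply, Matrix.of_apply,
    map_sum]
  refine Finset.sum_congr rfl fun m _ => ?_
  rw [map_zsmul, Matrix.smul_apply, MvPolynomial.eval_monomial,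
    Finsupp.prod_fintype _ _ (fun _ => pow_zero _), smul_eq_mul, mul_comm]

/-- The norm as a product over the embeddings. -/
theorem norm_prod (x : 𝓞 K) :
    ((Algebra.norm ℤ x : ℤ) : ℂ) = ∏ σ : K →ₐ[ℚ] ℂ, σ (algebraMap (𝓞 K) K x) := by
  rw [← Algebra.norm_eq_prod_embeddings ℚ ℂ (algebraMap (𝓞 K) K x)]
  have h := Algebra.coe_norm_int x
  have h2 : algebraMap ℚ ℂ ((Algebra.norm ℤ x : ℤ) : ℚ) = ((Algebra.norm ℤ x : ℤ) : ℂ) := by
    simp
  rw [← h2, h]

/-- The polynomial of `exists_norm` is the product of the conjugates. -/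
theorem map_eq_prod {r : ℕ} (V : MvPolynomial (Fin r) (𝓞 K)) (W : MvPolynomial (Fin r) ℤ)
    (hW : ∀ s : Fin r → ℤ, MvPolynomial.eval s W = Algebra.norm ℤ (ev s V)) :
    MvPolynomial.map (Int.castRingHom ℂ) W =
      ∏ σ : K →ₐ[ℚ] ℂ, MvPolynomial.map (σ.toRingHom.comp (algebraMap (𝓞 K) K)) V := by
  refine MvPolynomial.funext_set (fun _ => Set.range fun a : ℤ => (a : ℂ))
    (fun _ => Set.infinite_range_of_injective Int.cast_injective) fun x hx => ?_
  choose s hs using fun i => hx i (Set.mem_univ i)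
  have hx' : x = fun i => ((s i : ℤ) : ℂ) := funext fun i => (hs i).symm
  have h1 : MvPolynomial.eval x (MvPolynomial.map (Int.castRingHom ℂ) W) =
      ((MvPolynomial.eval s W : ℤ) : ℂ) := by
    have := ev_map (Int.castRingHom ℂ) s W
    rw [ev_int] at this
    rw [hx']
    exact this
  have h2 : ∀ σ : K →ₐ[ℚ] ℂ, MvPolynomial.eval x
      (MvPolynomial.map (σ.toRingHom.comp (algebraMap (𝓞 K) K)) V) =
        σ (algebraMap (𝓞 K) K (ev s V)) := by
    intro σ
    have := ev_map (σ.toRingHom.comp (algebraMap (𝓞 K) K)) s V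
    rw [hx']
    exact this
  rw [h1, hW, norm_prod, map_prod]
  exact Finset.prod_congr rfl fun σ _ => (h2 σ).symm

end KNorm

/-- The norm of a polynomial. -/
theorem norm_poly {r : ℕ} (V : MvPolynomial (Fin r) (𝓞 K)) : ∃ W : MvPolynomial (Fin r) ℤ,
    (∀ s : Fin r → ℤ, MvPolynomial.eval s W = Algebra.norm ℤ (ev s V)) ∧ (V ≠ 0 → W ≠ 0) ∧
    (1 ≤ V.totalDegree → 1 ≤ W.totalDegree) := by
  obtain ⟨W, hW⟩ := KNorm.exists_norm V
  have hp := KNorm.map_eq_prod V W hW
  have hinj : ∀ σ : K →ₐ[ℚ] ℂ, Function.Injective (σ.toRingHom.comp (algebraMap (𝓞 K) K)) :=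
    fun σ => σ.injective.comp (FaithfulSMul.algebraMap_injective (𝓞 K) K)
  have hne : V ≠ 0 → ∀ σ ∈ (Finset.univ : Finset (K →ₐ[ℚ] ℂ)),
      MvPolynomial.map (σ.toRingHom.comp (algebraMap (𝓞 K) K)) V ≠ 0 := by
    intro hV σ _ h
    exact hV (MvPolynomial.map_injective _ (hinj σ) (h.trans (map_zero _).symm))
  refine ⟨W, hW, fun hV hW0 => ?_, fun hV => ?_⟩
  · have h1 := (KNorm.totalDegree_prod _ _ (hne hV)).1
    rw [← hp, hW0, map_zero] at h1
    exact h1 rfl
  · have hV0 : V ≠ 0 := by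
      rintro rfl
      rw [MvPolynomial.totalDegree_zero] at hV
      omega
    have h1 := (KNorm.totalDegree_prod _ _ (hne hV0)).2
    rw [← hp, KNorm.totalDegree_map_inj _ Int.cast_injective] at h1
    rw [h1]
    have hσ : Nonempty (K →ₐ[ℚ] ℂ) := by
      rw [← Fintype.card_pos_iff, AlgHom.card]
      exact Module.finrank_pos
    obtain ⟨σ⟩ := hσ
    calc 1 ≤ V.totalDegree := hV
      _ = (MvPolynomial.map (σ.toRingHom.comp (algebraMap (𝓞 K) K)) V).totalDegree :=
          (KNorm.totalDegree_map_inj _ (hinj σ) V).symm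
      _ ≤ _ := Finset.single_le_sum (f := fun σ : K →ₐ[ℚ] ℂ =>
          (MvPolynomial.map (σ.toRingHom.comp (algebraMap (𝓞 K) K)) V).totalDegree)
          (fun _ _ => Nat.zero_le _) (Finset.mem_univ σ)

end Pool.Agent.FamK
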