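import Pool.Agent.FAM.Defs

set_option autoImplicit false

/-!
# Lines in the cube

Counting along the lines `s + x u`, the leading coefficient of a polynomial on them, the zeros of
a polynomial in the cube and its size there.
-/

namespace Pool.Agent.FAM

open Polynomial

namespace Lines

/-- The top coefficient of a product. -/
theorem prod_top {R : Type*} [CommRing R] {ι : Type*} (t : Finset ι) (f : ι → R[X]) (k : ι → ℕ)
    (h : ∀ i ∈ t, (f i).natDegree ≤ k i) :
    (∏ i ∈ t, f i).natDegree ≤ ∑ i ∈ t, k i ∧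
      (∏ i ∈ t, f i).coeff (∑ i ∈ t, k i) = ∏ i ∈ t, (f i).coeff (k i) := by
  classical
  induction t using Finset.induction_on with
  | empty => simp
  | insert a t ha ih =>
    obtain ⟨h1, h2⟩ := ih (fun i hi => h i (Finset.mem_insert_of_mem hi))
    have h3 := h a (Finset.mem_insert_self a t)
    rw [Finset.prod_insert ha, Finset.sum_insert ha, Finset.prod_insert ha]
    exact ⟨natDegree_mul_le_of_le h3 h1, by rw [coeff_mul_add_eq_of_natDegree_le h3 h1, h2]⟩

/-- The monomial `s ^ e` on the lines `s + x u`. -/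
theorem mono_top {r : ℕ} (u : Fin r → ℤ) (e : Fin r →₀ ℕ) :
    (∏ i, (C (MvPolynomial.X i) + C (MvPolynomial.C (u i)) * X :
      (MvPolynomial (Fin r) ℤ)[X]) ^ e i).natDegree ≤ e.degree ∧
    (∏ i, (C (MvPolynomial.X i) + C (MvPolynomial.C (u i)) * X :
      (MvPolynomial (Fin r) ℤ)[X]) ^ e i).coeff e.degree =
        MvPolynomial.C (∏ i, u i ^ e i) := by
  have hl : ∀ i, (C (MvPolynomial.X i) + C (MvPolynomial.C (u i)) * X :
      (MvPolynomial (Fin r) ℤ)[X]).natDegree ≤ 1 := by
    intro i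
    refine (natDegree_add_le _ _).trans (max_le ?_ ?_)
    · rw [natDegree_C]
      exact Nat.zero_le 1
    · exact (natDegree_C_mul_le _ _).trans natDegree_X_le
  have h := prod_top Finset.univ (fun i => (C (MvPolynomial.X i) +
    C (MvPolynomial.C (u i)) * X : (MvPolynomial (Fin r) ℤ)[X]) ^ e i) (fun i => e i)
    (fun i _ => by
      have := natDegree_pow_le_of_le (e i) (hl i)
      rwa [mul_one] at this)
  rw [← Finsupp.degree_eq_sum] at h
  refine ⟨h.1, h.2.trans ?_⟩
  rw [map_prod]
  refine Finset.prod_congr rfl fun i _ => ?_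
  have h2 := coeff_pow_of_natDegree_le (m := e i) (hl i)
  rw [mul_one] at h2
  rw [h2, coeff_add, coeff_C_of_ne_zero one_ne_zero, zero_add, coeff_C_mul, coeff_X_one, mul_one,
    map_pow]

/-- The leading coefficient of `W` on the lines `s + x u`. -/
theorem shift_top {r : ℕ} (u : Fin r → ℤ) (W : MvPolynomial (Fin r) ℤ) :
    (shift u W).natDegree ≤ W.totalDegree ∧ (shift u W).coeff W.totalDegree =
      MvPolynomial.C (MvPolynomial.eval u (MvPolynomial.homogeneousComponent W.totalDegree W)) := by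
  classical
  have hs : shift u W = ∑ d ∈ W.support, C (MvPolynomial.C (W.coeff d)) *
      ∏ i, (C (MvPolynomial.X i) + C (MvPolynomial.C (u i)) * X :
        (MvPolynomial (Fin r) ℤ)[X]) ^ d i := by
    unfold shift
    rw [MvPolynomial.coe_eval₂Hom, MvPolynomial.eval₂_eq']
    rfl
  have hd : ∀ d ∈ W.support, d.degree ≤ W.totalDegree := by
    intro d hd
    have := MvPolynomial.le_totalDegree hd
    rwa [Finsupp.sum_fintype _ _ (fun _ => rfl), ← Finsupp.degree_eq_sum] at this
  constructor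
  · rw [hs]
    refine natDegree_sum_le_of_forall_le _ _ (fun d hd' => ?_)
    exact (natDegree_C_mul_le _ _).trans ((mono_top u d).1.trans (hd d hd'))
  · rw [hs, finsetSum_coeff, MvPolynomial.homogeneousComponent_apply, map_sum, map_sum,
      Finset.sum_filter]
    refine Finset.sum_congr rfl fun d hd' => ?_
    rw [coeff_C_mul]
    split_ifs with h
    · rw [← h, (mono_top u d).2, MvPolynomial.eval_monomial, map_mul,
        Finsupp.prod_fintype _ _ (fun _ => pow_zero _)]
    · have h2 : d.degree < W.totalDegree := lt_of_le_of_ne (hd d hd') h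
      rw [coeff_eq_zero_of_natDegree_lt ((mono_top u d).1.trans_lt h2), mul_zero]

end Lines

/-- A direction along which `W` has a constant leading coefficient. -/
theorem dir {r : ℕ} (W : MvPolynomial (Fin r) ℤ) (hW : 1 ≤ W.totalDegree) :
    ∃ (u : Fin r → ℤ) (c₀ : ℤ), c₀ ≠ 0 ∧ (shift u W).natDegree ≤ W.totalDegree ∧
      (shift u W).coeff W.totalDegree = MvPolynomial.C c₀ := by
  classical
  have hne : W ≠ 0 := by
    rintro rfl
    rw [MvPolynomial.totalDegree_zero] at hW
    omega
  have hh : MvPolynomial.homogeneousComponent W.totalDegree W ≠ 0 := by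
    intro h0
    obtain ⟨d, hd, hd2⟩ := Finset.exists_mem_eq_sup W.support
      (MvPolynomial.support_nonempty.2 hne) (fun s => s.sum fun _ e => e)
    have h1 : d.degree = W.totalDegree := by
      rw [Finsupp.degree_eq_sum, MvPolynomial.totalDegree, hd2,
        Finsupp.sum_fintype _ _ (fun _ => rfl)]
    have h2 := MvPolynomial.coeff_homogeneousComponent W.totalDegree W d
    rw [h0, if_pos h1, MvPolynomial.coeff_zero] at h2
    exact MvPolynomial.mem_support_iff.1 hd h2.symm
  obtain ⟨u, hu⟩ : ∃ u : Fin r → ℤ, MvPolynomial.eval u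
      (MvPolynomial.homogeneousComponent W.totalDegree W) ≠ 0 := by
    by_contra hc
    push Not at hc
    exact hh (MvPolynomial.funext (fun u => by rw [hc u, map_zero]))
  exact ⟨u, _, hu, (Lines.shift_top u W).1, (Lines.shift_top u W).2⟩

open Classical in
/-- Counting along lines. -/
theorem avg_lines (r : ℕ) (u : Fin r → ℤ) : ∃ M : ℕ, 1 ≤ M ∧ ∀ H : ℕ, 1 ≤ H →
    ∀ P : (Fin r → ℤ) → Prop, (2 * H + 1) * ((Cube r H).filter (fun s => P s)).card ≤
      ∑ s ∈ Cube r (M * H), ((Finset.Icc (-(H : ℤ)) H).filter (fun x => P (s + x • u))).card := by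
  refine ⟨1 + ∑ i, (u i).natAbs, by omega, fun H _ P => ?_⟩
  have hI : (Finset.Icc (-(H : ℤ)) H).card = 2 * H + 1 := by
    rw [Int.card_Icc]
    omega
  have hR : ∑ s ∈ Cube r ((1 + ∑ i, (u i).natAbs) * H),
      ((Finset.Icc (-(H : ℤ)) H).filter (fun x => P (s + x • u))).card =
      (((Cube r ((1 + ∑ i, (u i).natAbs) * H)) ×ˢ (Finset.Icc (-(H : ℤ)) H)).filter
        (fun q => P (q.1 + q.2 • u))).card := by
    rw [Finset.card_filter, Finset.sum_product]
    exact Finset.sum_congr rfl fun s _ => Finset.card_filter _ _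
  rw [hR, ← hI, mul_comm, ← Finset.card_product]
  refine Finset.card_le_card_of_injOn (fun q => (q.1 - q.2 • u, q.2)) ?_ ?_
  · rintro ⟨s, x⟩ hq
    rw [Finset.mem_coe, Finset.mem_product, Finset.mem_filter] at hq
    obtain ⟨⟨hs, hP⟩, hx⟩ := hq
    rw [Finset.mem_coe, Finset.mem_filter, Finset.mem_product]
    refine ⟨⟨?_, hx⟩, ?_⟩
    · rw [mem_Cube] at hs ⊢
      intro i
      have h1 := hs i
      have h2 : |x| ≤ (H : ℤ) := abs_le.2 (Finset.mem_Icc.1 hx)
      have h3 : ((u i).natAbs : ℤ) ≤ ((∑ j, (u j).natAbs : ℕ) : ℤ) := by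
        exact_mod_cast Finset.single_le_sum (f := fun j => (u j).natAbs)
          (fun _ _ => Nat.zero_le _) (Finset.mem_univ i)
      have h4 : |x * u i| ≤ (H : ℤ) * ((∑ j, (u j).natAbs : ℕ) : ℤ) := by
        rw [abs_mul, Int.abs_eq_natAbs (u i)]
        exact mul_le_mul h2 h3 (by positivity) (by positivity)
      show |s i - x * u i| ≤ (((1 + ∑ j, (u j).natAbs) * H : ℕ) : ℤ)
      have h5 : |s i - x * u i| ≤ |s i| + |x * u i| := abs_sub _ _
      have h6 : (((1 + ∑ j, (u j).natAbs) * H : ℕ) : ℤ) =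
          (H : ℤ) + (H : ℤ) * ((∑ j, (u j).natAbs : ℕ) : ℤ) := by
        push_cast
        ring
      rw [h6]
      linarith
    · show P (s - x • u + x • u)
      rw [sub_add_cancel]
      exact hP
  · rintro ⟨s, x⟩ _ ⟨s', x'⟩ _ h
    have h1 : s - x • u = s' - x' • u := congrArg Prod.fst h
    have h2 : x = x' := congrArg Prod.snd h
    subst h2
    rw [sub_left_inj] at h1
    rw [h1]

open Classical in
/-- The zeros of a polynomial in the cube. -/
theorem zeros {r : ℕ} (E : MvPolynomial (Fin r) ℤ) (hE : E ≠ 0) : ∃ C : ℕ, ∀ H : ℕ,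
    (2 * H + 1) * ((Cube r H).filter (fun s => MvPolynomial.eval s E = 0)).card ≤
      C * (2 * H + 1) ^ r := by
  refine ⟨E.totalDegree, fun H => ?_⟩
  have hI : (Finset.Icc (-(H : ℤ)) H).card = 2 * H + 1 := by
    rw [Int.card_Icc]
    omega
  have h := MvPolynomial.schwartz_zippel_totalDegree hE (Finset.Icc (-(H : ℤ)) H)
  rw [hI, div_le_div_iff₀ (by positivity) (by positivity)] at h
  have h2 : ((Fintype.piFinset fun _ : Fin r => Finset.Icc (-(H : ℤ)) H).filter
      (fun s => MvPolynomial.eval s E = 0)).card * (2 * H + 1) ≤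
        E.totalDegree * (2 * H + 1) ^ r := by
    exact_mod_cast h
  rw [mul_comm]
  refine le_trans (le_of_eq ?_) h2
  congr 2

/-- The size of a polynomial in the cube. -/
theorem size {r : ℕ} (U : MvPolynomial (Fin r) ℤ) : ∃ B : ℕ, ∀ H : ℕ, 1 ≤ H → ∀ s ∈ Cube r H,
    |MvPolynomial.eval s U| ≤ B * (H : ℤ) ^ B := by
  refine ⟨∑ d ∈ U.support, (U.coeff d).natAbs + U.totalDegree, fun H hH s hs => ?_⟩
  have hH' : (1 : ℤ) ≤ H := by exact_mod_cast hH
  rw [mem_Cube] at hs
  have h1 : |MvPolynomial.eval s U| ≤ ∑ d ∈ U.support, ((U.coeff d).natAbs : ℤ) *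
      (H : ℤ) ^ U.totalDegree := by
    rw [MvPolynomial.eval_eq']
    refine (Finset.abs_sum_le_sum_abs _ _).trans (Finset.sum_le_sum fun d hd => ?_)
    rw [abs_mul, Int.abs_eq_natAbs]
    refine mul_le_mul_of_nonneg_left ?_ (by positivity)
    have hd' : ∑ i, d i ≤ U.totalDegree := by
      have := MvPolynomial.le_totalDegree hd
      rwa [Finsupp.sum_fintype _ _ (fun _ => rfl)] at this
    calc |∏ i, s i ^ d i| = ∏ i, |s i| ^ d i := by
          rw [Finset.abs_prod]
          exact Finset.prod_congr rfl fun i _ => abs_pow _ _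
      _ ≤ ∏ i, (H : ℤ) ^ d i := Finset.prod_le_prod (fun i _ => by positivity)
          (fun i _ => pow_le_pow_left₀ (abs_nonneg _) (hs i) _)
      _ = (H : ℤ) ^ ∑ i, d i := Finset.prod_pow_eq_pow_sum _ _ _
      _ ≤ (H : ℤ) ^ U.totalDegree := pow_le_pow_right₀ hH' hd'
  refine h1.trans ?_
  rw [← Finset.sum_mul]
  push_cast
  refine mul_le_mul ?_ (pow_le_pow_right₀ hH' (by omega)) (by positivity) (by positivity)
  have : (0 : ℤ) ≤ U.totalDegree := by positivity
  linarith

end Pool.Agent.FAM
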