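import Mathlib
import Pool.Agent.FAM.Defs

set_option autoImplicit false

/-!
# Two relatively prime polynomials on the lines of one direction
-/

namespace Pool.Agent.FAM

open Polynomial

namespace Cop

section

variable {A K : Type*} [CommRing A] [IsDomain A] [Field K] [Algebra A K] [IsFractionRing A K]

/-- Clearing denominators. -/
theorem clear (p : K[X]) : ∃ (c : A) (q : A[X]), c ≠ 0 ∧
    q.map (algebraMap A K) = C (algebraMap A K c) * p := by
  obtain ⟨b, hb, h⟩ := IsLocalization.integerNormalization_spec (nonZeroDivisors A) p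
  refine ⟨b, IsLocalization.integerNormalization (nonZeroDivisors A) p,
    nonZeroDivisors.ne_zero hb, ?_⟩
  rw [h, ← smul_eq_C_mul, algebraMap_smul]

theorem map_inj {f g : A[X]} (h : f.map (algebraMap A K) = g.map (algebraMap A K)) : f = g :=
  map_injective _ (IsFractionRing.injective A K) h

theorem C_ne {c : A} (hc : c ≠ 0) : (algebraMap A K c) ≠ 0 := by
  rw [ne_eq, FaithfulSMul.algebraMap_eq_zero_iff]
  exact hc

theorem isUnit_prod {B B' : Type*} [CommRing B] [CommRing B'] (φ : B →+* B') (m : Multiset B)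
    (h : ∀ b ∈ m, IsUnit (φ b)) : IsUnit (φ m.prod) := by
  induction m using Multiset.induction with
  | empty => simp
  | cons a m ih =>
    rw [Multiset.prod_cons, map_mul]
    exact (h a (Multiset.mem_cons_self a m)).mul
      (ih fun b hb => h b (Multiset.mem_cons_of_mem hb))

/-- Gauss's lemma: no common factor over `A` gives none over the fraction field. -/
theorem coprime_map [UniqueFactorizationMonoid A] (f g : A[X]) (h : IsRelPrime f g) :
    IsCoprime (f.map (algebraMap A K)) (g.map (algebraMap A K)) := by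
  rw [← isRelPrime_iff_isCoprime]
  intro h' hf hg
  have hne : ¬ (f = 0 ∧ g = 0) := by
    rintro ⟨rfl, rfl⟩
    exact not_isUnit_zero (h (dvd_refl 0) (dvd_refl 0))
  have h0 : h' ≠ 0 := by
    rintro rfl
    rw [zero_dvd_iff] at hf hg
    exact hne ⟨map_inj (K := K) (by rw [hf, Polynomial.map_zero]),
      map_inj (K := K) (by rw [hg, Polynomial.map_zero])⟩
  obtain ⟨c, q, hc, hq⟩ := clear (A := A) h'
  have hq0 : q ≠ 0 := by
    rintro rfl
    rw [Polynomial.map_zero] at hq
    exact (mul_ne_zero (C_ne_zero.2 (C_ne (K := K) hc)) h0) hq.symm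
  have hdiv : ∀ e : A[X], h' ∣ e.map (algebraMap A K) → ∃ s : A, s ≠ 0 ∧ q ∣ C s * e := by
    rintro e ⟨e', he⟩
    obtain ⟨c', q', hc', hq'⟩ := clear (A := A) e'
    refine ⟨c * c', mul_ne_zero hc hc', q', map_inj (K := K) ?_⟩
    rw [Polynomial.map_mul, Polynomial.map_mul, hq, hq', map_C, he, map_mul, C_mul]
    ring
  obtain ⟨s, hs, hs'⟩ := hdiv f hf
  obtain ⟨t, ht, ht'⟩ := hdiv g hg
  have hpr : ∀ π : A[X], Prime π → π ∣ q → IsUnit (mapRingHom (algebraMap A K) π) := by
    intro π hπ hd
    by_cases hx : ∃ s : A, s ≠ 0 ∧ π ∣ C s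
    · obtain ⟨x, hx0, hx1⟩ := hx
      refine isUnit_of_dvd_unit (_root_.map_dvd (mapRingHom (algebraMap A K)) hx1) ?_
      rw [coe_mapRingHom, map_C]
      exact isUnit_C.2 (C_ne (K := K) hx0).isUnit
    · push Not at hx
      have h1 : π ∣ f := (hπ.dvd_or_dvd (hd.trans hs')).resolve_left (hx s hs)
      have h2 : π ∣ g := (hπ.dvd_or_dvd (hd.trans ht')).resolve_left (hx t ht)
      exact absurd (h h1 h2) hπ.not_isUnit
  obtain ⟨m, hm, hmq⟩ := UniqueFactorizationMonoid.exists_prime_factors q hq0
  have h3 : IsUnit (mapRingHom (algebraMap A K) m.prod) :=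
    isUnit_prod _ m fun b hb => hpr b (hm b hb) ((Multiset.dvd_prod hb).trans hmq.dvd)
  have h4 : IsUnit (q.map (algebraMap A K)) := by
    have h5 := (hmq.map (mapRingHom (algebraMap A K))).isUnit h3
    rwa [coe_mapRingHom] at h5
  rw [hq] at h4
  exact isUnit_of_mul_isUnit_right h4

/-- The resultant form. -/
theorem exists_comb [UniqueFactorizationMonoid A] (f g : A[X]) (h : IsRelPrime f g) :
    ∃ (ρ : A) (a b : A[X]), ρ ≠ 0 ∧ a * f + b * g = C ρ := by
  obtain ⟨a', b', hab⟩ := coprime_map (K := FractionRing A) f g h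
  obtain ⟨c, a, hc, ha⟩ := clear (A := A) a'
  obtain ⟨e, b, he, hb⟩ := clear (A := A) b'
  refine ⟨c * e, C e * a, C c * b, mul_ne_zero hc he, map_inj (K := FractionRing A) ?_⟩
  rw [Polynomial.map_add, Polynomial.map_mul, Polynomial.map_mul, Polynomial.map_mul,
    Polynomial.map_mul, ha, hb, map_C, map_C, map_C, map_mul, C_mul]
  linear_combination (C (algebraMap A (FractionRing A) c) *
    C (algebraMap A (FractionRing A) e)) * hab

/-- Constant polynomials without common factor. -/
theorem isRelPrime_C {a b : A} (h : IsRelPrime a b) : IsRelPrime (C a) (C b) := by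
  have key : ∀ {x y : A}, x ≠ 0 → IsRelPrime x y → IsRelPrime (C x) (C y) := by
    intro x y hx hxy k hk1 hk2
    have h1 : k.natDegree = 0 := by
      have := natDegree_le_of_dvd hk1 (C_ne_zero.2 hx)
      rw [natDegree_C] at this
      omega
    rw [eq_C_of_natDegree_eq_zero h1] at hk1 hk2 ⊢
    rw [C_dvd_iff_dvd_coeff] at hk1 hk2
    have h2 := hk1 0
    have h3 := hk2 0
    rw [coeff_C_zero] at h2 h3
    exact isUnit_C.2 (hxy h2 h3)
  by_cases ha : a = 0
  · by_cases hb : b = 0
    · subst ha hb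
      exact absurd (h (dvd_refl 0) (dvd_refl 0)) not_isUnit_zero
    · exact (key hb h.symm).symm
  · exact key ha h

end

/-- The substitution `s ↦ s + x u`, `x ↦ x`. -/
noncomputable def theta {r : ℕ} (u : Fin r → ℤ) :
    (MvPolynomial (Fin r) ℤ)[X] →+* (MvPolynomial (Fin r) ℤ)[X] :=
  eval₂RingHom (shift u) X

theorem theta_C {r : ℕ} (u : Fin r → ℤ) (U : MvPolynomial (Fin r) ℤ) :
    theta u (C U) = shift u U := by
  unfold theta
  rw [coe_eval₂RingHom, eval₂_C]

theorem theta_X {r : ℕ} (u : Fin r → ℤ) : theta u X = X := by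
  unfold theta
  rw [coe_eval₂RingHom, eval₂_X]

theorem shift_C {r : ℕ} (u : Fin r → ℤ) (n : ℤ) : shift u (MvPolynomial.C n) =
    C (MvPolynomial.C n) := by
  unfold shift
  rw [MvPolynomial.coe_eval₂Hom, MvPolynomial.eval₂_C]
  rfl

theorem shift_X {r : ℕ} (u : Fin r → ℤ) (i : Fin r) : shift u (MvPolynomial.X i) =
    C (MvPolynomial.X i) + C (MvPolynomial.C (u i)) * X := by
  unfold shift
  rw [MvPolynomial.coe_eval₂Hom, MvPolynomial.eval₂_X]

theorem theta_theta {r : ℕ} (u : Fin r → ℤ) (P : (MvPolynomial (Fin r) ℤ)[X]) :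
    theta u (theta (-u) P) = P := by
  have h : (theta u).comp (theta (-u)) = RingHom.id _ := by
    refine Polynomial.ringHom_ext' (MvPolynomial.ringHom_ext (fun n => ?_) fun i => ?_) ?_
    · rw [RingHom.comp_apply, RingHom.comp_apply, theta_C, shift_C, theta_C, shift_C]
      rfl
    · rw [RingHom.comp_apply, RingHom.comp_apply, theta_C, shift_X, map_add, map_mul, theta_C,
        theta_C, theta_X, shift_X, shift_C, RingHom.comp_apply, RingHom.id_apply, Pi.neg_apply,
        map_neg, map_neg]
      ring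
    · rw [RingHom.comp_apply, theta_X, theta_X, RingHom.id_apply]
  exact congrArg (fun f => f P) h

theorem theta_shift {r : ℕ} (u : Fin r → ℤ) (W : MvPolynomial (Fin r) ℤ) :
    theta (-u) (shift u W) = C W := by
  have h1 := theta_theta (-u) (C W)
  rw [neg_neg] at h1
  rw [theta_C] at h1
  exact h1

theorem isRelPrime_shift {r : ℕ} (u : Fin r → ℤ) {U V : MvPolynomial (Fin r) ℤ}
    (h : IsRelPrime U V) : IsRelPrime (shift u U) (shift u V) := by
  intro k hk1 hk2
  have e1 : theta (-u) k ∣ C U := by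
    rw [← theta_shift u U]
    exact _root_.map_dvd (theta (-u)) hk1
  have e2 : theta (-u) k ∣ C V := by
    rw [← theta_shift u V]
    exact _root_.map_dvd (theta (-u)) hk2
  have h0 : IsRelPrime (C U) (C V) := isRelPrime_C h
  have h1 : IsUnit (theta (-u) k) := h0 e1 e2
  have h2 : IsUnit (theta u (theta (-u) k)) := h1.map (theta u)
  rw [theta_theta] at h2
  exact h2

end Cop

/-- On the lines of direction `u` the common divisors of the values of `U` and `V` divide the
value of a nonzero polynomial. -/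
theorem cop {r : ℕ} (U V : MvPolynomial (Fin r) ℤ) (h : IsRelPrime U V) (u : Fin r → ℤ) :
    ∃ (ρ : MvPolynomial (Fin r) ℤ) (a b : (MvPolynomial (Fin r) ℤ)[X]), ρ ≠ 0 ∧
      a * shift u U + b * shift u V = C ρ :=
  Cop.exists_comb _ _ (Cop.isRelPrime_shift u h)

end Pool.Agent.FAM
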