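import Mathlib
import Pool.Agent.FAM.KDefs
import Pool.Agent.FAM.Cop

set_option autoImplicit false

/-!
# Two relatively prime polynomials over a number field on the lines of one direction
-/

namespace Pool.Agent.FamK

open Polynomial NumberField

namespace KCop

section

variable {A : Type} [CommRing A] {r : ℕ}

/-- The substitution `s ↦ s + x u`, `x ↦ x`. -/
noncomputable def theta (u : Fin r → ℤ) :
    (MvPolynomial (Fin r) A)[X] →+* (MvPolynomial (Fin r) A)[X] :=
  eval₂RingHom (shift u) X

theorem theta_C (u : Fin r → ℤ) (U : MvPolynomial (Fin r) A) :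
    theta u (C U) = shift u U := by
  unfold theta
  rw [coe_eval₂RingHom, eval₂_C]

theorem theta_X (u : Fin r → ℤ) : theta (A := A) u X = X := by
  unfold theta
  rw [coe_eval₂RingHom, eval₂_X]

theorem shift_C (u : Fin r → ℤ) (n : A) : shift u (MvPolynomial.C n) =
    C (MvPolynomial.C n) := by
  unfold shift
  rw [MvPolynomial.coe_eval₂Hom, MvPolynomial.eval₂_C]
  rfl

theorem shift_X (u : Fin r → ℤ) (i : Fin r) : shift (A := A) u (MvPolynomial.X i) =
    C (MvPolynomial.X i) + C (MvPolynomial.C ((u i : ℤ) : A)) * X := by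
  unfold shift
  rw [MvPolynomial.coe_eval₂Hom, MvPolynomial.eval₂_X]

theorem theta_theta (u : Fin r → ℤ) (P : (MvPolynomial (Fin r) A)[X]) :
    theta u (theta (-u) P) = P := by
  have h : (theta u).comp (theta (-u)) = RingHom.id (MvPolynomial (Fin r) A)[X] := by
    refine Polynomial.ringHom_ext' (MvPolynomial.ringHom_ext (fun n => ?_) fun i => ?_) ?_
    · rw [RingHom.comp_apply, RingHom.comp_apply, theta_C, shift_C, theta_C, shift_C]
      rfl
    · rw [RingHom.comp_apply, RingHom.comp_apply, theta_C, shift_X, map_add, map_mul, theta_C,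
        theta_C, theta_X, shift_X, shift_C, RingHom.comp_apply, RingHom.id_apply, Pi.neg_apply,
        Int.cast_neg, map_neg, map_neg]
      ring
    · rw [RingHom.comp_apply, theta_X, theta_X, RingHom.id_apply]
  exact congrArg (fun f => f P) h

theorem theta_shift (u : Fin r → ℤ) (W : MvPolynomial (Fin r) A) :
    theta (-u) (shift u W) = C W := by
  have h1 := theta_theta (-u) (C W)
  rw [neg_neg] at h1
  rw [theta_C] at h1
  exact h1

theorem isRelPrime_shift [IsDomain A] (u : Fin r → ℤ) {U V : MvPolynomial (Fin r) A}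
    (h : IsRelPrime U V) : IsRelPrime (shift u U) (shift u V) := by
  intro k hk1 hk2
  have e1 : theta (-u) k ∣ C U := by
    rw [← theta_shift u U]
    exact _root_.map_dvd (theta (-u)) hk1
  have e2 : theta (-u) k ∣ C V := by
    rw [← theta_shift u V]
    exact _root_.map_dvd (theta (-u)) hk2
  have h0 : IsRelPrime (C U) (C V) := Pool.Agent.FAM.Cop.isRelPrime_C h
  have h1 : IsUnit (theta (-u) k) := h0 e1 e2
  have h2 : IsUnit (theta u (theta (-u) k)) := h1.map (theta u)
  rw [theta_theta] at h2
  exact h2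

theorem shift_map {B : Type} [CommRing B] (f : A →+* B) (u : Fin r → ℤ)
    (U : MvPolynomial (Fin r) A) :
    (shift u U).map (MvPolynomial.map f) = shift u (MvPolynomial.map f U) := by
  have h : (mapRingHom (MvPolynomial.map (σ := Fin r) f)).comp (shift u) =
      (shift u).comp (MvPolynomial.map f) := by
    refine MvPolynomial.ringHom_ext (fun n => ?_) fun i => ?_
    · rw [RingHom.comp_apply, RingHom.comp_apply, shift_C, MvPolynomial.map_C, shift_C,
        coe_mapRingHom, map_C, MvPolynomial.map_C]
    · rw [RingHom.comp_apply, RingHom.comp_apply, shift_X, MvPolynomial.map_X, shift_X,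
        coe_mapRingHom, Polynomial.map_add, Polynomial.map_mul, map_C, map_C, map_X,
        MvPolynomial.map_X, MvPolynomial.map_C, map_intCast]
  exact congrArg (fun g => g U) h

end

theorem clear2 {A B : Type*} [CommRing A] [CommRing B] [Algebra A B] (M : Submonoid A)
    [IsLocalization M B] (p : B[X]) : ∃ c ∈ M, ∃ q : A[X],
    q.map (algebraMap A B) = C (algebraMap A B c) * p := by
  obtain ⟨b, hb, h⟩ := IsLocalization.integerNormalization_spec M p
  refine ⟨b, hb, IsLocalization.integerNormalization M p, ?_⟩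
  rw [h, ← smul_eq_C_mul, algebraMap_smul]

/-- Clearing denominators in `k[s_1, …, s_r][X]`, `k` the fraction field of `A`. -/
theorem clear3 {A k : Type} [CommRing A] [IsDomain A] [Field k] [Algebra A k]
    [IsFractionRing A k] {r : ℕ} (p : (MvPolynomial (Fin r) k)[X]) :
    ∃ (c : MvPolynomial (Fin r) A) (q : (MvPolynomial (Fin r) A)[X]), c ≠ 0 ∧
    q.map (MvPolynomial.map (algebraMap A k)) =
      C (MvPolynomial.map (algebraMap A k) c) * p := by
  letI : Algebra (MvPolynomial (Fin r) A) (MvPolynomial (Fin r) k) :=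
    MvPolynomial.algebraMvPolynomial
  haveI : IsLocalization ((nonZeroDivisors A).map (MvPolynomial.C (σ := Fin r)))
      (MvPolynomial (Fin r) k) := MvPolynomial.isLocalization _ _
  obtain ⟨c, hc, q, hq⟩ := clear2 (A := MvPolynomial (Fin r) A) (B := MvPolynomial (Fin r) k)
    ((nonZeroDivisors A).map MvPolynomial.C) p
  obtain ⟨n, hn, rfl⟩ := hc
  refine ⟨MvPolynomial.C n, q, ?_, hq⟩
  rw [ne_eq, MvPolynomial.C_eq_zero]
  exact nonZeroDivisors.ne_zero hn

theorem cop_gen {A k : Type} [CommRing A] [IsDomain A] [Field k] [Algebra A k]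
    [IsFractionRing A k] {r : ℕ} (U V : MvPolynomial (Fin r) A)
    (h : IsRelPrime (MvPolynomial.map (algebraMap A k) U)
      (MvPolynomial.map (algebraMap A k) V)) (u : Fin r → ℤ) :
    ∃ (ρ : MvPolynomial (Fin r) A) (a b : (MvPolynomial (Fin r) A)[X]), ρ ≠ 0 ∧
      a * shift u U + b * shift u V = C ρ := by
  obtain ⟨ρ', a', b', hρ', hab⟩ := Pool.Agent.FAM.Cop.exists_comb _ _ (isRelPrime_shift u h)
  obtain ⟨c, a, hc, ha⟩ := clear3 (A := A) a'
  obtain ⟨e, b, he, hb⟩ := clear3 (A := A) b'
  have hinj : Function.Injective (MvPolynomial.map (σ := Fin r) (algebraMap A k)) :=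
    MvPolynomial.map_injective _ (IsFractionRing.injective A k)
  have h1 : (C e * a * shift u U + C c * b * shift u V).map
      (MvPolynomial.map (algebraMap A k)) =
      C (MvPolynomial.map (algebraMap A k) (c * e) * ρ') := by
    rw [Polynomial.map_add, Polynomial.map_mul, Polynomial.map_mul, Polynomial.map_mul,
      Polynomial.map_mul, ha, hb, map_C, map_C, shift_map, shift_map, C_mul, ← hab,
      map_mul (MvPolynomial.map (algebraMap A k)) c e, C_mul]
    ring
  have h2 : (C e * a * shift u U + C c * b * shift u V).natDegree = 0 := by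
    rw [← natDegree_map_eq_of_injective hinj, h1, natDegree_C]
  obtain ⟨ρ, hρ⟩ := natDegree_eq_zero.1 h2
  refine ⟨ρ, C e * a, C c * b, ?_, hρ.symm⟩
  rintro rfl
  rw [← hρ, C_0, Polynomial.map_zero] at h1
  have h3 := C_eq_zero.1 h1.symm
  rcases mul_eq_zero.1 h3 with h4 | h4
  · rw [← map_zero (MvPolynomial.map (algebraMap A k))] at h4
    exact mul_ne_zero hc he (hinj h4)
  · exact hρ' h4

end KCop

variable {K : Type} [Field K] [NumberField K]

/-- On the lines of direction `u` the common divisors of the values of `U` and `V` divide the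
value of a nonzero polynomial. -/
theorem cop {r : ℕ} (U V : MvPolynomial (Fin r) (𝓞 K))
    (h : IsRelPrime (MvPolynomial.map (algebraMap (𝓞 K) K) U)
      (MvPolynomial.map (algebraMap (𝓞 K) K) V)) (u : Fin r → ℤ) :
    ∃ (ρ : MvPolynomial (Fin r) (𝓞 K)) (a b : (MvPolynomial (Fin r) (𝓞 K))[X]), ρ ≠ 0 ∧
      a * shift u U + b * shift u V = C ρ :=
  KCop.cop_gen U V h u

end Pool.Agent.FamK
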