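import Mathlib
import Pool.Agent.AVR.SmoothL
import Pool.Agent.AVR.EkA

set_option autoImplicit false

/-!
# One line: a large prime factor of `w (x)` that does not divide `v (x)`
-/

namespace Pool.Agent.FAM

open Polynomial Pool.Agent.AVR

namespace OneAux

/-- The zeros. -/
theorem card_zeros (D : ℕ) (w : ℤ[X]) (hw : w.natDegree ≤ D) (h0 : w.coeff D ≠ 0) (S : Finset ℤ)
    (hS : ∀ x ∈ S, w.eval x = 0) : S.card ≤ D := by
  classical
  have hw0 : w ≠ 0 := fun h => h0 (by rw [h, coeff_zero])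
  have h1 : S ⊆ w.roots.toFinset := fun x hx => by
    rw [Multiset.mem_toFinset, mem_roots hw0]
    exact hS x hx
  calc S.card ≤ w.roots.toFinset.card := Finset.card_le_card h1
    _ ≤ Multiset.card w.roots := Multiset.toFinset_card_le _
    _ ≤ w.natDegree := card_roots' w
    _ ≤ D := hw

/-- The roots modulo `p`. -/
theorem classes_root (D : ℕ) (w : ℤ[X]) (hw : w.natDegree ≤ D) (p : ℕ) (hp : p.Prime)
    (hc : ¬ (p : ℤ) ∣ w.coeff D) : Classes D p (fun x => (p : ℤ) ∣ w.eval x) := by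
  classical
  obtain ⟨T, hT, h⟩ := exists_classes w D hw p hp hc 0
  have hp1 : NeZero (p ^ (0 + 1)) := ⟨pow_ne_zero _ hp.ne_zero⟩
  refine ⟨T.image (fun c => ((c.val : ℕ) : ℤ)), Finset.card_image_le.trans hT, fun t ht => ?_⟩
  have h1 := h t (by simpa using ht)
  refine ⟨_, Finset.mem_image_of_mem _ h1, ?_⟩
  have h2 : ((t - (((t : ZMod (p ^ (0 + 1))).val : ℕ) : ℤ) : ℤ) : ZMod (p ^ (0 + 1))) = 0 := by
    push_cast
    rw [ZMod.natCast_zmod_val, sub_self]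
  rw [ZMod.intCast_zmod_eq_zero_iff_dvd] at h2
  simpa using h2

end OneAux

open OneAux

open Classical in
/-- One line, general form: for almost all `x` there is a prime `p > y` with `p ∣ w (x)` which is not
bad, if there are few bad primes. -/
theorem one_gen (D : ℕ) (hD : 1 ≤ D) (c₀ : ℤ) (hc : c₀ ≠ 0) (B : ℕ) : ∃ C c : ℝ, 0 < C ∧ 0 < c ∧
    ∀ H y k : ℕ, 2 ≤ y → 1 ≤ k → y ^ k ≤ H → H < (y + 1) ^ k → ∀ (w : ℤ[X]) (Q : ℕ → ℤ → Prop)
    (ρ : ℤ), w.natDegree ≤ D → w.coeff D = c₀ → ρ ≠ 0 → |ρ| ≤ B * (H : ℤ) ^ B →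
    (∀ (p : ℕ) (x : ℤ), p.Prime → y < p → (p : ℤ) ∣ w.eval x → Q p x → (p : ℤ) ∣ ρ) →
    (((Finset.Icc (-(H : ℤ)) H).filter (fun x => ¬ ∃ p : ℕ, p.Prime ∧ y < p ∧
      (p : ℤ) ∣ w.eval x ∧ ¬ Q p x)).card : ℝ) ≤
      C * (Real.exp (-(c * k)) + k / y) * (2 * H + 1) := by
  obtain ⟨C₁, c, hC₁, hc1, h1⟩ := smooth_line D c₀.natAbs hD
  obtain ⟨C₂, hC₂, h2⟩ := card_large B
  refine ⟨D + C₁ + 3 * D * C₂ + c₀.natAbs, c, by positivity, hc1,
    fun H y k hy hk hyk hHk w Q ρ hw hwc hρ hρB hdvd => ?_⟩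
  have hy0 : (0 : ℝ) < y := by
    have : 0 < y := by omega
    exact_mod_cast this
  have hk1 : (1 : ℝ) ≤ k := by exact_mod_cast hk
  have hyH : y ≤ H := (Nat.le_self_pow (by omega) y).trans hyk
  have hH1 : 1 ≤ H := by omega
  have hyH' : (y : ℝ) ≤ H := by exact_mod_cast hyH
  have hX : (0 : ℝ) < 2 * H + 1 := by positivity
  have hone : (1 : ℝ) ≤ k / y * (2 * H + 1) := by
    rw [div_mul_eq_mul_div, le_div_iff₀ hy0]
    nlinarith
  have hE : 0 ≤ Real.exp (-(c * k)) := (Real.exp_pos _).le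
  have hEX : 0 ≤ Real.exp (-(c * k)) * (2 * H + 1) := mul_nonneg hE hX.le
  have hkX : 0 ≤ k / y * ((2 : ℝ) * H + 1) := zero_le_one.trans hone
  set U := (Finset.Icc (-(H : ℤ)) H).filter (fun x => ¬ ∃ p : ℕ, p.Prime ∧ y < p ∧
      (p : ℤ) ∣ w.eval x ∧ ¬ Q p x) with hU
  rcases lt_or_ge y c₀.natAbs with hyc | hyc
  · -- small `y`
    have h3 : (U.card : ℝ) ≤ 2 * H + 1 := by
      have h : U.card ≤ (Finset.Icc (-(H : ℤ)) H).card := Finset.card_le_card (Finset.filter_subset _ _)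
      rw [Int.card_Icc] at h
      have h' : U.card ≤ 2 * H + 1 := by omega
      exact_mod_cast h'
    have h4 : (y : ℝ) ≤ c₀.natAbs := by exact_mod_cast hyc.le
    have h5 : (1 : ℝ) ≤ c₀.natAbs * (k / y) := by
      rw [mul_div_assoc', le_div_iff₀ hy0]
      nlinarith
    have h6 : (2 * H + 1 : ℝ) ≤ c₀.natAbs * (k / y * (2 * H + 1)) := by
      rw [← mul_assoc]
      nlinarith
    refine (h3.trans h6).trans ?_
    have h7 : (0 : ℝ) ≤ (D + C₁ + 3 * D * C₂) * (k / y * (2 * H + 1)) := by positivity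
    have h8 : (0 : ℝ) ≤ (D + C₁ + 3 * D * C₂ + c₀.natAbs) * (Real.exp (-(c * k)) * (2 * H + 1)) := by
      positivity
    calc (c₀.natAbs : ℝ) * (k / y * (2 * H + 1)) ≤ c₀.natAbs * (k / y * (2 * H + 1)) +
          (D + C₁ + 3 * D * C₂) * (k / y * (2 * H + 1)) +
          (D + C₁ + 3 * D * C₂ + c₀.natAbs) * (Real.exp (-(c * k)) * (2 * H + 1)) := by linarith
      _ = _ := by ring
  · -- the three cases
    set S : Finset ℕ := ρ.natAbs.primeFactors.filter (fun p => y < p) with hS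
    have hSp : ∀ p ∈ S, p.Prime ∧ y < p ∧ (p : ℤ) ∣ ρ := fun p hp => by
      rw [hS, Finset.mem_filter, Nat.mem_primeFactors] at hp
      exact ⟨hp.1.1, hp.2, Int.natCast_dvd.2 hp.1.2.1⟩
    have hScard : (S.card : ℝ) ≤ C₂ * k := h2 H y k hy hk hHk hH1 ρ hρ (by exact_mod_cast hρB) S hSp
    set U₁ := (Finset.Icc (-(H : ℤ)) H).filter (fun x => w.eval x = 0) with hU₁
    set U₂ := (Finset.Icc (-(H : ℤ)) H).filter (fun x => w.eval x ≠ 0 ∧
      ∀ p : ℕ, p.Prime → (p : ℤ) ∣ w.eval x → p ≤ y) with hU₂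
    set U₃ := (Finset.Icc (-(H : ℤ)) H).filter (fun x => ∃ p ∈ S, (p : ℤ) ∣ w.eval x) with hU₃
    have hsub : U ⊆ U₁ ∪ (U₂ ∪ U₃) := fun x hx => by
      rw [hU, Finset.mem_filter] at hx
      rw [Finset.mem_union, Finset.mem_union]
      by_cases hx0 : w.eval x = 0
      · exact Or.inl (Finset.mem_filter.2 ⟨hx.1, hx0⟩)
      by_cases hxs : ∀ p : ℕ, p.Prime → (p : ℤ) ∣ w.eval x → p ≤ y
      · exact Or.inr (Or.inl (Finset.mem_filter.2 ⟨hx.1, hx0, hxs⟩))
      · push Not at hxs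
        obtain ⟨p, hp, hpw, hpy⟩ := hxs
        refine Or.inr (Or.inr (Finset.mem_filter.2 ⟨hx.1, p, ?_, hpw⟩))
        have hpv : Q p x := by
          by_contra hcon
          exact hx.2 ⟨p, hp, hpy, hpw, hcon⟩
        rw [hS, Finset.mem_filter, Nat.mem_primeFactors]
        exact ⟨⟨hp, Int.natCast_dvd.1 (hdvd p x hp hpy hpw hpv), fun h => hρ (Int.natAbs_eq_zero.1 h)⟩, hpy⟩
    have hc1 : (U.card : ℝ) ≤ U₁.card + (U₂.card + U₃.card) := by
      have h := (Finset.card_le_card hsub).trans (Finset.card_union_le _ _)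
      have h' := Finset.card_union_le U₂ U₃
      have : U.card ≤ U₁.card + (U₂.card + U₃.card) := by omega
      exact_mod_cast this
    have hw0 : w.coeff D ≠ 0 := by rw [hwc]; exact hc
    have hb1 : (U₁.card : ℝ) ≤ D * (k / y * (2 * H + 1)) := by
      have h : U₁.card ≤ D := card_zeros D w hw hw0 U₁ fun x hx => (Finset.mem_filter.1 hx).2
      have h' : (U₁.card : ℝ) ≤ D := by exact_mod_cast h
      have hD0 : (0 : ℝ) ≤ D := Nat.cast_nonneg _
      nlinarith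
    have hb2 : (U₂.card : ℝ) ≤ C₁ * (Real.exp (-(c * k)) + 1 / y) * (2 * H + 1) :=
      h1 H y k hy hk hyk w hw hw0 (by
        rw [hwc, Int.natCast_natAbs]) U₂ (Finset.filter_subset _ _) fun x hx =>
        (Finset.mem_filter.1 hx).2
    have hb3 : (U₃.card : ℝ) ≤ 3 * D * S.card / y * (2 * H + 1) := by
      refine le_trans ?_ (card_classes D H y (by omega) hyH S (fun p x => (p : ℤ) ∣ w.eval x)
        fun p hp => ?_)
      · refine Nat.cast_le.2 (Finset.card_le_card fun x hx => ?_)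
        simp only [hU₃, Finset.mem_filter] at hx
        simp only [Finset.mem_filter]
        exact hx
      · refine ⟨(hSp p hp).2.1, classes_root D w hw p (hSp p hp).1 fun hd => ?_⟩
        have h := Nat.le_of_dvd (Int.natAbs_pos.2 hc) (Int.natCast_dvd.1 (hwc ▸ hd))
        have h' := (hSp p hp).2.1
        omega
    have hb2' : (U₂.card : ℝ) ≤ C₁ * (Real.exp (-(c * k)) * (2 * H + 1)) +
        C₁ * (k / y * (2 * H + 1)) := by
      refine hb2.trans ?_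
      have h : (1 : ℝ) / y * (2 * H + 1) ≤ k / y * (2 * H + 1) := by
        refine mul_le_mul_of_nonneg_right ?_ hX.le
        exact div_le_div_of_nonneg_right hk1 hy0.le
      have h' := mul_le_mul_of_nonneg_left h hC₁.le
      calc C₁ * (Real.exp (-(c * k)) + 1 / y) * (2 * H + 1) =
          C₁ * (Real.exp (-(c * k)) * (2 * H + 1)) + C₁ * (1 / y * (2 * H + 1)) := by ring
        _ ≤ _ := by linarith
    have hb3' : (U₃.card : ℝ) ≤ 3 * D * C₂ * (k / y * (2 * H + 1)) := by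
      refine hb3.trans ?_
      have h : 3 * (D : ℝ) * S.card / y * (2 * H + 1) = 3 * D * (2 * H + 1) / y * S.card := by ring
      rw [h]
      refine (mul_le_mul_of_nonneg_left hScard (by positivity)).trans (le_of_eq ?_)
      ring
    have h7 : (0 : ℝ) ≤ c₀.natAbs * (k / y * (2 * H + 1)) := by positivity
    have h8 : (0 : ℝ) ≤ (D + 3 * D * C₂ + c₀.natAbs) * (Real.exp (-(c * k)) * (2 * H + 1)) := by
      positivity
    calc (U.card : ℝ) ≤ D * (k / y * (2 * H + 1)) + (C₁ * (Real.exp (-(c * k)) * (2 * H + 1)) +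
        C₁ * (k / y * (2 * H + 1)) + 3 * D * C₂ * (k / y * (2 * H + 1))) +
          (c₀.natAbs * (k / y * (2 * H + 1)) +
          (D + 3 * D * C₂ + c₀.natAbs) * (Real.exp (-(c * k)) * (2 * H + 1))) := by linarith
      _ = _ := by ring

open Classical in
/-- One line: for almost all `x` there is a prime `p > y` with `p ∣ w (x)`, `p ∤ v (x)`. -/
theorem one (D : ℕ) (hD : 1 ≤ D) (c₀ : ℤ) (hc : c₀ ≠ 0) (B : ℕ) : ∃ C c : ℝ, 0 < C ∧ 0 < c ∧
    ∀ H y k : ℕ, 2 ≤ y → 1 ≤ k → y ^ k ≤ H → H < (y + 1) ^ k → ∀ (w v : ℤ[X]) (ρ : ℤ),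
    w.natDegree ≤ D → w.coeff D = c₀ → ρ ≠ 0 → |ρ| ≤ B * (H : ℤ) ^ B →
    (∀ p x : ℤ, p ∣ w.eval x → p ∣ v.eval x → p ∣ ρ) →
    (((Finset.Icc (-(H : ℤ)) H).filter (fun x => ¬ ∃ p : ℕ, p.Prime ∧ y < p ∧
      (p : ℤ) ∣ w.eval x ∧ ¬ (p : ℤ) ∣ v.eval x)).card : ℝ) ≤
      C * (Real.exp (-(c * k)) + k / y) * (2 * H + 1) := by
  obtain ⟨C, c, hC, hc1, h⟩ := one_gen D hD c₀ hc B
  exact ⟨C, c, hC, hc1, fun H y k hy hk hyk hHk w v ρ hw hwc hρ hρB hdvd =>
    h H y k hy hk hyk hHk w (fun p x => (p : ℤ) ∣ v.eval x) ρ hw hwc hρ hρB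
      fun p x _ _ h1 h2 => hdvd p x h1 h2⟩

end Pool.Agent.FAM
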