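import Mathlib
import Pool.Agent.AVR.Line
import Pool.Agent.FAM.Defs
import Pool.Agent.FAM.One
import Pool.Agent.FAM.Lines

set_option autoImplicit false

/-!
# Values of a polynomial in several variables: a large prime factor, and size (general form)
-/

namespace Pool.Agent.FAM

open Polynomial

namespace Large

theorem scale (r M H : ℕ) (hM : 1 ≤ M) :
    (2 * ((M * H : ℕ) : ℝ) + 1) ^ r ≤ (M : ℝ) ^ r * (2 * (H : ℝ) + 1) ^ r := by
  rw [← mul_pow]
  have hM' : (1 : ℝ) ≤ M := by exact_mod_cast hM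
  refine pow_le_pow_left₀ (by positivity) ?_ r
  push_cast
  nlinarith [hM']

theorem card_Cube_real (r H : ℕ) : ((Cube r H).card : ℝ) = (2 * (H : ℝ) + 1) ^ r := by
  rw [card_Cube]
  push_cast
  rfl

theorem card_Icc_real (H : ℕ) : ((Finset.Icc (-(H : ℤ)) H).card : ℝ) = 2 * (H : ℝ) + 1 := by
  rw [Int.card_Icc]
  have h1 : ((H : ℤ) + 1 - -(H : ℤ)).toNat = 2 * H + 1 := by omega
  rw [h1]
  push_cast
  rfl

theorem card_inst {α : Type*} (s : Finset α) (p : α → Prop) (i j : DecidablePred p) :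
    (@Finset.filter α p i s).card = (@Finset.filter α p j s).card := by
  rw [Subsingleton.elim i j]

/-- The coefficient of the restriction to a line. -/
theorem coeff_line {r : ℕ} (W : MvPolynomial (Fin r) ℤ) (u s : Fin r → ℤ) (D : ℕ) (c₀ : ℤ)
    (h : (shift u W).coeff D = MvPolynomial.C c₀) :
    ((shift u W).map (MvPolynomial.eval s)).coeff D = c₀ := by
  rw [coeff_map, h, MvPolynomial.eval_C]

/-- The identity of Bezout on a line. -/
theorem bezout_line {r : ℕ} (U V ρ : MvPolynomial (Fin r) ℤ) (u s : Fin r → ℤ)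
    (a b : (MvPolynomial (Fin r) ℤ)[X]) (h : a * shift u U + b * shift u V = C ρ) (p x : ℤ)
    (hV : p ∣ ((shift u V).map (MvPolynomial.eval s)).eval x)
    (hU : p ∣ ((shift u U).map (MvPolynomial.eval s)).eval x) : p ∣ MvPolynomial.eval s ρ := by
  have h1 := congrArg (fun q => (q.map (MvPolynomial.eval s)).eval x) h
  simp only [Polynomial.map_add, Polynomial.map_mul, Polynomial.map_C, eval_add, eval_mul,
    eval_C] at h1
  rw [← h1]
  exact dvd_add (Dvd.dvd.mul_left hU _) (Dvd.dvd.mul_left hV _)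

end Large

open Large

open Classical in
/-- For almost all `s` the value `V(s)` has a large prime factor for which `Q` does not hold. -/
theorem large_gen {r : ℕ} (V : MvPolynomial (Fin r) ℤ) (hV : 1 ≤ V.totalDegree)
    (Q : ℕ → (Fin r → ℤ) → Prop)
    (hQ : ∀ u : Fin r → ℤ, ∃ ρ : MvPolynomial (Fin r) ℤ, ρ ≠ 0 ∧ ∀ (p : ℕ) (s : Fin r → ℤ) (x : ℤ),
      p.Prime → (p : ℤ) ∣ MvPolynomial.eval (s + x • u) V → Q p (s + x • u) →
      (p : ℤ) ∣ MvPolynomial.eval s ρ) : ∃ C c : ℝ, 0 < C ∧ 0 < c ∧ ∀ H y k : ℕ, 2 ≤ y → 1 ≤ k →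
    y ^ k ≤ H → H < (y + 1) ^ k →
    (((Cube r H).filter (fun s => ¬ ∃ p : ℕ, p.Prime ∧ y < p ∧
      (p : ℤ) ∣ MvPolynomial.eval s V ∧ ¬ Q p s)).card : ℝ) ≤
      C * (Real.exp (-(c * k)) + k / y) * (2 * H + 1) ^ r := by
  obtain ⟨u, c₀, hc, hdeg, hco⟩ := dir V hV
  obtain ⟨ρ, hρ, hab⟩ := hQ u
  obtain ⟨B, hB⟩ := size ρ
  obtain ⟨M, hM, hav⟩ := avg_lines r u
  obtain ⟨C2, hz⟩ := zeros ρ hρ
  obtain ⟨C1, c1, hC1, hc1, hone⟩ := one_gen V.totalDegree hV c₀ hc (B * M ^ B)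
  have hM0 : (0 : ℝ) < M := by exact_mod_cast hM
  refine ⟨(M : ℝ) ^ r * (C1 + C2), c1, by positivity, hc1, fun H y k hy hk h1 h2 => ?_⟩
  have hyk : 1 ≤ y ^ k := Nat.one_le_pow _ _ (by omega)
  have hyH : y ≤ H := (Nat.le_self_pow (by omega) y).trans h1
  have hH : 1 ≤ H := by omega
  have hMH : 1 ≤ M * H := Nat.mul_pos (by omega) (by omega)
  have hL : (0 : ℝ) < 2 * (H : ℝ) + 1 := by positivity
  have hEp : 0 < Real.exp (-(c1 * k)) + (k : ℝ) / y := by positivity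
  have key0 := hav H hH (fun s => ¬ ∃ p : ℕ, p.Prime ∧ y < p ∧
      (p : ℤ) ∣ MvPolynomial.eval s V ∧ ¬ Q p s)
  have key : (2 * H + 1) * ((Cube r H).filter (fun s => ¬ ∃ p : ℕ, p.Prime ∧ y < p ∧
      (p : ℤ) ∣ MvPolynomial.eval s V ∧ ¬ Q p s)).card ≤
      ∑ s ∈ Cube r (M * H), ((Finset.Icc (-(H : ℤ)) H).filter (fun x => ¬ ∃ p : ℕ,
      p.Prime ∧ y < p ∧ (p : ℤ) ∣ MvPolynomial.eval (s + x • u) V ∧
      ¬ Q p (s + x • u))).card :=
    le_of_eq_of_le (congrArg (fun n => (2 * H + 1) * n) (card_inst _ _ _ _))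
      (le_of_le_of_eq key0 (Finset.sum_congr rfl fun s _ => card_inst _ _ _ _))
  have hper : ∀ s ∈ Cube r (M * H), (((Finset.Icc (-(H : ℤ)) H).filter (fun x => ¬ ∃ p : ℕ,
      p.Prime ∧ y < p ∧ (p : ℤ) ∣ MvPolynomial.eval (s + x • u) V ∧
      ¬ Q p (s + x • u))).card : ℝ) ≤
      C1 * (Real.exp (-(c1 * k)) + k / y) * (2 * H + 1) +
        (if MvPolynomial.eval s ρ = 0 then (2 * (H : ℝ) + 1) else 0) := by
    intro s hs
    by_cases h0 : MvPolynomial.eval s ρ = 0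
    · rw [if_pos h0]
      have h3 : (((Finset.Icc (-(H : ℤ)) H).filter (fun x => ¬ ∃ p : ℕ,
          p.Prime ∧ y < p ∧ (p : ℤ) ∣ MvPolynomial.eval (s + x • u) V ∧
          ¬ Q p (s + x • u))).card : ℝ) ≤ 2 * (H : ℝ) + 1 := by
        rw [← card_Icc_real]
        exact_mod_cast Finset.card_filter_le _ _
      have h4 : 0 ≤ C1 * (Real.exp (-(c1 * k)) + k / y) * (2 * (H : ℝ) + 1) := by positivity
      linarith
    · rw [if_neg h0, add_zero]
      have h5 : |MvPolynomial.eval s ρ| ≤ ((B * M ^ B : ℕ) : ℤ) * (H : ℤ) ^ (B * M ^ B) := by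
        refine (hB (M * H) hMH s hs).trans ?_
        have h6 : B ≤ B * M ^ B := Nat.le_mul_of_pos_right _ (Nat.pow_pos (by omega))
        have h7 : (H : ℤ) ^ B ≤ (H : ℤ) ^ (B * M ^ B) :=
          pow_le_pow_right₀ (by exact_mod_cast hH) h6
        push_cast
        rw [mul_pow, ← mul_assoc]
        exact mul_le_mul_of_nonneg_left h7 (by positivity)
      have h8 := hone H y k hy hk h1 h2 ((shift u V).map (MvPolynomial.eval s))
        (fun p x => Q p (s + x • u)) (MvPolynomial.eval s ρ)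
        (natDegree_map_le.trans hdeg) (coeff_line V u s _ c₀ hco) h0 h5
        (fun p x hp _ hw hq => hab p s x hp (by rw [← eval_shift]; exact hw) hq)
      simp only [eval_shift] at h8
      exact h8
  have hsum : (2 * (H : ℝ) + 1) * (((Cube r H).filter (fun s => ¬ ∃ p : ℕ, p.Prime ∧ y < p ∧
      (p : ℤ) ∣ MvPolynomial.eval s V ∧ ¬ Q p s)).card : ℝ) ≤
      (2 * ((M * H : ℕ) : ℝ) + 1) ^ r * (C1 * (Real.exp (-(c1 * k)) + k / y) * (2 * H + 1)) +
        (((Cube r (M * H)).filter (fun s => MvPolynomial.eval s ρ = 0)).card : ℝ) *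
          (2 * (H : ℝ) + 1) := by
    have h9 : (2 * (H : ℝ) + 1) * (((Cube r H).filter (fun s => ¬ ∃ p : ℕ, p.Prime ∧ y < p ∧
        (p : ℤ) ∣ MvPolynomial.eval s V ∧ ¬ Q p s)).card : ℝ) ≤
        ∑ s ∈ Cube r (M * H), (((Finset.Icc (-(H : ℤ)) H).filter (fun x => ¬ ∃ p : ℕ,
          p.Prime ∧ y < p ∧ (p : ℤ) ∣ MvPolynomial.eval (s + x • u) V ∧
          ¬ Q p (s + x • u))).card : ℝ) := by
      exact_mod_cast key
    refine h9.trans ((Finset.sum_le_sum hper).trans (le_of_eq ?_))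
    rw [Finset.sum_add_distrib, Finset.sum_const, nsmul_eq_mul, card_Cube_real,
      ← Finset.sum_filter, Finset.sum_const, nsmul_eq_mul]
  have hz2 : (((Cube r (M * H)).filter (fun s => MvPolynomial.eval s ρ = 0)).card : ℝ) ≤
      C2 * ((M : ℝ) ^ r * (2 * (H : ℝ) + 1) ^ r) / (2 * (H : ℝ) + 1) := by
    rw [le_div_iff₀ hL]
    have h10 : (2 * ((M * H : ℕ) : ℝ) + 1) *
        (((Cube r (M * H)).filter (fun s => MvPolynomial.eval s ρ = 0)).card : ℝ) ≤
        C2 * (2 * ((M * H : ℕ) : ℝ) + 1) ^ r := by exact_mod_cast hz (M * H)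
    have h11 : (2 * (H : ℝ) + 1) ≤ 2 * ((M * H : ℕ) : ℝ) + 1 := by
      have : (H : ℝ) ≤ ((M * H : ℕ) : ℝ) := by
        exact_mod_cast Nat.le_mul_of_pos_left H (by omega)
      linarith
    calc (((Cube r (M * H)).filter (fun s => MvPolynomial.eval s ρ = 0)).card : ℝ) *
          (2 * (H : ℝ) + 1) ≤
          (2 * ((M * H : ℕ) : ℝ) + 1) *
          (((Cube r (M * H)).filter (fun s => MvPolynomial.eval s ρ = 0)).card : ℝ) := by
          rw [mul_comm]
          exact mul_le_mul_of_nonneg_right h11 (by positivity)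
      _ ≤ C2 * (2 * ((M * H : ℕ) : ℝ) + 1) ^ r := h10
      _ ≤ C2 * ((M : ℝ) ^ r * (2 * (H : ℝ) + 1) ^ r) :=
          mul_le_mul_of_nonneg_left (scale r M H hM) (by positivity)
  have h12 : 1 / (2 * (H : ℝ) + 1) ≤ Real.exp (-(c1 * k)) + k / y := by
    have h13 : 1 / (2 * (H : ℝ) + 1) ≤ (k : ℝ) / y := by
      have hy0 : (0 : ℝ) < y := by
        have : (2 : ℝ) ≤ y := by exact_mod_cast hy
        linarith
      have hk1 : (1 : ℝ) ≤ k := by exact_mod_cast hk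
      have hyH' : (y : ℝ) ≤ H := by exact_mod_cast hyH
      rw [div_le_div_iff₀ hL hy0]
      nlinarith
    have := (Real.exp_pos (-(c1 * (k : ℝ)))).le
    linarith
  have hfin : (2 * (H : ℝ) + 1) * (((Cube r H).filter (fun s => ¬ ∃ p : ℕ, p.Prime ∧ y < p ∧
      (p : ℤ) ∣ MvPolynomial.eval s V ∧ ¬ Q p s)).card : ℝ) ≤
      (2 * (H : ℝ) + 1) * ((M : ℝ) ^ r * (C1 + C2) * (Real.exp (-(c1 * k)) + k / y) *
        (2 * (H : ℝ) + 1) ^ r) := by
    refine hsum.trans ?_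
    have h14 : (2 * ((M * H : ℕ) : ℝ) + 1) ^ r *
        (C1 * (Real.exp (-(c1 * k)) + k / y) * (2 * H + 1)) ≤
        ((M : ℝ) ^ r * (2 * (H : ℝ) + 1) ^ r) *
        (C1 * (Real.exp (-(c1 * k)) + k / y) * (2 * H + 1)) :=
      mul_le_mul_of_nonneg_right (scale r M H hM) (by positivity)
    have h15 : (((Cube r (M * H)).filter (fun s => MvPolynomial.eval s ρ = 0)).card : ℝ) *
        (2 * (H : ℝ) + 1) ≤ C2 * ((M : ℝ) ^ r * (2 * (H : ℝ) + 1) ^ r) / (2 * (H : ℝ) + 1) *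
        (2 * (H : ℝ) + 1) := mul_le_mul_of_nonneg_right hz2 hL.le
    have h16 : C2 * ((M : ℝ) ^ r * (2 * (H : ℝ) + 1) ^ r) / (2 * (H : ℝ) + 1) *
        (2 * (H : ℝ) + 1) = (C2 * ((M : ℝ) ^ r * (2 * (H : ℝ) + 1) ^ r) * (2 * (H : ℝ) + 1)) *
        (1 / (2 * (H : ℝ) + 1)) := by
      field_simp
    have h17 : (C2 * ((M : ℝ) ^ r * (2 * (H : ℝ) + 1) ^ r) * (2 * (H : ℝ) + 1)) *
        (1 / (2 * (H : ℝ) + 1)) ≤ (C2 * ((M : ℝ) ^ r * (2 * (H : ℝ) + 1) ^ r) *
        (2 * (H : ℝ) + 1)) * (Real.exp (-(c1 * k)) + k / y) :=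
      mul_le_mul_of_nonneg_left h12 (by positivity)
    calc _ ≤ ((M : ℝ) ^ r * (2 * (H : ℝ) + 1) ^ r) *
          (C1 * (Real.exp (-(c1 * k)) + k / y) * (2 * H + 1)) +
          (C2 * ((M : ℝ) ^ r * (2 * (H : ℝ) + 1) ^ r) *
        (2 * (H : ℝ) + 1)) * (Real.exp (-(c1 * k)) + k / y) := by linarith
      _ = _ := by ring
  exact le_of_mul_le_mul_left hfin hL

open Classical in
/-- For almost all `s` the value `U(s)` is large. -/
theorem big {r : ℕ} (U : MvPolynomial (Fin r) ℤ) (hU : 1 ≤ U.totalDegree) : ∃ C : ℝ, 0 < C ∧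
    ∀ H : ℕ, 1 ≤ H → (((Cube r H).filter (fun s => MvPolynomial.eval s U ^ 2 < H)).card : ℝ) ≤
      C * (2 * H + 1) ^ r / Real.sqrt H := by
  obtain ⟨u, c₀, hc, hdeg, hco⟩ := dir U hU
  obtain ⟨M, hM, hav⟩ := avg_lines r u
  have hM0 : (0 : ℝ) < M := by exact_mod_cast hM
  set D := U.totalDegree with hD
  refine ⟨(M : ℝ) ^ r * (D * (D + 3)), ?_, fun H hH => ?_⟩
  · have : (1 : ℝ) ≤ D := by exact_mod_cast hU
    positivity
  have hL : (0 : ℝ) < 2 * (H : ℝ) + 1 := by positivity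
  have hH1 : (1 : ℝ) ≤ H := by exact_mod_cast hH
  have hS1 : 1 ≤ Real.sqrt H := by
    rw [Real.one_le_sqrt]
    exact hH1
  have hS0 : 0 < Real.sqrt H := by linarith
  have hSS : Real.sqrt H * Real.sqrt H = H := Real.mul_self_sqrt (by linarith)
  have hD1 : (1 : ℝ) ≤ D := by exact_mod_cast hU
  have key0 := hav H hH (fun s => MvPolynomial.eval s U ^ 2 < H)
  have key : (2 * H + 1) * ((Cube r H).filter (fun s => MvPolynomial.eval s U ^ 2 < H)).card ≤
      ∑ s ∈ Cube r (M * H), ((Finset.Icc (-(H : ℤ)) H).filter (fun x =>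
      MvPolynomial.eval (s + x • u) U ^ 2 < H)).card :=
    le_of_eq_of_le (congrArg (fun n => (2 * H + 1) * n) (card_inst _ _ _ _))
      (le_of_le_of_eq key0 (Finset.sum_congr rfl fun s _ => card_inst _ _ _ _))
  have hper : ∀ s ∈ Cube r (M * H), (((Finset.Icc (-(H : ℤ)) H).filter (fun x =>
      MvPolynomial.eval (s + x • u) U ^ 2 < H)).card : ℝ) ≤ D * (D + 3) * Real.sqrt H := by
    intro s _
    have h1 := AVR.card_small ((shift u U).map (MvPolynomial.eval s)) D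
      (natDegree_map_le.trans hdeg) (by rw [coeff_line U u s _ c₀ hco]; exact hc)
      (⌊((D : ℝ) + 1) * Real.sqrt H⌋₊ + 1) (Real.sqrt H) (by
        have h2 := Nat.lt_floor_add_one (((D : ℝ) + 1) * Real.sqrt H)
        push_cast
        refine h2.trans_le ?_
        refine le_self_pow₀ ?_ (by omega)
        have : (0 : ℝ) ≤ (⌊((D : ℝ) + 1) * Real.sqrt H⌋₊ : ℝ) := by positivity
        linarith) (Finset.Icc (-(H : ℤ)) H)
    have h3 : (((Finset.Icc (-(H : ℤ)) H).filter (fun x =>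
        MvPolynomial.eval (s + x • u) U ^ 2 < H)).card : ℝ) ≤
        (((Finset.Icc (-(H : ℤ)) H).filter fun t =>
          |((((shift u U).map (MvPolynomial.eval s)).eval t : ℤ) : ℝ)| ≤ Real.sqrt H).card : ℝ) := by
      have : ((Finset.Icc (-(H : ℤ)) H).filter (fun x =>
        MvPolynomial.eval (s + x • u) U ^ 2 < H)) ⊆ ((Finset.Icc (-(H : ℤ)) H).filter fun t =>
          |((((shift u U).map (MvPolynomial.eval s)).eval t : ℤ) : ℝ)| ≤ Real.sqrt H) := by
        intro x hx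
        rw [Finset.mem_filter] at hx ⊢
        refine ⟨hx.1, ?_⟩
        rw [eval_shift]
        refine Real.abs_le_sqrt ?_
        have := hx.2.le
        exact_mod_cast this
      exact_mod_cast Finset.card_le_card this
    refine h3.trans ?_
    have h4 : (((Finset.Icc (-(H : ℤ)) H).filter fun t =>
          |((((shift u U).map (MvPolynomial.eval s)).eval t : ℤ) : ℝ)| ≤ Real.sqrt H).card : ℝ) ≤
        (D : ℝ) * ((⌊((D : ℝ) + 1) * Real.sqrt H⌋₊ : ℝ) + 1) := by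
      have h5 : (((Finset.Icc (-(H : ℤ)) H).filter fun t =>
          |((((shift u U).map (MvPolynomial.eval s)).eval t : ℤ) : ℝ)| ≤ Real.sqrt H).card : ℝ) ≤
          ((D * (⌊((D : ℝ) + 1) * Real.sqrt H⌋₊ + 1) : ℕ) : ℝ) := by
        exact_mod_cast h1
      rw [Nat.cast_mul, Nat.cast_add, Nat.cast_one] at h5
      exact h5
    refine h4.trans ?_
    have h6 : (⌊((D : ℝ) + 1) * Real.sqrt H⌋₊ : ℝ) ≤ ((D : ℝ) + 1) * Real.sqrt H :=
      Nat.floor_le (by positivity)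
    have h7 : (D : ℝ) * ((⌊((D : ℝ) + 1) * Real.sqrt H⌋₊ : ℝ) + 1) ≤
        D * ((D + 3) * Real.sqrt H) := by
      refine mul_le_mul_of_nonneg_left ?_ (by positivity)
      nlinarith
    linarith
  have hsum : (2 * (H : ℝ) + 1) *
      (((Cube r H).filter (fun s => MvPolynomial.eval s U ^ 2 < H)).card : ℝ) ≤
      (2 * ((M * H : ℕ) : ℝ) + 1) ^ r * (D * (D + 3) * Real.sqrt H) := by
    have h9 : (2 * (H : ℝ) + 1) *
        (((Cube r H).filter (fun s => MvPolynomial.eval s U ^ 2 < H)).card : ℝ) ≤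
        ∑ s ∈ Cube r (M * H), (((Finset.Icc (-(H : ℤ)) H).filter (fun x =>
          MvPolynomial.eval (s + x • u) U ^ 2 < H)).card : ℝ) := by
      exact_mod_cast key
    refine h9.trans ((Finset.sum_le_sum hper).trans (le_of_eq ?_))
    rw [Finset.sum_const, nsmul_eq_mul, card_Cube_real]
  have hfin : (2 * (H : ℝ) + 1) *
      (((Cube r H).filter (fun s => MvPolynomial.eval s U ^ 2 < H)).card : ℝ) ≤
      (2 * (H : ℝ) + 1) * ((M : ℝ) ^ r * (D * (D + 3)) * (2 * H + 1) ^ r / Real.sqrt H) := by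
    refine hsum.trans ?_
    have h10 : (2 * ((M * H : ℕ) : ℝ) + 1) ^ r * (D * (D + 3) * Real.sqrt H) ≤
        ((M : ℝ) ^ r * (2 * (H : ℝ) + 1) ^ r) * (D * (D + 3) * Real.sqrt H) :=
      mul_le_mul_of_nonneg_right (scale r M H hM) (by positivity)
    refine h10.trans ?_
    have h11 : Real.sqrt H ≤ (2 * (H : ℝ) + 1) / Real.sqrt H := by
      rw [le_div_iff₀ hS0, hSS]
      linarith
    calc ((M : ℝ) ^ r * (2 * (H : ℝ) + 1) ^ r) * (D * (D + 3) * Real.sqrt H) =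
          ((M : ℝ) ^ r * (2 * (H : ℝ) + 1) ^ r * (D * (D + 3))) * Real.sqrt H := by ring
      _ ≤ ((M : ℝ) ^ r * (2 * (H : ℝ) + 1) ^ r * (D * (D + 3))) *
          ((2 * (H : ℝ) + 1) / Real.sqrt H) :=
          mul_le_mul_of_nonneg_left h11 (by positivity)
      _ = _ := by ring
  exact le_of_mul_le_mul_left hfin hL

end Pool.Agent.FAM
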