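import Mathlib
import Pool.Agent.FAM.KDefs
import Pool.Agent.FAM.LargeG

set_option autoImplicit false

/-!
# Values of a norm form: a large prime factor
-/

namespace Pool.Agent.FamK

open Polynomial
open Pool.Agent.FAM (Cube)

open Classical in
/-- For almost all `s` the value `W(s)` has a large prime factor for which `Q` does not hold. -/
theorem large {r : ℕ} (W : MvPolynomial (Fin r) ℤ) (hW : 1 ≤ W.totalDegree)
    (Q : ℕ → (Fin r → ℤ) → Prop)
    (hQ : ∀ u : Fin r → ℤ, ∃ ρ : MvPolynomial (Fin r) ℤ, ρ ≠ 0 ∧ ∀ (p : ℕ) (s : Fin r → ℤ) (x : ℤ),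
      p.Prime → (p : ℤ) ∣ MvPolynomial.eval (s + x • u) W → MvPolynomial.eval (s + x • u) W ≠ 0 →
      Q p (s + x • u) → (p : ℤ) ∣ MvPolynomial.eval s ρ) :
    ∃ C c : ℝ, 0 < C ∧ 0 < c ∧ ∀ H y k : ℕ, 2 ≤ y → 1 ≤ k →
    y ^ k ≤ H → H < (y + 1) ^ k →
    (((Cube r H).filter (fun s => ¬ ∃ p : ℕ, p.Prime ∧ y < p ∧
      (p : ℤ) ∣ MvPolynomial.eval s W ∧ ¬ Q p s)).card : ℝ) ≤
      C * (Real.exp (-(c * k)) + k / y) * (2 * H + 1) ^ r := by
  obtain ⟨C₁, c, hC₁, hc, h1⟩ := FAM.large_gen W hW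
    (fun p s => Q p s ∧ MvPolynomial.eval s W ≠ 0) (fun u => by
      obtain ⟨ρ, hρ, h⟩ := hQ u
      exact ⟨ρ, hρ, fun p s x hp hd hq => h p s x hp hd hq.2 hq.1⟩)
  have hW0 : W ≠ 0 := by
    rintro rfl
    simp at hW
  obtain ⟨C₂, h2⟩ := FAM.zeros W hW0
  refine ⟨C₁ + C₂, c, by positivity, hc, fun H y k hy hk hyk hHk => ?_⟩
  have hyk1 : 1 ≤ y ^ k := Nat.one_le_pow _ _ (by omega)
  have hyH : y ≤ H := (Nat.le_self_pow (by omega) y).trans hyk
  have hL : (0 : ℝ) < 2 * (H : ℝ) + 1 := by positivity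
  have hsub : (Cube r H).filter (fun s => ¬ ∃ p : ℕ, p.Prime ∧ y < p ∧
      (p : ℤ) ∣ MvPolynomial.eval s W ∧ ¬ Q p s) ⊆
      (Cube r H).filter (fun s => ¬ ∃ p : ℕ, p.Prime ∧ y < p ∧
        (p : ℤ) ∣ MvPolynomial.eval s W ∧ ¬ (Q p s ∧ MvPolynomial.eval s W ≠ 0)) ∪
      (Cube r H).filter (fun s => MvPolynomial.eval s W = 0) := by
    intro s hs
    rw [Finset.mem_union, Finset.mem_filter, Finset.mem_filter]
    rw [Finset.mem_filter] at hs
    by_cases h0 : MvPolynomial.eval s W = 0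
    · exact Or.inr ⟨hs.1, h0⟩
    · refine Or.inl ⟨hs.1, ?_⟩
      rintro ⟨p, hp, hyp, hd, hn⟩
      exact hs.2 ⟨p, hp, hyp, hd, fun hq => hn ⟨hq, h0⟩⟩
  have h3 : (((Cube r H).filter (fun s => ¬ ∃ p : ℕ, p.Prime ∧ y < p ∧
      (p : ℤ) ∣ MvPolynomial.eval s W ∧ ¬ Q p s)).card : ℝ) ≤
      (((Cube r H).filter (fun s => ¬ ∃ p : ℕ, p.Prime ∧ y < p ∧
        (p : ℤ) ∣ MvPolynomial.eval s W ∧ ¬ (Q p s ∧ MvPolynomial.eval s W ≠ 0))).card : ℝ) +
      (((Cube r H).filter (fun s => MvPolynomial.eval s W = 0)).card : ℝ) := by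
    exact_mod_cast (Finset.card_le_card hsub).trans (Finset.card_union_le _ _)
  have h4 := h1 H y k hy hk hyk hHk
  have h5 : (((Cube r H).filter (fun s => MvPolynomial.eval s W = 0)).card : ℝ) ≤
      C₂ * (Real.exp (-(c * k)) + k / y) * (2 * (H : ℝ) + 1) ^ r := by
    have h6 : (2 * (H : ℝ) + 1) *
        (((Cube r H).filter (fun s => MvPolynomial.eval s W = 0)).card : ℝ) ≤
        C₂ * (2 * (H : ℝ) + 1) ^ r := by
      exact_mod_cast h2 H
    have h12 : 1 / (2 * (H : ℝ) + 1) ≤ Real.exp (-(c * k)) + k / y := by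
      have h13 : 1 / (2 * (H : ℝ) + 1) ≤ (k : ℝ) / y := by
        have hy0 : (0 : ℝ) < y := by
          have : (2 : ℝ) ≤ y := by exact_mod_cast hy
          linarith
        have hk1 : (1 : ℝ) ≤ k := by exact_mod_cast hk
        have hyH' : (y : ℝ) ≤ H := by exact_mod_cast hyH
        rw [div_le_div_iff₀ hL hy0]
        nlinarith
      have := (Real.exp_pos (-(c * (k : ℝ)))).le
      linarith
    calc (((Cube r H).filter (fun s => MvPolynomial.eval s W = 0)).card : ℝ) =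
          (2 * (H : ℝ) + 1) *
            (((Cube r H).filter (fun s => MvPolynomial.eval s W = 0)).card : ℝ) *
            (1 / (2 * (H : ℝ) + 1)) := by field_simp
      _ ≤ C₂ * (2 * (H : ℝ) + 1) ^ r * (1 / (2 * (H : ℝ) + 1)) :=
          mul_le_mul_of_nonneg_right h6 (by positivity)
      _ ≤ C₂ * (2 * (H : ℝ) + 1) ^ r * (Real.exp (-(c * k)) + k / y) :=
          mul_le_mul_of_nonneg_left h12 (by positivity)
      _ = _ := by ring
  calc _ ≤ _ := h3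
    _ ≤ C₁ * (Real.exp (-(c * k)) + k / y) * (2 * (H : ℝ) + 1) ^ r +
        C₂ * (Real.exp (-(c * k)) + k / y) * (2 * (H : ℝ) + 1) ^ r := add_le_add h4 h5
    _ = _ := by ring

end Pool.Agent.FamK
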