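import Mathlib

set_option autoImplicit false

/-!
# Prime divisors of the norm of an algebraic integer
-/

namespace Pool.Agent.FamK

open NumberField IsDedekindDomain

variable {K : Type} [Field K] [NumberField K]

theorem dvd_norm_iff (p : ℕ) (hp : p.Prime) (x : 𝓞 K) (hx : x ≠ 0) :
    (p : ℤ) ∣ Algebra.norm ℤ x ↔ ∃ v : HeightOneSpectrum (𝓞 K), (p : 𝓞 K) ∈ v.asIdeal ∧
      x ∈ v.asIdeal := by
  have habs : Ideal.absNorm (Ideal.span {x}) = (Algebra.norm ℤ x).natAbs :=
    Ideal.absNorm_span_singleton x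
  have hspan : Ideal.span {x} ≠ (⊥ : Ideal (𝓞 K)) := by
    rw [Ne, Ideal.span_singleton_eq_bot]
    exact hx
  rw [Int.natCast_dvd, ← habs]
  have hfact : Fact p.Prime := ⟨hp⟩
  constructor
  · intro h
    by_contra hno
    push Not at hno
    -- `(p)` and `(x)` are comaximal
    have htop : Ideal.span {(p : 𝓞 K)} ⊔ Ideal.span {x} = ⊤ := by
      by_contra hne
      obtain ⟨M, hM, hle⟩ := Ideal.exists_le_maximal _ hne
      have hxM : x ∈ M := hle (Ideal.mem_sup_right (Ideal.mem_span_singleton_self x))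
      have hpM : (p : 𝓞 K) ∈ M := hle (Ideal.mem_sup_left (Ideal.mem_span_singleton_self _))
      have hM0 : M ≠ ⊥ := by
        rintro rfl
        exact hx (by simpa using hxM)
      exact hno ⟨M, hM.isPrime, hM0⟩ hpM hxM
    have h1 : (1 : 𝓞 K) ∈ Ideal.span {(p : 𝓞 K)} ⊔ Ideal.span {x} := by
      rw [htop]
      exact Submodule.mem_top
    obtain ⟨y, hy, z, hz, hyz⟩ := Submodule.mem_sup.1 h1
    obtain ⟨a, rfl⟩ := Ideal.mem_span_singleton'.1 hy
    have : Finite (𝓞 K ⧸ Ideal.span {x}) := Ideal.finiteQuotientOfFreeOfNeBot _ hspan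
    have hcard : p ∣ Nat.card (𝓞 K ⧸ Ideal.span {x}) := by
      rwa [Ideal.absNorm_apply, Submodule.cardQuot_apply] at h
    obtain ⟨q, hq⟩ := exists_prime_addOrderOf_dvd_card' p hcard
    obtain ⟨y, rfl⟩ := Ideal.Quotient.mk_surjective q
    have h2 : p • (Ideal.Quotient.mk (Ideal.span {x}) y) = 0 := by
      rw [← hq]
      exact addOrderOf_nsmul_eq_zero _
    have h3 : (p : 𝓞 K) * y ∈ Ideal.span {x} := by
      rw [← Ideal.Quotient.eq_zero_iff_mem, map_mul, map_natCast, ← nsmul_eq_mul]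
      exact h2
    have h4 : y ∈ Ideal.span {x} := by
      have h5 : y = a * ((p : 𝓞 K) * y) + z * y := by
        calc y = (a * (p : 𝓞 K) + z) * y := by rw [hyz, one_mul]
          _ = _ := by ring
      rw [h5]
      exact Ideal.add_mem _ (Ideal.mul_mem_left _ _ h3) (Ideal.mul_mem_right _ _ hz)
    have h6 : Ideal.Quotient.mk (Ideal.span {x}) y = 0 := Ideal.Quotient.eq_zero_iff_mem.2 h4
    rw [h6, addOrderOf_zero] at hq
    exact hp.one_lt.ne hq
  · rintro ⟨v, hpv, hxv⟩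
    have h1 : Ideal.absNorm v.asIdeal ∣ Ideal.absNorm (Ideal.span {x}) :=
      Ideal.absNorm_dvd_absNorm_of_le ((Ideal.span_singleton_le_iff_mem _).2 hxv)
    refine dvd_trans ?_ h1
    have : Finite (𝓞 K ⧸ v.asIdeal) := Ideal.finiteQuotientOfFreeOfNeBot _ v.ne_bot
    have : Nontrivial (𝓞 K ⧸ v.asIdeal) := Ideal.Quotient.nontrivial_iff.2 v.isPrime.ne_top
    rw [Ideal.absNorm_apply, Submodule.cardQuot_apply]
    have h2 : addOrderOf (1 : 𝓞 K ⧸ v.asIdeal) = p := by
      refine addOrderOf_eq_prime ?_ one_ne_zero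
      rw [nsmul_eq_mul, mul_one, ← map_natCast (Ideal.Quotient.mk v.asIdeal)]
      exact Ideal.Quotient.eq_zero_iff_mem.2 hpv
    rw [← h2]
    exact addOrderOf_dvd_natCard _

end Pool.Agent.FamK
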