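import Mathlib
import Pool.Agent.FAM.KDefs
import Pool.Agent.FAM.KCop
import Pool.Agent.FAM.KNorm
import Pool.Agent.FAM.KNormD
import Pool.Agent.FAM.KLarge

set_option autoImplicit false

/-!
# A large prime below `V` and not below `U`, over a number field
-/

namespace Pool.Agent.FamK

open Polynomial NumberField IsDedekindDomain
open Pool.Agent.FAM (Cube)

variable {K : Type} [Field K] [NumberField K]

open Classical in
/-- A prime `v` above a large prime number, with `V(s) ∈ v` and `U(s) ∉ v`. -/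
theorem large_prime {r : ℕ} (U V : MvPolynomial (Fin r) (𝓞 K))
    (h : IsRelPrime (MvPolynomial.map (algebraMap (𝓞 K) K) U)
      (MvPolynomial.map (algebraMap (𝓞 K) K) V)) (hV : 1 ≤ V.totalDegree) :
    ∃ C c : ℝ, 0 < C ∧ 0 < c ∧ ∀ H y k : ℕ, 2 ≤ y → 1 ≤ k → y ^ k ≤ H → H < (y + 1) ^ k →
    (((Cube r H).filter (fun s => ev s V ≠ 0 ∧ ¬ ∃ (p : ℕ) (v : HeightOneSpectrum (𝓞 K)),
      p.Prime ∧ y < p ∧ (p : 𝓞 K) ∈ v.asIdeal ∧ ev s V ∈ v.asIdeal ∧
      ev s U ∉ v.asIdeal)).card : ℝ) ≤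
      C * (Real.exp (-(c * k)) + k / y) * (2 * H + 1) ^ r := by
  obtain ⟨W, hW, _, hWd⟩ := norm_poly V
  let Q : ℕ → (Fin r → ℤ) → Prop := fun p s => ∀ v : HeightOneSpectrum (𝓞 K),
    (p : 𝓞 K) ∈ v.asIdeal → ev s V ∈ v.asIdeal → ev s U ∈ v.asIdeal
  obtain ⟨C₁, c, hC, hc, hL⟩ := large W (hWd hV) Q (fun u => by
    obtain ⟨ρ', a, b, hρ', hab⟩ := cop U V h u
    obtain ⟨ρ, hρ, hρ0, _⟩ := norm_poly ρ'
    refine ⟨ρ, hρ0 hρ', fun p s x hp hdvd hne hQ => ?_⟩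
    rw [hW] at hdvd hne
    have hVne : ev (s + x • u) V ≠ 0 := by
      intro h0
      rw [h0] at hne
      exact hne Algebra.norm_zero
    obtain ⟨v, hpv, hVv⟩ := (dvd_norm_iff p hp _ hVne).1 hdvd
    have hUv := hQ v hpv hVv
    have hev : ((a.map (ev s)).eval ((x : ℤ) : 𝓞 K)) * ev (s + x • u) U +
        ((b.map (ev s)).eval ((x : ℤ) : 𝓞 K)) * ev (s + x • u) V = ev s ρ' := by
      have h1 := congrArg (fun P => (P.map (ev s)).eval ((x : ℤ) : 𝓞 K)) hab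
      simp only [Polynomial.map_add, Polynomial.map_mul, eval_add, eval_mul, eval_shift, map_C,
        eval_C] at h1
      exact h1
    have hmem : ev s ρ' ∈ v.asIdeal := by
      rw [← hev]
      exact v.asIdeal.add_mem (v.asIdeal.mul_mem_left _ hUv) (v.asIdeal.mul_mem_left _ hVv)
    rw [hρ]
    by_cases h0 : ev s ρ' = 0
    · rw [h0, Algebra.norm_zero]
      exact dvd_zero _
    · exact (dvd_norm_iff p hp _ h0).2 ⟨v, hpv, hmem⟩)
  refine ⟨C₁, c, hC, hc, fun H y k hy hk hyk hH => le_trans ?_ (hL H y k hy hk hyk hH)⟩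
  rw [Nat.cast_le]
  refine Finset.card_le_card fun s hs => ?_
  rw [Finset.mem_filter] at hs ⊢
  refine ⟨hs.1, ?_⟩
  rintro ⟨p, hp, hyp, hdvd, hQ⟩
  refine hs.2.2 ?_
  have h1 : ∃ v : HeightOneSpectrum (𝓞 K), (p : 𝓞 K) ∈ v.asIdeal ∧ ev s V ∈ v.asIdeal ∧
      ev s U ∉ v.asIdeal := by
    by_contra hcon
    refine hQ fun v h1 h2 => ?_
    by_contra h3
    exact hcon ⟨v, h1, h2, h3⟩
  obtain ⟨v, h2, h3, h4⟩ := h1
  exact ⟨p, v, hp, hyp, h2, h3, h4⟩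

end Pool.Agent.FamK
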