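import Mathlib
import Pool.Agent.FAM.KDefs
import Pool.Agent.RDF.NDefs
import Pool.Agent.RDF.Basic

set_option autoImplicit false

/-!
# From number fields to the algebraic closure of a number field `K`
-/

namespace Pool.Agent.FamK

open Polynomial NumberField IsDedekindDomain
open Pool.Agent.RDF (lift wedge)

namespace KConv

/-- The wedge of two iterates over a larger field. -/
theorem wedge_iter {A R S : Type*} [CommRing A] [CommRing R] [CommRing S] (g : A →+* R)
    (f : R →+* S) (d a b : ℕ) (F G : A[X]) (q : R × R) :
    f (wedge ((lift d (F.map g) (G.map g))^[a] q) ((lift d (F.map g) (G.map g))^[b] q)) =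
    wedge ((lift d (F.map (f.comp g)) (G.map (f.comp g)))^[a] (Prod.map f f q))
      ((lift d (F.map (f.comp g)) (G.map (f.comp g)))^[b] (Prod.map f f q)) := by
  rw [RDF.wedge_map, RDF.iter_map, RDF.iter_map, Polynomial.map_map, Polynomial.map_map]

end KConv

/-- Bounds over all number fields give bounds over the algebraic closure of `K`. -/
theorem conv {K : Type} [Field K] [NumberField K] (N d : ℕ) (F G : (𝓞 K)[X]) (B : ℝ)
    (h : ∀ (L : Type) [Field L] [NumberField L] [Algebra K L], ∀ X : Finset (L × L),
      (∀ p ∈ X, Pool.Agent.RDF.DegLe K N p ∧ p ≠ 0 ∧ ∃ a b : ℕ, a < b ∧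
        wedge ((lift d (F.map (algebraMap (𝓞 K) L)) (G.map (algebraMap (𝓞 K) L)))^[a] p)
          ((lift d (F.map (algebraMap (𝓞 K) L)) (G.map (algebraMap (𝓞 K) L)))^[b] p) = 0) →
      (∀ p ∈ X, ∀ q ∈ X, p ≠ q → wedge p q ≠ 0) →
      (X.card : ℝ) ≤ B) :
    (Pts N d F G).Finite ∧ ((Pts N d F G).ncard : ℝ) ≤ B := by
  classical
  -- the bound for finite subsets
  have key : ∀ T : Finset (AlgebraicClosure K × AlgebraicClosure K), (T : Set _) ⊆ Pts N d F G →
      (T.card : ℝ) ≤ B := by
    intro T hT
    set L : IntermediateField K (AlgebraicClosure K) :=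
      IntermediateField.adjoin K ((T.image Prod.fst : Finset _) : Set (AlgebraicClosure K)) with hL
    have hfd : FiniteDimensional K L := by
      refine IntermediateField.finiteDimensional_adjoin fun x _ => ?_
      exact ((AlgebraicClosure.isAlgebraic K).isAlgebraic x).isIntegral
    have hchar : CharZero L := charZero_of_injective_algebraMap (algebraMap K L).injective
    have hfd2 : FiniteDimensional ℚ L := FiniteDimensional.trans ℚ K L
    have hnf : NumberField L := ⟨⟩
    have h1 : ∀ p ∈ T, p.1 ∈ L := fun p hp =>
      IntermediateField.subset_adjoin K _ (Finset.mem_coe.2 (Finset.mem_image_of_mem _ hp))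
    have h2 : ∀ p ∈ T, p.2 ∈ L := by
      intro p hp
      rcases (hT hp).1 with h3 | h3
      · rw [h3]
        exact one_mem L
      · rw [h3]
        exact zero_mem L
    set ι : {p // p ∈ T} → L × L := fun p => (⟨p.1.1, h1 p p.2⟩, ⟨p.1.2, h2 p p.2⟩) with hι
    have hmap : ∀ p : {p // p ∈ T},
        Prod.map (algebraMap L (AlgebraicClosure K)) (algebraMap L (AlgebraicClosure K)) (ι p) =
          p.1 := fun p => rfl
    have hinj : Function.Injective ι := by
      intro x y h3
      refine Subtype.ext ?_
      rw [← hmap x, ← hmap y, h3]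
    have hcomp : (algebraMap L (AlgebraicClosure K)).comp (algebraMap (𝓞 K) L) =
        algebraMap (𝓞 K) (AlgebraicClosure K) := by
      refine RingHom.ext fun a => ?_
      rfl
    have hcard := h L (T.attach.image ι)
    rw [Finset.card_image_of_injective _ hinj, Finset.card_attach] at hcard
    refine hcard ?_ ?_
    · intro q hq
      obtain ⟨p, -, rfl⟩ := Finset.mem_image.1 hq
      obtain ⟨hp1, hpN, a, b, hab, hw⟩ := hT p.2
      refine ⟨⟨IntermediateField.adjoin K {(ι p).1}, ?_,
        IntermediateField.mem_adjoin_simple_self K (ι p).1, ?_⟩, ?_, a, b, hab, ?_⟩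
      · have hint : IsIntegral K (ι p).1 := Algebra.IsIntegral.isIntegral _
        rw [IntermediateField.adjoin.finrank hint]
        have h3 : minpoly K (algebraMap L (AlgebraicClosure K) (ι p).1) = minpoly K (ι p).1 :=
          minpoly.algebraMap_eq (algebraMap L (AlgebraicClosure K)).injective (ι p).1
        rw [← h3]
        exact hpN
      · rcases hp1 with h3 | h3
        · have h4 : (ι p).2 = 1 := Subtype.ext h3
          rw [h4]
          exact one_mem _
        · have h4 : (ι p).2 = 0 := Subtype.ext (by rw [hι]; simp only; rw [h3]; rfl)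
          rw [h4]
          exact zero_mem _
      · intro h3
        have h4 := hmap p
        rw [h3] at h4
        have h5 : p.1 = 0 := by
          rw [← h4]
          exact Prod.ext (map_zero _) (map_zero _)
        rcases hp1 with h6 | h6
        · rw [h5] at h6
          exact one_ne_zero h6.symm
        · rw [h5] at h6
          exact one_ne_zero (congrArg Prod.fst h6).symm
      · refine (algebraMap L (AlgebraicClosure K)).injective ?_
        rw [KConv.wedge_iter, map_zero, hmap, hcomp]
        exact hw
    · intro q hq q' hq' hne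
      obtain ⟨p, -, rfl⟩ := Finset.mem_image.1 hq
      obtain ⟨p', -, rfl⟩ := Finset.mem_image.1 hq'
      intro h3
      apply hne
      have h4 := congrArg (algebraMap L (AlgebraicClosure K)) h3
      rw [RDF.wedge_map, hmap, hmap, map_zero, RDF.wedge] at h4
      have h5 : p = p' := by
        refine Subtype.ext ?_
        rcases (hT p.2).1 with h6 | h6 <;> rcases (hT p'.2).1 with h7 | h7
        · rw [h6, h7, mul_one, mul_one, sub_eq_zero] at h4
          exact Prod.ext h4 (h6.trans h7.symm)
        · rw [h6, h7] at h4
          simp at h4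
        · rw [h6, h7] at h4
          simp at h4
        · rw [h6, h7]
      rw [h5]
  -- finiteness
  have hfin : (Pts N d F G).Finite := by
    by_contra hinf
    obtain ⟨T, hT1, hT2⟩ := (show (Pts N d F G).Infinite from hinf).exists_subset_card_eq
      (⌊B⌋₊ + 1)
    have h3 := key T hT1
    rw [hT2] at h3
    push_cast at h3
    exact absurd (Nat.lt_floor_add_one B) (not_lt.2 h3)
  refine ⟨hfin, ?_⟩
  rw [Set.ncard_eq_toFinset_card _ hfin]
  exact key _ (by rw [Set.Finite.coe_toFinset])

end Pool.Agent.FamK
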