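import Mathlib
import Pool.Agent.FAM.KDefs
import Pool.Agent.FAM.KConv
import Pool.Agent.AVR.Glue

set_option autoImplicit false

/-!
# The bounds of Theorem S over a number field
-/

namespace Pool.Agent.FamK

open Polynomial NumberField IsDedekindDomain Pool.Agent.GPoly
open Pool.Agent.RI (resSet lamC lamV)
open Pool.Agent.RDF (lift wedge)

/-- The numbers `l` below the minimal resultant at `v`. -/
def LamV {K : Type} [Field K] [NumberField K] (d : ℕ) (F G : (𝓞 K)[X])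
    (v : HeightOneSpectrum (𝓞 K)) (l : ℝ) : Prop :=
  ∀ (E : Type) [NormedField E] [IsAlgClosed E] [IsUltrametricDist E] (φ : K →+* E),
    (∀ x : K, ‖φ x‖ = Pool.Agent.GPoly.av v x) →
    ∀ r ∈ resSet d (F.map (φ.comp (algebraMap (𝓞 K) K))) (G.map (φ.comp (algebraMap (𝓞 K) K))),
      l ≤ r

/-- The numbers `l` below the minimal resultant at `σ`. -/
def LamS {K : Type} [Field K] [NumberField K] (d : ℕ) (F G : (𝓞 K)[X]) (σ : K →+* ℂ) (l : ℝ) :
    Prop :=
  ∀ r ∈ resSet d (F.map (σ.comp (algebraMap (𝓞 K) K))) (G.map (σ.comp (algebraMap (𝓞 K) K))),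
    l ≤ r

namespace KGlue

section

variable {K : Type} [Field K] [NumberField K]

theorem le_lamV (d : ℕ) (F G : (𝓞 K)[X]) (hF : F.natDegree ≤ d) (hG : G.natDegree ≤ d)
    (v : HeightOneSpectrum (𝓞 K)) (l : ℝ) (hl : LamV d F G v l) : l ≤ lamV d F G v := by
  refine RI.le_lamV d F G hF hG v l ?_
  intro E _ _ _ _ hE r hr
  exact hl E (algebraMap K E) hE r hr

theorem le_lamC (d : ℕ) (hd : 2 ≤ d) (F G : (𝓞 K)[X]) (hF : F.natDegree ≤ d)
    (hG : G.natDegree ≤ d) (σ : K →+* ℂ) (l : ℝ) (hl : LamS d F G σ l) :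
    l ≤ lamC d (F.map (σ.comp (algebraMap (𝓞 K) K))) (G.map (σ.comp (algebraMap (𝓞 K) K))) := by
  refine le_trans ?_ (le_max_right _ _)
  refine le_csInf ?_ hl
  refine AVR.Glue.nonempty d hd _ _ (natDegree_map_le.trans hF) (natDegree_map_le.trans hG) ?_
  intro B
  refine ⟨((|B| : ℝ) : ℂ), ?_⟩
  rw [Complex.norm_real, Real.norm_eq_abs, abs_abs]
  exact le_abs_self B

theorem log_absNorm (x : 𝓞 K) :
    Real.log (Ideal.absNorm (Ideal.span {x})) = Real.log |((Algebra.norm ℤ x : ℤ) : ℝ)| := by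
  rw [Ideal.absNorm_span_singleton, Nat.cast_natAbs]
  norm_cast

/-- The sum of the minimal resultants at the primes. -/
theorem sum_le (d : ℕ) (F G : (𝓞 K)[X]) (hF : F.natDegree ≤ d) (hG : G.natDegree ≤ d)
    (hR : resultant F G d d ≠ 0) (S : Finset (HeightOneSpectrum (𝓞 K))) :
    ∑ᶠ (v : HeightOneSpectrum (𝓞 K)) (_ : v ∉ S ∧ ¬ v.asIdeal ∣ (⊤ : Ideal (𝓞 K))),
      lamV d F G v ≤ Real.log |((Algebra.norm ℤ (resultant F G d d) : ℤ) : ℝ)| := by
  classical
  have hfin := RI.SAll.lamV_support d F G hF hG hR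
  have hfin2 : {v : HeightOneSpectrum (𝓞 K) | resultant F G d d ∈ v.asIdeal}.Finite := by
    have h1 := av_support_finite (algebraMap (𝓞 K) K (resultant F G d d))
      ((map_ne_zero_iff _ (RingOfIntegers.coe_injective)).mpr hR)
    refine h1.subset fun v hv => ?_
    exact ((av_int_lt_one v _).2 hv).ne
  set P : Finset (HeightOneSpectrum (𝓞 K)) := hfin.toFinset ∪ hfin2.toFinset with hP
  have hsum := sum_log_av_int (resultant F G d d) hR P fun v hv =>
    Finset.mem_union_right _ ((Set.Finite.mem_toFinset hfin2).2 hv)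
  rw [RI.SAll.finsum_filter _ P fun v hv =>
    Finset.mem_union_left _ ((Set.Finite.mem_toFinset hfin).2 hv), ← log_absNorm, ← hsum]
  refine (Finset.sum_le_sum_of_subset_of_nonneg (Finset.filter_subset _ _)
    fun v _ _ => RI.lamV_nonneg d _ _ v).trans ?_
  exact Finset.sum_le_sum fun v _ => RI.lamV_le d F G hF hG v

/-- A rational prime below `v`. -/
theorem exists_prime (v : HeightOneSpectrum (𝓞 K)) : ∃ p : ℕ, p.Prime ∧ (p : 𝓞 K) ∈ v.asIdeal := by
  classical
  have hex : ∃ n : ℕ, 0 < n ∧ (n : 𝓞 K) ∈ v.asIdeal := by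
    refine ⟨Ideal.absNorm v.asIdeal, ?_, Ideal.absNorm_mem _⟩
    rw [Nat.pos_iff_ne_zero, Ne, Ideal.absNorm_eq_zero_iff]
    exact v.ne_bot
  set p := Nat.find hex with hp
  have hp1 := Nat.find_spec hex
  have hmin : ∀ m : ℕ, m < p → ¬ (0 < m ∧ (m : 𝓞 K) ∈ v.asIdeal) := fun m hm =>
    Nat.find_min hex hm
  have hne1 : p ≠ 1 := by
    intro h
    have h2 := hp1.2
    rw [← hp, h, Nat.cast_one] at h2
    exact v.isPrime.ne_top ((Ideal.eq_top_iff_one _).2 h2)
  refine ⟨p, ?_, hp1.2⟩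
  rw [Nat.prime_def_lt]
  refine ⟨by have := hp1.1; omega, fun m hm hdvd => ?_⟩
  obtain ⟨e, he⟩ := hdvd
  have hp0 : 0 < p := hp1.1
  have hm0 : 0 < m := by
    rcases Nat.eq_zero_or_pos m with h | h
    · rw [h, zero_mul] at he
      omega
    · exact h
  have he0 : 0 < e := by
    rcases Nat.eq_zero_or_pos e with h | h
    · rw [h, mul_zero] at he
      omega
    · exact h
  have hmem : ((m : ℕ) : 𝓞 K) * ((e : ℕ) : 𝓞 K) ∈ v.asIdeal := by
    rw [← Nat.cast_mul, ← he]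
    exact hp1.2
  rcases v.isPrime.mem_or_mem hmem with h | h
  · exact absurd ⟨hm0, h⟩ (hmin m hm)
  · by_contra hm1
    have h2 : 2 ≤ m := by omega
    have h3 : e < p := by nlinarith
    exact hmin e h3 ⟨he0, h⟩

/-- The prime `p` divides the norms of the primes above `p`. -/
theorem dvd_absNorm (v : HeightOneSpectrum (𝓞 K)) (p : ℕ) (hp : p.Prime)
    (hv : (p : 𝓞 K) ∈ v.asIdeal) : p ∣ Ideal.absNorm v.asIdeal := by
  by_contra h
  have h1 : Nat.Coprime p (Ideal.absNorm v.asIdeal) := (Nat.Prime.coprime_iff_not_dvd hp).2 h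
  have h2 : IsCoprime ((p : ℕ) : ℤ) ((Ideal.absNorm v.asIdeal : ℕ) : ℤ) :=
    Nat.isCoprime_iff_coprime.2 h1
  obtain ⟨a, b, hab⟩ := h2
  have h3 : (1 : 𝓞 K) ∈ v.asIdeal := by
    have h4 := congrArg (fun z : ℤ => (z : 𝓞 K)) hab
    simp only [Int.cast_add, Int.cast_mul, Int.cast_natCast, Int.cast_one] at h4
    rw [← h4]
    exact Ideal.add_mem _ (Ideal.mul_mem_left _ _ hv)
      (Ideal.mul_mem_left _ _ (Ideal.absNorm_mem _))
  exact v.isPrime.ne_top ((Ideal.eq_top_iff_one _).2 h3)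

/-- There are at most `[K : ℚ]` primes above `p`. -/
theorem card_fiber (p : ℕ) (hp : p.Prime) (T : Finset (HeightOneSpectrum (𝓞 K)))
    (hT : ∀ v ∈ T, (p : 𝓞 K) ∈ v.asIdeal) : T.card ≤ Module.finrank ℚ K := by
  classical
  have hdvd : ∏ v ∈ T, v.asIdeal ∣ Ideal.span {((p : ℕ) : 𝓞 K)} := by
    have hinj : Set.InjOn (fun v : HeightOneSpectrum (𝓞 K) => v.asIdeal)
        (T : Set (HeightOneSpectrum (𝓞 K))) := fun v _ w _ h => HeightOneSpectrum.ext h
    have h1 := Finset.prod_image (f := fun I : Ideal (𝓞 K) => I) hinj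
    rw [← h1]
    refine Finset.prod_primes_dvd _ ?_ ?_
    · intro I hI
      obtain ⟨v, -, rfl⟩ := Finset.mem_image.1 hI
      exact v.prime
    · intro I hI
      obtain ⟨v, hv, rfl⟩ := Finset.mem_image.1 hI
      rw [Ideal.dvd_span_singleton]
      exact hT v hv
  have h1 : ∏ v ∈ T, Ideal.absNorm v.asIdeal ∣ p ^ Module.finrank ℚ K := by
    rw [← map_prod, ← RI.SUni.absNorm_natCast (K := K) p]
    exact map_dvd _ hdvd
  have h2 : p ^ T.card ≤ ∏ v ∈ T, Ideal.absNorm v.asIdeal := by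
    refine Finset.pow_card_le_prod _ _ _ fun v hv => ?_
    refine Nat.le_of_dvd ?_ (dvd_absNorm v p hp (hT v hv))
    rw [Nat.pos_iff_ne_zero, Ne, Ideal.absNorm_eq_zero_iff]
    exact v.ne_bot
  have h3 : p ^ T.card ≤ p ^ Module.finrank ℚ K :=
    h2.trans (Nat.le_of_dvd (pow_pos hp.pos _) h1)
  exact (Nat.pow_le_pow_iff_right hp.one_lt).1 h3

/-- The primes which divide a nonzero integer. -/
theorem exists_primes (x : 𝓞 K) (hx : x ≠ 0) : ∃ B : Finset (HeightOneSpectrum (𝓞 K)),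
    B.card ≤ Module.finrank ℚ K * (Algebra.norm ℤ x).natAbs.primeFactors.card ∧
      ∀ v : HeightOneSpectrum (𝓞 K), x ∈ v.asIdeal → v ∈ B := by
  classical
  have hfin : {v : HeightOneSpectrum (𝓞 K) | x ∈ v.asIdeal}.Finite := by
    have h1 := av_support_finite (algebraMap (𝓞 K) K x)
      ((map_ne_zero_iff _ (RingOfIntegers.coe_injective)).mpr hx)
    refine h1.subset fun v hv => ?_
    exact ((av_int_lt_one v _).2 hv).ne
  choose p hp hpv using fun v : HeightOneSpectrum (𝓞 K) => exists_prime v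
  refine ⟨hfin.toFinset, ?_, fun v hv => (Set.Finite.mem_toFinset hfin).2 hv⟩
  have hmaps : ∀ v ∈ hfin.toFinset, p v ∈ (Algebra.norm ℤ x).natAbs.primeFactors := by
    intro v hv
    have hxv : x ∈ v.asIdeal := (Set.Finite.mem_toFinset hfin).1 hv
    rw [Nat.mem_primeFactors]
    refine ⟨hp v, ?_, ?_⟩
    · refine (dvd_absNorm v (p v) (hp v) (hpv v)).trans ?_
      rw [← Ideal.absNorm_span_singleton]
      exact map_dvd _ (Ideal.dvd_span_singleton.2 hxv)
    · rw [Int.natAbs_ne_zero]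
      exact Algebra.norm_ne_zero_iff.2 hx
  have h1 := Finset.card_le_mul_card_image_of_maps_to (f := p) (s := hfin.toFinset)
    (t := (Algebra.norm ℤ x).natAbs.primeFactors) hmaps (Module.finrank ℚ K) (fun q hq => by
      refine card_fiber q (Nat.prime_of_mem_primeFactors hq) _ fun v hv => ?_
      rw [Finset.mem_filter] at hv
      rw [← hv.2]
      exact hpv v)
  exact h1

end

end KGlue

open KGlue

/-- The function `x log (x + 1)` at `x = m k`. -/
theorem KGlue.log_mul_bound (m : ℝ) (hm : 1 ≤ m) : ∃ C : ℝ, 0 ≤ C ∧ ∀ x k : ℝ, 1 ≤ k → 0 ≤ x →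
    x ≤ m * k → x * Real.log (x + 1) ≤ C * (k * Real.log (k + 1)) := by
  have hl2 : 0 < Real.log 2 := Real.log_pos (by norm_num)
  have hlm : 0 ≤ Real.log m := Real.log_nonneg hm
  refine ⟨m * (1 + Real.log m / Real.log 2), by positivity, fun x k hk hx hxk => ?_⟩
  have hlk : Real.log 2 ≤ Real.log (k + 1) := Real.log_le_log (by norm_num) (by linarith)
  have h1 : Real.log (x + 1) ≤ Real.log m + Real.log (k + 1) := by
    rw [← Real.log_mul (by linarith) (by linarith)]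
    refine Real.log_le_log (by linarith) ?_
    nlinarith
  have h2 : Real.log m ≤ Real.log m / Real.log 2 * Real.log (k + 1) := by
    rw [div_mul_eq_mul_div, le_div_iff₀ hl2]
    exact mul_le_mul_of_nonneg_left hlk hlm
  have h3 : Real.log (x + 1) ≤ (1 + Real.log m / Real.log 2) * Real.log (k + 1) := by
    linarith
  calc x * Real.log (x + 1) ≤ (m * k) * ((1 + Real.log m / Real.log 2) * Real.log (k + 1)) :=
        mul_le_mul hxk h3 (Real.log_nonneg (by linarith)) (by positivity)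
    _ = m * (1 + Real.log m / Real.log 2) * (k * Real.log (k + 1)) := by ring

/-- KGlue -/
theorem glue (K : Type) [Field K] [NumberField K] (N d : ℕ) (hd : 2 ≤ d) : ∃ C : ℝ, 0 ≤ C ∧
    ∀ F G : (𝓞 K)[X], F.natDegree ≤ d → G.natDegree ≤ d → resultant F G d d ≠ 0 →
    ∀ k : ℕ, 1 ≤ k →
    ((∃ (v : HeightOneSpectrum (𝓞 K)) (l : ℝ), LamV d F G v l ∧
        Real.log |((Algebra.norm ℤ (resultant F G d d) : ℤ) : ℝ)| ≤ k * (1 + l)) ∨
      (∃ (σ : K →+* ℂ) (l : ℝ), LamS d F G σ l ∧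
        Real.log |((Algebra.norm ℤ (resultant F G d d) : ℤ) : ℝ)| ≤ k * (1 + l)) ∨
      Real.log |((Algebra.norm ℤ (resultant F G d d) : ℤ) : ℝ)| ≤ k) →
    (Pts N d F G).Finite ∧ ((Pts N d F G).ncard : ℝ) ≤ C * (k * Real.log (k + 1)) := by
  classical
  obtain ⟨C₀, hC₀, hmain⟩ := RI.main_T_all N d 0 hd
  have hn0 : (0 : ℝ) ≤ Module.finrank ℚ K := Nat.cast_nonneg _
  obtain ⟨C₁, hC₁, hlog⟩ := KGlue.log_mul_bound (1 + Module.finrank ℚ K) (by linarith)
  refine ⟨C₀ * C₁, by positivity, ?_⟩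
  intro F G hF hG hR k hk hyp
  have hk1 : (1 : ℝ) ≤ k := by exact_mod_cast hk
  have hV : ∀ v : HeightOneSpectrum (𝓞 K), 0 ≤ lamV d F G v := fun v => RI.lamV_nonneg d _ _ v
  have hCn : ∀ σ : K →+* ℂ, 0 ≤ lamC d (F.map (σ.comp (algebraMap (𝓞 K) K)))
      (G.map (σ.comp (algebraMap (𝓞 K) K))) := fun σ => le_max_left _ _
  have hCs : 0 ≤ ∑ σ : K →+* ℂ, lamC d (F.map (σ.comp (algebraMap (𝓞 K) K)))
      (G.map (σ.comp (algebraMap (𝓞 K) K))) := Finset.sum_nonneg fun σ _ => hCn σ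
  have hone : Real.log (Ideal.absNorm (⊤ : Ideal (𝓞 K))) = 0 := by
    rw [Ideal.absNorm_top, Nat.cast_one, Real.log_one]
  obtain ⟨S, hS, hsum⟩ : ∃ S : Finset (HeightOneSpectrum (𝓞 K)), S.card ≤ 1 ∧
      Real.log |((Algebra.norm ℤ (resultant F G d d) : ℤ) : ℝ)| ≤
        k * (1 + ∑ v ∈ S, lamV d F G v +
        ∑ σ : K →+* ℂ, lamC d (F.map (σ.comp (algebraMap (𝓞 K) K)))
          (G.map (σ.comp (algebraMap (𝓞 K) K))) +
        Real.log (Ideal.absNorm (⊤ : Ideal (𝓞 K)))) := by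
    rcases hyp with ⟨v, l, hl, h⟩ | ⟨σ₀, l, hl, h⟩ | h
    · refine ⟨{v}, by simp, h.trans (mul_le_mul_of_nonneg_left ?_ (by linarith))⟩
      rw [Finset.sum_singleton, hone]
      have h1 := le_lamV d F G hF hG v l hl
      linarith
    · refine ⟨∅, by simp, h.trans (mul_le_mul_of_nonneg_left ?_ (by linarith))⟩
      rw [Finset.sum_empty, hone]
      have h1 := le_lamC d hd F G hF hG σ₀ l hl
      have h2 := Finset.single_le_sum (f := fun σ : K →+* ℂ =>
        lamC d (F.map (σ.comp (algebraMap (𝓞 K) K))) (G.map (σ.comp (algebraMap (𝓞 K) K))))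
        (fun σ _ => hCn σ) (Finset.mem_univ σ₀)
      linarith
    · refine ⟨∅, by simp, h.trans ?_⟩
      rw [Finset.sum_empty, hone]
      nlinarith
  refine conv N d F G _ fun L _ _ _ X hX hXw => ?_
  have h1 := hmain K F G hF hG hR k hk ⊤
    (by rw [← Ideal.one_eq_top]; exact one_dvd _)
    (fun v hv => absurd (Ideal.dvd_iff_le.1 hv) (by
      rw [top_le_iff]
      exact v.isPrime.ne_top)) S ((KGlue.sum_le d F G hF hG hR S).trans hsum) L X hX hXw
  refine h1.trans ?_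
  have hS' : (S.card : ℝ) ≤ 1 := by exact_mod_cast hS
  have hS0 : (0 : ℝ) ≤ S.card := Nat.cast_nonneg _
  have h2 : (k : ℝ) * (S.card + Module.finrank ℚ K) ≤ (1 + Module.finrank ℚ K) * k := by nlinarith
  have h3 := hlog (k * (S.card + Module.finrank ℚ K)) k hk1 (by positivity) h2
  refine (mul_le_mul_of_nonneg_left h3 hC₀).trans (le_of_eq ?_)
  ring

theorem glue_all (K : Type) [Field K] [NumberField K] (N d : ℕ) (hd : 2 ≤ d) :
    ∃ C : ℝ, 0 ≤ C ∧ ∀ F G : (𝓞 K)[X], F.natDegree ≤ d → G.natDegree ≤ d →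
    resultant F G d d ≠ 0 → (Pts N d F G).Finite ∧ ((Pts N d F G).ncard : ℝ) ≤
      C * (1 + Real.log |((Algebra.norm ℤ (resultant F G d d) : ℤ) : ℝ)|) := by
  classical
  obtain ⟨C₀, hC₀, hmain⟩ := RI.main_slogsT N d 0 hd
  have hn1 : (1 : ℝ) ≤ Module.finrank ℚ K := by
    exact_mod_cast (Module.finrank_pos : 0 < Module.finrank ℚ K)
  obtain ⟨C₁, hC₁, hlog⟩ := KGlue.log_mul_bound (Module.finrank ℚ K) hn1
  refine ⟨C₀ * (C₁ * 9), by positivity, ?_⟩
  intro F G hF hG hR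
  obtain ⟨B, hB1, hB2⟩ := exists_primes _ hR
  refine conv N d F G _ fun L _ _ _ X hX hXw => ?_
  have h1 := hmain K F G hF hG hR B ?_ L X hX hXw
  · refine h1.trans ?_
    set n := (Algebra.norm ℤ (resultant F G d d)).natAbs with hn
    have hn0 : n ≠ 0 := Int.natAbs_ne_zero.2 (Algebra.norm_ne_zero_iff.2 hR)
    have h2 := RI.Avg.omega_bound n hn0
    have h3 : Real.log n = Real.log |((Algebra.norm ℤ (resultant F G d d) : ℤ) : ℝ)| := by
      rw [hn, Nat.cast_natAbs]
      norm_cast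
    rw [h3] at h2
    have h5 : (B.card : ℝ) ≤ Module.finrank ℚ K * n.primeFactors.card := by exact_mod_cast hB1
    have h6 : (0 : ℝ) ≤ B.card := Nat.cast_nonneg _
    have h7 : (0 : ℝ) ≤ n.primeFactors.card := Nat.cast_nonneg _
    have h4 := hlog (B.card + Module.finrank ℚ K) (n.primeFactors.card + 1) (by linarith)
      (by linarith) (by nlinarith)
    have h8 : ((n.primeFactors.card : ℝ) + 1 + 1) = n.primeFactors.card + 2 := by ring
    rw [h8] at h4
    calc C₀ * (((B.card : ℝ) + Module.finrank ℚ K) * Real.log (B.card + Module.finrank ℚ K + 1))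
        ≤ C₀ * (C₁ * (9 * (1 + Real.log |((Algebra.norm ℤ (resultant F G d d) : ℤ) : ℝ)|))) :=
          mul_le_mul_of_nonneg_left (h4.trans (mul_le_mul_of_nonneg_left h2 hC₁)) hC₀
      _ = _ := by ring
  · intro v hv
    left
    have hnot : resultant F G d d ∉ v.asIdeal := fun h => hv (hB2 v h)
    refine ⟨K, inferInstance, inferInstance, Algebra.id K, 1, 1, F, G, ?_, one_ne_zero, hF,
      hG, ?_, ?_⟩
    · rw [Matrix.det_one]
      exact one_ne_zero
    · intro p
      rw [RI.act_one, RI.act_one, one_smul]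
    · intro w hw h
      have hvw : v = w := by
        refine HeightOneSpectrum.ext ?_
        refine (v.isMaximal).eq_of_le w.isPrime.ne_top fun a ha => ?_
        exact hw a ha
      rw [← hvw] at h
      exact hnot h

end Pool.Agent.FamK
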