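import Mathlib
import Pool.Agent.RI.SGenE
import Pool.Agent.RDF.Lip
import Pool.Agent.RDF.FibRes

set_option autoImplicit false

/-!
# Multipliers and the resultant of a conjugate

The multiplier of a fixed point of `F / G` is at most a constant times `|R(Φ')|⁻²` for every
conjugate `Φ'` with coefficients of norm at most one.
-/

namespace Pool.Agent.FAM

open Polynomial Pool.Agent.RDF

namespace M

variable {L : Type*} [Field L]

theorem pow_sub_pow_le (abv : AbsoluteValue L ℝ) (a b : L) (B : ℝ) (ha : abv a ≤ B)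
    (hb : abv b ≤ B) (n : ℕ) : abv (a ^ n - b ^ n) ≤ n * (abv (a - b) * B ^ (n - 1)) := by
  have hB : 0 ≤ B := (abv.nonneg a).trans ha
  have h := Commute.mul_geom_sum₂ (Commute.all a b) n
  rw [← h, map_mul]
  have h1 : abv (∑ i ∈ Finset.range n, a ^ i * b ^ (n - 1 - i)) ≤ n * B ^ (n - 1) := by
    refine (abv.sum_le _ _).trans ?_
    refine (Finset.sum_le_card_nsmul _ _ (B ^ (n - 1)) fun i hi => ?_).trans ?_
    · have hi' : i < n := Finset.mem_range.mp hi
      rw [map_mul, map_pow, map_pow]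
      calc abv a ^ i * abv b ^ (n - 1 - i) ≤ B ^ i * B ^ (n - 1 - i) :=
            mul_le_mul (pow_le_pow_left₀ (abv.nonneg _) ha _)
              (pow_le_pow_left₀ (abv.nonneg _) hb _) (pow_nonneg (abv.nonneg _) _)
              (pow_nonneg hB _)
        _ = B ^ (n - 1) := by rw [← pow_add]; congr 1; omega
    · rw [Finset.card_range, nsmul_eq_mul]
  have h2 := mul_le_mul_of_nonneg_left h1 (abv.nonneg (a - b))
  linarith

theorem term_le (abv : AbsoluteValue L ℝ) (d : ℕ) (p q : L × L) (i j : ℕ) (hij : j ≤ i)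
    (hi : i ≤ d) :
    abv ((p.1 ^ i * p.2 ^ (d - i)) * (q.1 ^ j * q.2 ^ (d - j)) -
      (q.1 ^ i * q.2 ^ (d - i)) * (p.1 ^ j * p.2 ^ (d - j))) ≤
      d * (abv (wedge p q) * (nrm abv p * nrm abv q) ^ (d - 1)) := by
  obtain ⟨n, rfl⟩ := Nat.exists_eq_add_of_le hij
  obtain ⟨e, rfl⟩ := Nat.exists_eq_add_of_le hi
  have e1 : j + n + e - (j + n) = e := by omega
  have e2 : j + n + e - j = n + e := by omega
  rw [e1, e2]
  have hX : 0 ≤ abv (wedge p q) * (nrm abv p * nrm abv q) ^ (j + n + e - 1) :=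
    mul_nonneg (abv.nonneg _) (pow_nonneg (mul_nonneg (nrm_nonneg _ _) (nrm_nonneg _ _)) _)
  rcases Nat.eq_zero_or_pos n with hn | hn
  · subst hn
    simp only [Nat.add_zero, Nat.zero_add]
    rw [show (p.1 ^ j * p.2 ^ e) * (q.1 ^ j * q.2 ^ e) -
      (q.1 ^ j * q.2 ^ e) * (p.1 ^ j * p.2 ^ e) = 0 by ring, map_zero]
    exact mul_nonneg (Nat.cast_nonneg _) hX
  have e3 : (p.1 ^ (j + n) * p.2 ^ e) * (q.1 ^ j * q.2 ^ (n + e)) -
      (q.1 ^ (j + n) * q.2 ^ e) * (p.1 ^ j * p.2 ^ (n + e)) =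
      ((p.1 * q.1) ^ j * (p.2 * q.2) ^ e) * ((p.1 * q.2) ^ n - (q.1 * p.2) ^ n) := by
    simp only [pow_add, mul_pow]; ring
  rw [e3, map_mul, map_mul, map_pow, map_pow]
  set B := nrm abv p * nrm abv q with hB
  have hB0 : 0 ≤ B := mul_nonneg (nrm_nonneg _ _) (nrm_nonneg _ _)
  have hp1 : abv p.1 ≤ nrm abv p := le_max_left _ _
  have hp2 : abv p.2 ≤ nrm abv p := le_max_right _ _
  have hq1 : abv q.1 ≤ nrm abv q := le_max_left _ _
  have hq2 : abv q.2 ≤ nrm abv q := le_max_right _ _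
  have h11 : abv (p.1 * q.1) ≤ B := by
    rw [map_mul]; exact mul_le_mul hp1 hq1 (abv.nonneg _) (nrm_nonneg _ _)
  have h22 : abv (p.2 * q.2) ≤ B := by
    rw [map_mul]; exact mul_le_mul hp2 hq2 (abv.nonneg _) (nrm_nonneg _ _)
  have h12 : abv (p.1 * q.2) ≤ B := by
    rw [map_mul]; exact mul_le_mul hp1 hq2 (abv.nonneg _) (nrm_nonneg _ _)
  have h21 : abv (q.1 * p.2) ≤ B := by
    rw [map_mul, mul_comm]; exact mul_le_mul hp2 hq1 (abv.nonneg _) (nrm_nonneg _ _)
  have hs := pow_sub_pow_le abv _ _ B h12 h21 n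
  calc abv (p.1 * q.1) ^ j * abv (p.2 * q.2) ^ e * abv ((p.1 * q.2) ^ n - (q.1 * p.2) ^ n)
      ≤ B ^ j * B ^ e * (n * (abv (wedge p q) * B ^ (n - 1))) := by
        refine mul_le_mul (mul_le_mul (pow_le_pow_left₀ (abv.nonneg _) h11 _)
          (pow_le_pow_left₀ (abv.nonneg _) h22 _) (pow_nonneg (abv.nonneg _) _)
          (pow_nonneg hB0 _)) hs (abv.nonneg _) (mul_nonneg (pow_nonneg hB0 _) (pow_nonneg hB0 _))
    _ = n * (abv (wedge p q) * B ^ (j + n + e - 1)) := by
        have : j + n + e - 1 = j + e + (n - 1) := by omega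
        rw [this, pow_add, pow_add]; ring
    _ ≤ (j + n + e : ℕ) * (abv (wedge p q) * B ^ (j + n + e - 1)) := by
        refine mul_le_mul_of_nonneg_right ?_ hX
        exact_mod_cast (by omega : n ≤ j + n + e)

theorem term_le' (abv : AbsoluteValue L ℝ) (d : ℕ) (p q : L × L) (i j : ℕ) (hi : i ≤ d)
    (hj : j ≤ d) :
    abv ((p.1 ^ i * p.2 ^ (d - i)) * (q.1 ^ j * q.2 ^ (d - j)) -
      (q.1 ^ i * q.2 ^ (d - i)) * (p.1 ^ j * p.2 ^ (d - j))) ≤
      d * (abv (wedge p q) * (nrm abv p * nrm abv q) ^ (d - 1)) := by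
  rcases le_total j i with h | h
  · exact term_le abv d p q i j h hi
  · have h1 := term_le abv d p q j i h hj
    rw [← abv.map_neg] at h1
    have e : -((p.1 ^ j * p.2 ^ (d - j)) * (q.1 ^ i * q.2 ^ (d - i)) -
        (q.1 ^ j * q.2 ^ (d - j)) * (p.1 ^ i * p.2 ^ (d - i))) =
        (p.1 ^ i * p.2 ^ (d - i)) * (q.1 ^ j * q.2 ^ (d - j)) -
        (q.1 ^ i * q.2 ^ (d - i)) * (p.1 ^ j * p.2 ^ (d - j)) := by ring
    rwa [e] at h1

/-- The Lipschitz property of the lift for every absolute value. -/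
theorem wedge_lift_le (abv : AbsoluteValue L ℝ) (d : ℕ)
    (F G : L[X]) (hBF : ∀ i, abv (F.coeff i) ≤ 1) (hBG : ∀ i, abv (G.coeff i) ≤ 1)
    (p q : L × L) :
    abv (wedge (lift d F G p) (lift d F G q)) ≤
      (d + 1) ^ 2 * d * (abv (wedge p q) * (nrm abv p * nrm abv q) ^ (d - 1)) := by
  have e : wedge (lift d F G p) (lift d F G q) =
      ∑ i ∈ Finset.range (d + 1), ∑ j ∈ Finset.range (d + 1), F.coeff i * G.coeff j *
        ((p.1 ^ i * p.2 ^ (d - i)) * (q.1 ^ j * q.2 ^ (d - j)) -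
          (q.1 ^ i * q.2 ^ (d - i)) * (p.1 ^ j * p.2 ^ (d - j))) := by
    simp only [wedge, lift, form]
    rw [Finset.sum_mul_sum, Finset.sum_mul_sum, ← Finset.sum_sub_distrib]
    refine Finset.sum_congr rfl fun i _ => ?_
    rw [← Finset.sum_sub_distrib]
    refine Finset.sum_congr rfl fun j _ => ?_
    ring
  rw [e]
  set Y : ℝ := d * (abv (wedge p q) * (nrm abv p * nrm abv q) ^ (d - 1)) with hY
  have hY0 : 0 ≤ Y := mul_nonneg (Nat.cast_nonneg _) (mul_nonneg (abv.nonneg _)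
    (pow_nonneg (mul_nonneg (nrm_nonneg _ _) (nrm_nonneg _ _)) _))
  have h1 : ∀ i ∈ Finset.range (d + 1), abv (∑ j ∈ Finset.range (d + 1),
      F.coeff i * G.coeff j *
        ((p.1 ^ i * p.2 ^ (d - i)) * (q.1 ^ j * q.2 ^ (d - j)) -
          (q.1 ^ i * q.2 ^ (d - i)) * (p.1 ^ j * p.2 ^ (d - j)))) ≤ (d + 1) * Y := by
    intro i hi
    refine (abv.sum_le _ _).trans ?_
    refine (Finset.sum_le_card_nsmul _ _ Y fun j hj => ?_).trans ?_
    · rw [map_mul, map_mul]
      have hi' : i ≤ d := Nat.lt_succ_iff.mp (Finset.mem_range.mp hi)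
      have hj' : j ≤ d := Nat.lt_succ_iff.mp (Finset.mem_range.mp hj)
      have h2 := mul_le_mul (mul_le_one₀ (hBF i) (abv.nonneg _) (hBG j))
        (term_le' abv d p q i j hi' hj') (abv.nonneg _) zero_le_one
      rw [one_mul] at h2
      exact h2
    · rw [Finset.card_range, nsmul_eq_mul]
      push_cast
      exact le_refl _
  refine (abv.sum_le _ _).trans ((Finset.sum_le_card_nsmul _ _ _ h1).trans ?_)
  rw [Finset.card_range, nsmul_eq_mul]
  push_cast
  rw [hY]
  exact le_of_eq (by ring)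

end M

/-- The multiplier `1 + P'(x) / G(x)`, `P = F - X G`, of a fixed point `x` of `F / G`. -/
theorem mult (d : ℕ) (hd : 1 ≤ d) : ∃ C : ℝ, 0 ≤ C ∧ ∀ {E : Type} [NormedField E] [IsAlgClosed E],
    (∃ e : E, e ≠ 0 ∧ ‖e‖ ≠ 1) → ∀ F G : E[X], F.natDegree ≤ d → G.natDegree ≤ d →
    resultant F G d d ≠ 0 → ∀ r ∈ RI.resSet d F G, ∀ x : E, F.eval x = x * G.eval x →
    ‖(derivative (F - X * G)).eval x + G.eval x‖ ≤ ‖G.eval x‖ * Real.exp (2 * r + C) := by
  obtain ⟨c, hc1, hc⟩ := RDF.nrm_lift_ge_arch d hd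
  set K : ℝ := (d + 1) ^ 2 * d with hK
  have hd1 : (1 : ℝ) ≤ d := by exact_mod_cast hd
  have hK1 : 1 ≤ K := by
    have h1 : (1 : ℝ) ≤ (d + 1) ^ 2 := by nlinarith
    rw [hK]; nlinarith
  have hc2 : 1 ≤ c ^ 2 := one_le_pow₀ hc1
  refine ⟨Real.log (K * c ^ 2), Real.log_nonneg (by nlinarith), ?_⟩
  intro E _ _ hE F G hF hG hR r hr x hx
  obtain ⟨F', G', A, hA, hF', hG', h1, h2, hconj, rfl⟩ := hr
  have hab : ∀ z : E, NormedField.toAbsoluteValue E z = ‖z‖ := fun z => rfl
  obtain ⟨hR', -⟩ := RI.SGenE.log_res (E := E) d hd F G hF hG hR A hA F' G' hF' hG' hconj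
  have hlift : ∀ z : E, lift d F G (z, 1) = (F.eval z, G.eval z) := fun z => by
    unfold lift
    rw [RDF.form_one d F hF z, RDF.form_one d G hG z]
  have hp0 : ((x, 1) : E × E) ≠ 0 := fun h => one_ne_zero (congrArg Prod.snd h)
  have hAp0 : RI.act A (x, 1) ≠ 0 := RI.act_ne_zero A hA hp0
  set n0 : ℝ := nrm (NormedField.toAbsoluteValue E) (RI.act A (x, 1)) with hn0
  have hn0pos : 0 < n0 := RDF.nrm_pos _ hAp0
  have hD0 : 0 < ‖A.det‖ := norm_pos_iff.2 hA
  -- the slopes
  have hW : ∀ z : E, ‖F.eval z * G.eval x - F.eval x * G.eval z‖ ≤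
      K * (‖z - x‖ * (nrm (NormedField.toAbsoluteValue E) (RI.act A (z, 1)) * n0) ^ (d - 1)) := by
    intro z
    have h3 := M.wedge_lift_le (NormedField.toAbsoluteValue E) d F' G' h1 h2
      (RI.act A (z, 1)) (RI.act A (x, 1))
    rw [hconj, hconj, RI.wedge_act, RI.wedge_act, hlift, hlift, map_mul, map_mul] at h3
    have e1 : wedge ((F.eval z, G.eval z) : E × E) (F.eval x, G.eval x) =
        F.eval z * G.eval x - F.eval x * G.eval z := rfl
    have e2 : wedge ((z, 1) : E × E) (x, 1) = z - x := by simp [wedge]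
    rw [e1, e2, hab, hab, hab] at h3
    have h4 : ‖A.det‖ * ‖F.eval z * G.eval x - F.eval x * G.eval z‖ ≤ ‖A.det‖ *
        (K * (‖z - x‖ * (nrm (NormedField.toAbsoluteValue E) (RI.act A (z, 1)) * n0) ^ (d - 1))) := by
      refine h3.trans (le_of_eq ?_)
      rw [hK, hn0]
      ring
    exact le_of_mul_le_mul_left h4 hD0
  -- the derivative
  have hder : ‖(derivative F).eval x * G.eval x - F.eval x * (derivative G).eval x‖ ≤
      K * (n0 * n0) ^ (d - 1) := by
    letI : NontriviallyNormedField E := NontriviallyNormedField.ofNormNeOne hE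
    have h3 : HasDerivAt (fun z => F.eval z * G.eval x - F.eval x * G.eval z)
        ((derivative F).eval x * G.eval x - F.eval x * (derivative G).eval x) x :=
      ((F.hasDerivAt x).mul_const _).sub ((G.hasDerivAt x).const_mul _)
    have h4 := (hasDerivAt_iff_tendsto_slope.1 h3).norm
    have h5 : Filter.Tendsto (fun z : E => K *
        (nrm (NormedField.toAbsoluteValue E) (RI.act A (z, 1)) * n0) ^ (d - 1))
        (nhdsWithin x {x}ᶜ) (nhds (K * (n0 * n0) ^ (d - 1))) := by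
      refine Filter.Tendsto.mono_left ?_ nhdsWithin_le_nhds
      have h6 : Continuous (fun z : E => K *
          (nrm (NormedField.toAbsoluteValue E) (RI.act A (z, 1)) * n0) ^ (d - 1)) := by
        have h7 : Continuous (fun z : E =>
            nrm (NormedField.toAbsoluteValue E) (RI.act A (z, 1))) := by
          show Continuous (fun z : E => max ‖A 0 0 * z + A 0 1 * 1‖ ‖A 1 0 * z + A 1 1 * 1‖)
          fun_prop
        exact continuous_const.mul ((h7.mul continuous_const).pow _)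
      exact h6.tendsto x
    refine le_of_tendsto_of_tendsto h4 h5 ?_
    filter_upwards [self_mem_nhdsWithin] with z hz
    have hz0 : 0 < ‖z - x‖ := norm_pos_iff.2 (sub_ne_zero.2 hz)
    have h8 := hW z
    rw [slope_def_field, norm_div, div_le_iff₀ hz0]
    have e3 : F.eval z * G.eval x - F.eval x * G.eval z -
        (F.eval x * G.eval x - F.eval x * G.eval x) =
        F.eval z * G.eval x - F.eval x * G.eval z := by ring
    rw [e3]
    refine h8.trans (le_of_eq (by ring))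
  -- the norm of `G x`
  have hg : ‖resultant F' G' d d‖ * n0 ^ (d - 1) ≤ c * ‖G.eval x‖ := by
    have h3 := hc (NormedField.toAbsoluteValue E) F' G' hF' hG' 1 h1 h2 (RI.act A (x, 1))
    have h4 : lift d F G (x, 1) = G.eval x • ((x, 1) : E × E) := by
      rw [hlift, hx]
      ext
      · simp [mul_comm]
      · simp
    rw [hconj, h4, RI.act_smul, RDF.nrm_smul, one_pow, mul_one, hab, hab] at h3
    have h5 : n0 ^ d = n0 ^ (d - 1) * n0 := by
      rw [← pow_succ]
      congr 1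
      omega
    rw [← hn0, h5] at h3
    refine le_of_mul_le_mul_right ?_ hn0pos
    linarith
  have hRp : 0 < ‖resultant F' G' d d‖ := norm_pos_iff.2 hR'
  have hGx : 0 < ‖G.eval x‖ := by
    rw [norm_pos_iff]
    intro h
    have h3 : lift d F G (x, 1) = 0 := by
      rw [hlift, hx, h, mul_zero]
      rfl
    exact RDF.lift_ne_zero d hd F G hR hp0 h3
  have hexp : Real.exp (2 * -Real.log ‖resultant F' G' d d‖ + Real.log (K * c ^ 2)) =
      K * c ^ 2 / ‖resultant F' G' d d‖ ^ 2 := by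
    rw [Real.exp_add, Real.exp_log (by nlinarith),
      show 2 * -Real.log ‖resultant F' G' d d‖ = -(Real.log (‖resultant F' G' d d‖ ^ 2)) by
        rw [Real.log_pow]; push_cast; ring, Real.exp_neg, Real.exp_log (by positivity)]
    field_simp
  rw [hexp]
  have e4 : (derivative F).eval x * G.eval x - F.eval x * (derivative G).eval x =
      G.eval x * ((derivative (F - X * G)).eval x + G.eval x) := by
    rw [hx]
    simp only [derivative_sub, derivative_mul, derivative_X, eval_sub, eval_add, eval_mul, eval_X,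
      eval_one]
    ring
  rw [e4, norm_mul, ← pow_two, ← pow_mul, mul_comm 2, pow_mul] at hder
  have h9 : (‖resultant F' G' d d‖ * n0 ^ (d - 1)) ^ 2 ≤ (c * ‖G.eval x‖) ^ 2 :=
    pow_le_pow_left₀ (by positivity) hg 2
  rw [mul_pow, mul_pow] at h9
  have h10 : (n0 ^ (d - 1)) ^ 2 ≤ c ^ 2 * ‖G.eval x‖ ^ 2 / ‖resultant F' G' d d‖ ^ 2 := by
    rw [le_div_iff₀ (by positivity)]
    linarith
  have h11 := hder.trans (mul_le_mul_of_nonneg_left h10 (by linarith : (0 : ℝ) ≤ K))
  refine le_of_mul_le_mul_left (h11.trans (le_of_eq ?_)) hGx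
  field_simp

end Pool.Agent.FAM
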