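import Mathlib
import Pool.Agent.FAM.Defs
import Pool.Agent.FAM.M
import Pool.Agent.RI.SGenE

set_option autoImplicit false

/-!
# The symmetric functions of the multipliers of the fixed points
-/

namespace Pool.Agent.FAM

open Polynomial

namespace S

/-- A polynomial over an algebraically closed field has its roots. -/
theorem exists_roots {E : Type} [Field E] [IsAlgClosed E] (P : E[X]) (n : ℕ)
    (hn : P.natDegree = n) : ∃ a : Fin n → E, P.roots = (Finset.univ : Finset (Fin n)).val.map a := by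
  have hs : P.Splits := IsAlgClosed.splits P
  have hc : P.roots.card = n := by rw [← hs.natDegree_eq_card_roots, hn]
  have hl : P.roots.toList.length = n := by rw [Multiset.length_toList, hc]
  refine ⟨fun i => P.roots.toList.get (Fin.cast hl.symm i), ?_⟩
  rw [Fin.univ_val_map]
  conv_lhs => rw [← Multiset.coe_toList P.roots]
  refine congrArg _ ?_
  refine List.ext_get (by simp [hl]) fun i h1 h2 => ?_
  simp

/-- The polynomial whose roots are the multipliers of the fixed points. -/
noncomputable def Psi {R : Type} [CommRing R] (n d : ℕ) (P G : R[X]) : R[X] :=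
  resultant (P.map C) (C (X - 1) * G.map C - (derivative P).map C) n d

theorem psi_map {R S : Type} [CommRing R] [CommRing S] (φ : R →+* S) (n d : ℕ) (P G : R[X]) :
    (Psi n d P G).map φ = Psi n d (P.map φ) (G.map φ) := by
  have h := resultant_map_map (P.map C) (C (X - 1) * G.map C - (derivative P).map C) n d
    (mapRingHom φ)
  have h1 : ∀ Q : R[X], (Q.map C).map (mapRingHom φ) = (Q.map φ).map C := by
    intro Q
    rw [map_map, map_map]
    refine congrArg (fun f => Q.map f) ?_
    ext x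
    · simp
  have h2 : (mapRingHom φ) (X - 1) = X - 1 := by simp
  rw [Polynomial.map_sub, Polynomial.map_mul, map_C, h1, h1, h1, h2] at h
  unfold Psi
  rw [derivative_map]
  exact h.symm

theorem psi_eval {R : Type} [CommRing R] (n d : ℕ) (P G : R[X]) (t : R) :
    (Psi n d P G).eval t = resultant P (C (t - 1) * G - derivative P) n d := by
  have h := resultant_map_map (P.map C) (C (X - 1) * G.map C - (derivative P).map C) n d
    (evalRingHom t)
  have h1 : ∀ Q : R[X], (Q.map C).map (evalRingHom t) = Q := by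
    intro Q
    rw [map_map]
    have : (evalRingHom t).comp C = RingHom.id R := by
      ext x
      simp
    rw [this, map_id]
  have h2 : (evalRingHom t) (X - 1) = t - 1 := by simp
  rw [Polynomial.map_sub, Polynomial.map_mul, map_C, h1, h1, h1, h2] at h
  exact h.symm

theorem natDegree_aux {R : Type} [CommRing R] (n d : ℕ) (hn : n ≤ d + 1) (P G : R[X])
    (hP : P.natDegree ≤ n) (hG : G.natDegree ≤ d) (t : R) :
    (C (t - 1) * G - derivative P).natDegree ≤ d := by
  refine (natDegree_sub_le _ _).trans (max_le ((natDegree_C_mul_le _ _).trans hG) ?_)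
  refine (natDegree_derivative_le _).trans ?_
  omega

/-- The factorisation of `Psi`. -/
theorem psi_roots {E : Type} [Field E] [IsAlgClosed E] (n d : ℕ) (hn : n ≤ d + 1) (P G : E[X])
    (hP : P.natDegree = n) (hG : G.natDegree ≤ d) : ∃ a : Fin n → E,
    P.roots = (Finset.univ : Finset (Fin n)).val.map a ∧
    Psi n d P G = C (P.leadingCoeff ^ d) *
      ∏ i, (C (G.eval (a i)) * X - C ((derivative P).eval (a i) + G.eval (a i))) := by
  obtain ⟨a, ha⟩ := exists_roots P n hP
  refine ⟨a, ha, ?_⟩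
  have hinf : Infinite E := IsAlgClosed.instInfinite
  have hs : P.Splits := IsAlgClosed.splits P
  refine Polynomial.funext fun t => ?_
  have h1 := resultant_eq_prod_eval P (C (t - 1) * G - derivative P) d
    (natDegree_aux n d hn P G hP.le hG t) hs
  rw [hP, ha, Multiset.map_map] at h1
  rw [psi_eval, h1, eval_mul, eval_C, eval_prod]
  refine congrArg _ ?_
  refine Finset.prod_congr rfl fun i _ => ?_
  rw [Function.comp_apply]
  simp only [eval_sub, eval_mul, eval_C, eval_X]
  ring

/-- The coefficients of a product of linear polynomials. -/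
theorem coeffs {K ι : Type} [NormedField K] (s : Finset ι) (g h : ι → K) (B : ℝ) (hB : 0 ≤ B)
    (hh : ∀ i ∈ s, ‖h i‖ ≤ ‖g i‖ * B) :
    (∀ j, ‖(∏ i ∈ s, (C (g i) * X - C (h i))).coeff j‖ ≤ (∏ i ∈ s, ‖g i‖) * (1 + B) ^ s.card) ∧
    (∏ i ∈ s, (C (g i) * X - C (h i))).natDegree ≤ s.card ∧
    (∏ i ∈ s, (C (g i) * X - C (h i))).coeff s.card = ∏ i ∈ s, g i := by
  classical
  induction s using Finset.induction_on with
  | empty =>
    refine ⟨fun j => ?_, by simp, by simp⟩
    simp only [Finset.prod_empty, Finset.card_empty, pow_zero, mul_one, coeff_one]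
    split_ifs
    · simp
    · simp
  | insert i s hi ih =>
    obtain ⟨h1, h2, h3⟩ := ih fun j hj => hh j (Finset.mem_insert_of_mem hj)
    have hgi := hh i (Finset.mem_insert_self i s)
    set Q := ∏ i ∈ s, (C (g i) * X - C (h i)) with hQ
    have hM : 0 ≤ (∏ i ∈ s, ‖g i‖) * (1 + B) ^ s.card := by
      refine mul_nonneg (Finset.prod_nonneg fun _ _ => norm_nonneg _) ?_
      exact pow_nonneg (by linarith) _
    rw [Finset.prod_insert hi, Finset.prod_insert hi, Finset.prod_insert hi,
      Finset.card_insert_of_notMem hi, ← hQ]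
    refine ⟨fun j => ?_, ?_, ?_⟩
    · have h4 : ‖((C (g i) * X - C (h i)) * Q).coeff j‖ ≤
          ‖g i‖ * ((∏ i ∈ s, ‖g i‖) * (1 + B) ^ s.card) +
          ‖h i‖ * ((∏ i ∈ s, ‖g i‖) * (1 + B) ^ s.card) := by
        have h5 : (C (g i) * X - C (h i)) * Q = C (g i) * (X * Q) - C (h i) * Q := by ring
        rw [h5, coeff_sub, coeff_C_mul, coeff_C_mul]
        refine (norm_sub_le _ _).trans ?_
        rw [norm_mul, norm_mul]
        refine add_le_add (mul_le_mul_of_nonneg_left ?_ (norm_nonneg _))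
          (mul_le_mul_of_nonneg_left (h1 j) (norm_nonneg _))
        rcases j with _ | j
        · rw [coeff_X_mul_zero, norm_zero]
          exact hM
        · rw [coeff_X_mul]
          exact h1 j
      refine h4.trans ?_
      have h6 : ‖h i‖ * ((∏ i ∈ s, ‖g i‖) * (1 + B) ^ s.card) ≤
          ‖g i‖ * B * ((∏ i ∈ s, ‖g i‖) * (1 + B) ^ s.card) :=
        mul_le_mul_of_nonneg_right hgi hM
      have h7 : ‖g i‖ * (∏ i ∈ s, ‖g i‖) * (1 + B) ^ (s.card + 1) =
          ‖g i‖ * ((∏ i ∈ s, ‖g i‖) * (1 + B) ^ s.card) +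
          ‖g i‖ * B * ((∏ i ∈ s, ‖g i‖) * (1 + B) ^ s.card) := by ring
      rw [h7]
      linarith
    · refine natDegree_mul_le.trans ?_
      have h8 : (C (g i) * X - C (h i)).natDegree ≤ 1 := by
        refine (natDegree_sub_le _ _).trans (max_le ((natDegree_C_mul_le _ _).trans
          natDegree_X_le) ?_)
        rw [natDegree_C]
        omega
      omega
    · have h5 : (C (g i) * X - C (h i)) * Q = C (g i) * (X * Q) - C (h i) * Q := by ring
      rw [h5, coeff_sub, coeff_C_mul, coeff_C_mul, coeff_X_mul, h3,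
        coeff_eq_zero_of_natDegree_lt (by omega), mul_zero, sub_zero]

/-- There are no common zeros. -/
theorem eval_ne {E : Type} [Field E] (d : ℕ) (hd : 1 ≤ d) (F G : E[X]) (hF : F.natDegree ≤ d)
    (hG : G.natDegree ≤ d) (hR : resultant F G d d ≠ 0) (x : E) (hx : F.eval x = x * G.eval x) :
    G.eval x ≠ 0 := by
  intro h0
  obtain ⟨p, q, -, -, hpq⟩ := exists_mul_add_mul_eq_C_resultant F G hF hG (Or.inl (by omega))
  have h1 := congrArg (eval x) hpq
  rw [eval_add, eval_mul, eval_mul, hx, h0, mul_zero, zero_mul, zero_mul, add_zero, eval_C] at h1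
  exact hR h1.symm

/-- The coefficients of `Psi` over a normed field. -/
theorem bound {K : Type} [NormedField K] [IsAlgClosed K] (n d : ℕ) (hn : n ≤ d + 1)
    (F G : K[X]) (hG : G.natDegree ≤ d) (hP : (F - X * G).natDegree = n)
    (B : ℝ) (hB : 0 ≤ B)
    (h : ∀ x : K, F.eval x = x * G.eval x →
      ‖(derivative (F - X * G)).eval x + G.eval x‖ ≤ ‖G.eval x‖ * B) (j : ℕ) :
    ‖(Psi n d (F - X * G) G).coeff j‖ ≤ ‖(Psi n d (F - X * G) G).coeff n‖ * (1 + B) ^ n := by
  obtain ⟨a, ha, hpsi⟩ := psi_roots n d hn (F - X * G) G hP hG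
  have hx : ∀ i, F.eval (a i) = a i * G.eval (a i) := by
    intro i
    have h1 : a i ∈ (F - X * G).roots := by
      rw [ha]
      exact Multiset.mem_map_of_mem a (Finset.mem_univ i)
    have h2 := (mem_roots'.1 h1).2
    rw [IsRoot.def, eval_sub, eval_mul, eval_X] at h2
    exact sub_eq_zero.1 h2
  obtain ⟨h1, -, h3⟩ := coeffs (Finset.univ : Finset (Fin n)) (fun i => G.eval (a i))
    (fun i => (derivative (F - X * G)).eval (a i) + G.eval (a i)) B hB
    (fun i _ => h (a i) (hx i))
  rw [Finset.card_univ, Fintype.card_fin] at h1 h3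
  rw [hpsi, coeff_C_mul, coeff_C_mul, h3, norm_mul, norm_mul, norm_prod, mul_assoc]
  exact mul_le_mul_of_nonneg_left (h1 j) (norm_nonneg _)

/-- The generic member of the family. -/
theorem generic {A Ω : Type} [CommRing A] [IsDomain A] [Field Ω] [IsAlgClosed Ω] [Algebra A Ω]
    (hφ : Function.Injective (algebraMap A Ω)) (d : ℕ) (hd : 1 ≤ d) (F G : A[X])
    (hF : F.natDegree ≤ d) (hG : G.natDegree ≤ d) (hR : resultant F G d d ≠ 0) (x m : Ω)
    (hx : aeval x F = x * aeval x G)
    (hm : m * aeval x G ^ 2 = aeval x (derivative F) * aeval x G - aeval x F *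
      aeval x (derivative G)) (hm1 : m ≠ 1) (n : ℕ) (hn : (F - X * G).natDegree = n) :
    F - X * G ≠ 0 ∧ (Psi n d (F - X * G) G).coeff n ≠ 0 ∧
      (Psi n d (F - X * G) G).natDegree ≤ n ∧ aeval m (Psi n d (F - X * G) G) = 0 := by
  have hae : ∀ Q : A[X], aeval x Q = (Q.map (algebraMap A Ω)).eval x := by
    intro Q
    rw [aeval_def, eval₂_eq_eval_map]
  set φ := algebraMap A Ω with hφd
  have hmF : (F.map φ).natDegree ≤ d := natDegree_map_le.trans hF
  have hmG : (G.map φ).natDegree ≤ d := natDegree_map_le.trans hG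
  have hRm : resultant (F.map φ) (G.map φ) d d ≠ 0 := by
    rw [resultant_map_map]
    exact fun h => hR ((injective_iff_map_eq_zero φ).1 hφ _ h)
  have hPm : (F - X * G).map φ = F.map φ - X * G.map φ := by
    rw [Polynomial.map_sub, Polynomial.map_mul, map_X]
  have hx' : (F.map φ).eval x = x * (G.map φ).eval x := by rw [← hae, ← hae, hx]
  have hG0 := eval_ne d hd (F.map φ) (G.map φ) hmF hmG hRm x hx'
  have hder : (derivative (F.map φ - X * G.map φ)).eval x + (G.map φ).eval x =
      m * (G.map φ).eval x := by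
    rw [hae, hae, hae, hae, ← derivative_map, ← derivative_map, hx'] at hm
    refine mul_right_cancel₀ hG0 ?_
    rw [derivative_sub, derivative_mul, derivative_X, one_mul, eval_sub, eval_add, eval_mul,
      eval_X]
    linear_combination -hm
  have hP0 : F - X * G ≠ 0 := by
    intro h
    rw [← hPm, h, Polynomial.map_zero, derivative_zero, eval_zero, zero_add] at hder
    exact hm1 (mul_right_cancel₀ hG0 (by rw [one_mul]; exact hder)).symm
  have hnd : (F.map φ - X * G.map φ).natDegree = n := by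
    rw [← hPm, natDegree_map_eq_of_injective hφ, hn]
  have hn1 : n ≤ d + 1 := by
    rw [← hn]
    refine (natDegree_sub_le _ _).trans (max_le (by omega) (natDegree_mul_le.trans ?_))
    have : (X : A[X]).natDegree ≤ 1 := natDegree_X_le
    omega
  obtain ⟨a, ha, hpsi⟩ := psi_roots n d hn1 (F.map φ - X * G.map φ) (G.map φ) hnd hmG
  have hxa : ∀ i, (F.map φ).eval (a i) = a i * (G.map φ).eval (a i) := by
    intro i
    have h1 : a i ∈ (F.map φ - X * G.map φ).roots := by
      rw [ha]
      exact Multiset.mem_map_of_mem a (Finset.mem_univ i)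
    have h2 := (mem_roots'.1 h1).2
    rw [IsRoot.def, eval_sub, eval_mul, eval_X] at h2
    exact sub_eq_zero.1 h2
  have hmap : (Psi n d (F - X * G) G).map φ = Psi n d (F.map φ - X * G.map φ) (G.map φ) := by
    rw [psi_map, hPm]
  have hP0m : F.map φ - X * G.map φ ≠ 0 := by
    rw [← hPm]
    exact (Polynomial.map_ne_zero_iff hφ).2 hP0
  have hlc : (F.map φ - X * G.map φ).leadingCoeff ≠ 0 := leadingCoeff_ne_zero.2 hP0m
  have hdeg : (∏ i : Fin n, (Polynomial.C ((G.map φ).eval (a i)) * X -
      Polynomial.C ((derivative (F.map φ - X * G.map φ)).eval (a i) +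
        (G.map φ).eval (a i)))).natDegree ≤ n ∧
    (∏ i : Fin n, (Polynomial.C ((G.map φ).eval (a i)) * X -
      Polynomial.C ((derivative (F.map φ - X * G.map φ)).eval (a i) +
        (G.map φ).eval (a i)))).coeff n = ∏ i, (G.map φ).eval (a i) := by
    have h1 : ∀ i, (Polynomial.C ((G.map φ).eval (a i)) * X -
      Polynomial.C ((derivative (F.map φ - X * G.map φ)).eval (a i) +
        (G.map φ).eval (a i))).natDegree ≤ 1 := by
      intro i
      refine (natDegree_sub_le _ _).trans (max_le ((natDegree_C_mul_le _ _).trans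
          natDegree_X_le) ?_)
      rw [natDegree_C]
      omega
    constructor
    · refine (natDegree_prod_le _ _).trans ?_
      refine (Finset.sum_le_sum fun i _ => h1 i).trans ?_
      simp
    · have h2 := coeff_prod_of_natDegree_le (Finset.univ : Finset (Fin n))
        (fun i => Polynomial.C ((G.map φ).eval (a i)) * X -
          Polynomial.C ((derivative (F.map φ - X * G.map φ)).eval (a i) +
          (G.map φ).eval (a i))) 1 (fun i _ => h1 i)
      rw [Finset.card_univ, Fintype.card_fin, mul_one] at h2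
      rw [h2]
      refine Finset.prod_congr rfl fun i _ => ?_
      simp [coeff_C]
  refine ⟨hP0, ?_, ?_, ?_⟩
  · intro h
    have h1 : (Psi n d (F.map φ - X * G.map φ) (G.map φ)).coeff n = 0 := by
      rw [← hmap, coeff_map, h, map_zero]
    rw [hpsi, coeff_C_mul, hdeg.2] at h1
    refine mul_ne_zero (pow_ne_zero d hlc) ?_ h1
    exact Finset.prod_ne_zero_iff.2 fun i _ => eval_ne d hd (F.map φ) (G.map φ) hmF hmG hRm
      (a i) (hxa i)
  · rw [← natDegree_map_eq_of_injective hφ, hmap, hpsi]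
    exact (natDegree_C_mul_le _ _).trans hdeg.1
  · rw [aeval_def, eval₂_eq_eval_map, hmap, hpsi, eval_mul, eval_prod]
    have h1 : x ∈ (F.map φ - X * G.map φ).roots := by
      rw [mem_roots hP0m, IsRoot.def, eval_sub, eval_mul, eval_X, hx', sub_self]
    rw [ha] at h1
    obtain ⟨i, -, hi⟩ := Multiset.mem_map.1 h1
    rw [Finset.prod_eq_zero (Finset.mem_univ i), mul_zero]
    rw [eval_sub, eval_mul, eval_C, eval_C, eval_X, hi, hder]
    ring

/-- Some coefficient of a polynomial with a transcendental root is not a rational multiple of the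
leading one. -/
theorem nonconst {A Ω : Type} [CommRing A] [Field Ω] [CharZero Ω] [Algebra A Ω]
    (hφ : Function.Injective (algebraMap A Ω)) (n : ℕ) (ψ : A[X]) (hn : ψ.coeff n ≠ 0)
    (hdeg : ψ.natDegree ≤ n) (m : Ω) (hm : aeval m ψ = 0)
    (htr : ∀ q : ℤ[X], q.eval₂ (Int.castRingHom Ω) m = 0 → q = 0)
    (u v : ℕ → ℤ) (hv : ∀ j, v j ≠ 0) (huv : ∀ j, (v j : A) * ψ.coeff j = (u j : A) * ψ.coeff n) :
    False := by
  set φ := algebraMap A Ω with hφd
  have hc : φ (ψ.coeff n) ≠ 0 := fun h => hn ((injective_iff_map_eq_zero φ).1 hφ _ h)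
  have hvΩ : ∀ j, (v j : Ω) ≠ 0 := fun j => Int.cast_ne_zero.2 (hv j)
  have h1 : ∀ j, φ (ψ.coeff j) = ((u j : Ω) / (v j : Ω)) * φ (ψ.coeff n) := by
    intro j
    have h2 := congrArg φ (huv j)
    rw [map_mul, map_mul, map_intCast, map_intCast] at h2
    have h3 := hvΩ j
    field_simp
    linear_combination h2
  set q : ℚ[X] := ∑ j ∈ Finset.range (n + 1), Polynomial.C ((u j : ℚ) / (v j : ℚ)) * X ^ j with hq
  have hq0 : aeval m q = 0 := by
    have h2 : aeval m ψ = ∑ j ∈ Finset.range (n + 1), φ (ψ.coeff j) * m ^ j := by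
      rw [aeval_eq_sum_range' (Nat.lt_succ_of_le hdeg)]
      refine Finset.sum_congr rfl fun j _ => ?_
      rw [Algebra.smul_def]
    have h3 : aeval m q * φ (ψ.coeff n) = 0 := by
      rw [← hm, h2, hq, map_sum, Finset.sum_mul]
      refine Finset.sum_congr rfl fun j _ => ?_
      rw [h1 j, map_mul, map_pow, aeval_X, aeval_C]
      simp only [map_div₀, map_intCast]
      ring
    exact (mul_eq_zero.1 h3).resolve_right hc
  have hqn : q.coeff n = 1 := by
    rw [hq, finsetSum_coeff, Finset.sum_eq_single n]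
    · rw [coeff_C_mul, coeff_X_pow, if_pos rfl, mul_one]
      have h2 : (u n : Ω) / (v n : Ω) = 1 := by
        have h3 := h1 n
        have h4 : ((u n : Ω) / (v n : Ω)) * φ (ψ.coeff n) = 1 * φ (ψ.coeff n) := by
          rw [one_mul]; exact h3.symm
        exact mul_right_cancel₀ hc h4
      have h5 : (u n : Ω) = (v n : Ω) := by
        rwa [div_eq_one_iff_eq (hvΩ n)] at h2
      have h6 : u n = v n := by exact_mod_cast h5
      rw [h6]
      exact div_self (Int.cast_ne_zero.2 (hv n))
    · intro j _ hj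
      rw [coeff_C_mul, coeff_X_pow, if_neg (Ne.symm hj), mul_zero]
    · intro h
      exact absurd (Finset.mem_range.2 (Nat.lt_succ_self n)) h
  have hqne : q ≠ 0 := by
    intro h
    rw [h, coeff_zero] at hqn
    exact zero_ne_one hqn
  obtain ⟨q', hq', hq0'⟩ := (IsFractionRing.isAlgebraic_iff ℤ ℚ Ω).2 ⟨q, hqne, hq0⟩
  refine hq' (htr q' ?_)
  rw [aeval_def] at hq0'
  exact hq0'

end S

theorem sigma {r d : ℕ} (hd : 1 ≤ d) (F G : (MvPolynomial (Fin r) ℤ)[X]) (hF : F.natDegree ≤ d)
    (hG : G.natDegree ≤ d) (hR : resultant F G d d ≠ 0) (hv : Varies F G) :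
    ∃ (U V E : MvPolynomial (Fin r) ℤ) (C : ℝ), IsRelPrime U V ∧ V ≠ 0 ∧ E ≠ 0 ∧
      ¬ (U.totalDegree = 0 ∧ V.totalDegree = 0) ∧ 0 ≤ C ∧
      ∀ s : Fin r → ℤ, MvPolynomial.eval s E ≠ 0 →
      MvPolynomial.eval s V ≠ 0 ∧ resultant (spec s F) (spec s G) d d ≠ 0 ∧
      ∀ {K : Type} [NormedField K] [IsAlgClosed K] [CharZero K], (∃ e : K, e ≠ 0 ∧ ‖e‖ ≠ 1) →
      ∀ l ∈ RI.resSet d ((spec s F).map (Int.castRingHom K)) ((spec s G).map (Int.castRingHom K)),
      ‖((MvPolynomial.eval s U : ℤ) : K)‖ ≤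
        ‖((MvPolynomial.eval s V : ℤ) : K)‖ * Real.exp (2 * (d + 1) * l + C) := by
  obtain ⟨C₁, hC₁, hmult⟩ := mult d hd
  obtain ⟨C₀, hC₀, hge⟩ := RI.resSet_ge d
  obtain ⟨x, m, hx, hm, htr⟩ := hv
  have hφ : Function.Injective (algebraMap (MvPolynomial (Fin r) ℤ)
      (AlgebraicClosure (FractionRing (MvPolynomial (Fin r) ℤ)))) := by
    rw [IsScalarTower.algebraMap_eq (MvPolynomial (Fin r) ℤ)
      (FractionRing (MvPolynomial (Fin r) ℤ))]
    exact (algebraMap (FractionRing (MvPolynomial (Fin r) ℤ)) _).injective.comp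
      (IsFractionRing.injective _ _)
  have hm1 : m ≠ 1 := by
    intro h
    rw [h] at htr
    exact htr isAlgebraic_one
  set n := (F - X * G).natDegree with hn
  obtain ⟨hP0, hψn, hψd, hψm⟩ := S.generic hφ d hd F G hF hG hR x m hx hm hm1 n hn.symm
  set ψ := S.Psi n d (F - X * G) G with hψ
  have hn1 : n ≤ d + 1 := by
    rw [hn]
    refine (natDegree_sub_le _ _).trans (max_le (by omega) (natDegree_mul_le.trans ?_))
    have : (X : (MvPolynomial (Fin r) ℤ)[X]).natDegree ≤ 1 := natDegree_X_le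
    omega
  -- the reduced fractions
  have hred : ∀ j, ∃ U V g : MvPolynomial (Fin r) ℤ, IsRelPrime U V ∧ g * V = ψ.coeff n ∧
      g * U = ψ.coeff j := by
    intro j
    obtain ⟨V, U, g, h1, h2, h3⟩ := UniqueFactorizationMonoid.exists_reduced_factors
      (ψ.coeff n) hψn (ψ.coeff j)
    exact ⟨U, V, g, h1.symm, h2, h3⟩
  choose U V g hrel hgV hgU using hred
  have hV0 : ∀ j, V j ≠ 0 := by
    intro j h
    refine hψn ?_
    rw [← hgV j, h, mul_zero]
  have hex : ∃ j, ¬ ((U j).totalDegree = 0 ∧ (V j).totalDegree = 0) := by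
    by_contra hcon
    have hcon2 : ∀ j, (U j).totalDegree = 0 ∧ (V j).totalDegree = 0 := fun j =>
      not_not.1 fun h => hcon ⟨j, h⟩
    have hU : ∀ j, U j = MvPolynomial.C ((U j).coeff 0) := fun j =>
      MvPolynomial.totalDegree_eq_zero_iff_eq_C.1 (hcon2 j).1
    have hV : ∀ j, V j = MvPolynomial.C ((V j).coeff 0) := fun j =>
      MvPolynomial.totalDegree_eq_zero_iff_eq_C.1 (hcon2 j).2
    have htr2 : ∀ q : ℤ[X], q.eval₂ (Int.castRingHom (AlgebraicClosure
        (FractionRing (MvPolynomial (Fin r) ℤ)))) m = 0 → q = 0 := by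
      intro q hq
      refine transcendental_iff.1 htr q ?_
      rw [aeval_def, RingHom.ext_int (algebraMap ℤ _) (Int.castRingHom _)]
      exact hq
    refine S.nonconst hφ n ψ hψn hψd m hψm htr2 (fun j => (U j).coeff 0) (fun j => (V j).coeff 0)
      (fun j h => ?_) (fun j => ?_)
    · refine hV0 j ?_
      rw [hV j, h, map_zero]
    · have h1 : (((V j).coeff 0 : ℤ) : MvPolynomial (Fin r) ℤ) = V j := by
        conv_rhs => rw [hV j]
        rw [eq_intCast]
      have h2 : (((U j).coeff 0 : ℤ) : MvPolynomial (Fin r) ℤ) = U j := by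
        conv_rhs => rw [hU j]
        rw [eq_intCast]
      show (((V j).coeff 0 : ℤ) : MvPolynomial (Fin r) ℤ) * _ =
        (((U j).coeff 0 : ℤ) : MvPolynomial (Fin r) ℤ) * _
      rw [h1, h2, ← hgV j, ← hgU j]
      ring
  obtain ⟨j, hj⟩ := hex
  have hlc0 : (F - X * G).coeff n ≠ 0 := leadingCoeff_ne_zero.2 hP0
  refine ⟨U j, V j, (F - X * G).coeff n * resultant F G d d * ψ.coeff n,
    (d + 1) * (C₁ + 2 * C₀ + Real.log 2), hrel j, hV0 j,
    mul_ne_zero (mul_ne_zero hlc0 hR) hψn, hj, ?_, ?_⟩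
  · have := Real.log_nonneg (one_le_two : (1 : ℝ) ≤ 2)
    positivity
  intro s hs
  rw [map_mul, map_mul] at hs
  have hs1 : MvPolynomial.eval s ((F - X * G).coeff n) ≠ 0 :=
    left_ne_zero_of_mul (left_ne_zero_of_mul hs)
  have hs2 : MvPolynomial.eval s (resultant F G d d) ≠ 0 :=
    right_ne_zero_of_mul (left_ne_zero_of_mul hs)
  have hs3 : MvPolynomial.eval s (ψ.coeff n) ≠ 0 := right_ne_zero_of_mul hs
  refine ⟨?_, ?_, ?_⟩
  · intro h
    refine hs3 ?_
    rw [← hgV j, map_mul, h, mul_zero]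
  · rw [spec_res]
    exact hs2
  intro K _ _ _ hK l hl
  set φ : MvPolynomial (Fin r) ℤ →+* K := (Int.castRingHom K).comp (MvPolynomial.eval s) with hφs
  have hmapF : (spec s F).map (Int.castRingHom K) = F.map φ := by
    unfold spec
    rw [map_map]
  have hmapG : (spec s G).map (Int.castRingHom K) = G.map φ := by
    unfold spec
    rw [map_map]
  have hφapp : ∀ Q, φ Q = ((MvPolynomial.eval s Q : ℤ) : K) := fun Q => rfl
  have hφ0 : ∀ Q, MvPolynomial.eval s Q ≠ 0 → φ Q ≠ 0 := by
    intro Q hQ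
    rw [hφapp]
    exact Int.cast_ne_zero.2 hQ
  rw [hmapF, hmapG] at hl
  have hFd : (F.map φ).natDegree ≤ d := natDegree_map_le.trans hF
  have hGd : (G.map φ).natDegree ≤ d := natDegree_map_le.trans hG
  have hRm : resultant (F.map φ) (G.map φ) d d ≠ 0 := by
    rw [resultant_map_map]
    exact hφ0 _ hs2
  have hPm : (F - X * G).map φ = F.map φ - X * G.map φ := by
    rw [Polynomial.map_sub, Polynomial.map_mul, map_X]
  have hPd : (F.map φ - X * G.map φ).natDegree = n := by
    rw [← hPm, hn]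
    exact natDegree_map_eq_iff.2 (Or.inl (hφ0 _ hs1))
  have hl0 := hge (F.map φ) (G.map φ) l hl
  have hb := S.bound n d hn1 (F.map φ) (G.map φ) hGd hPd (Real.exp (2 * l + C₁))
    (Real.exp_pos _).le (fun y hy => hmult hK (F.map φ) (G.map φ) hFd hGd hRm l hl y hy) j
  have hpsi : S.Psi n d (F.map φ - X * G.map φ) (G.map φ) = ψ.map φ := by
    rw [hψ, S.psi_map, hPm]
  rw [hpsi, coeff_map, coeff_map, ← hgU j, ← hgV j, map_mul, map_mul, norm_mul, norm_mul,
    mul_assoc] at hb
  have hg0 : φ (g j) ≠ 0 := by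
    refine hφ0 _ fun h => hs3 ?_
    rw [← hgV j, map_mul, h, zero_mul]
  have hb2 := le_of_mul_le_mul_left hb (norm_pos_iff.2 hg0)
  refine hb2.trans (mul_le_mul_of_nonneg_left ?_ (norm_nonneg _))
  -- the exponential
  set L := 2 * l + C₁ + 2 * C₀ with hL
  have hL0 : 0 ≤ L := by rw [hL]; linarith
  have h1 : 1 + Real.exp (2 * l + C₁) ≤ 2 * Real.exp L := by
    have h2 : (1 : ℝ) ≤ Real.exp L := Real.one_le_exp hL0
    have h3 : Real.exp (2 * l + C₁) ≤ Real.exp L := Real.exp_le_exp.2 (by rw [hL]; linarith)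
    linarith
  have h2 : (2 : ℝ) * Real.exp L = Real.exp (L + Real.log 2) := by
    rw [Real.exp_add L, Real.exp_log two_pos]
    ring
  have hlog2 : 0 ≤ Real.log 2 := Real.log_nonneg one_le_two
  calc (1 + Real.exp (2 * l + C₁)) ^ n ≤ (Real.exp (L + Real.log 2)) ^ n := by
        refine pow_le_pow_left₀ ?_ (h1.trans h2.le) n
        have := Real.exp_pos (2 * l + C₁)
        linarith
    _ = Real.exp (n * (L + Real.log 2)) := by rw [← Real.exp_nat_mul]
    _ ≤ Real.exp (2 * (d + 1) * l + (d + 1) * (C₁ + 2 * C₀ + Real.log 2)) := by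
        refine Real.exp_le_exp.2 ?_
        have h3 : (n : ℝ) ≤ d + 1 := by exact_mod_cast hn1
        have h4 : (n : ℝ) * (L + Real.log 2) ≤ (d + 1) * (L + Real.log 2) :=
          mul_le_mul_of_nonneg_right h3 (by linarith)
        refine h4.trans (le_of_eq ?_)
        rw [hL]
        ring

end Pool.Agent.FAM
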