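import Mathlib
import Pool.Agent.FAM.KDefs
import Pool.Agent.FAM.S

set_option autoImplicit false

/-!
# The symmetric functions of the multipliers of the fixed points, over a number field
-/

namespace Pool.Agent.FamK

open Polynomial NumberField IsDedekindDomain
open Pool.Agent.RI (resSet)
open Pool.Agent.FAM (Cube itP)

namespace KS

/-- If all coefficients of a polynomial are constant multiples of the leading one, its roots are
algebraic. -/
theorem nonconst {O A Ω : Type} [CommRing O] [IsDomain O] [CommRing A] [IsDomain A] [Field Ω]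
    [Algebra O A] [Algebra A Ω] [Algebra O Ω] [IsScalarTower O A Ω]
    (hOA : Function.Injective (algebraMap O A)) (hφ : Function.Injective (algebraMap A Ω)) (n : ℕ)
    (ψ : A[X]) (hn : ψ.coeff n ≠ 0) (hdeg : ψ.natDegree ≤ n) (m : Ω) (hm : aeval m ψ = 0)
    (u v : ℕ → O) (hv : ∀ j, v j ≠ 0)
    (huv : ∀ j, algebraMap O A (v j) * ψ.coeff j = algebraMap O A (u j) * ψ.coeff n) :
    IsAlgebraic O m := by
  classical
  have hv' : ∀ j, algebraMap O A (v j) ≠ 0 := fun j h =>
    hv j ((injective_iff_map_eq_zero _).1 hOA _ h)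
  have hun : u n ≠ 0 := by
    intro h
    have h1 := huv n
    rw [h, map_zero, zero_mul] at h1
    exact mul_ne_zero (hv' n) hn h1
  set w : ℕ → O := fun j => u j * ∏ k ∈ (Finset.range (n + 1)).erase j, v k with hw
  set q : O[X] := ∑ j ∈ Finset.range (n + 1), Polynomial.C (w j) * X ^ j with hq
  have hqn : q.coeff n = w n := by
    rw [hq, finsetSum_coeff, Finset.sum_eq_single n]
    · rw [coeff_C_mul, coeff_X_pow, if_pos rfl, mul_one]
    · intro j _ hj
      rw [coeff_C_mul, coeff_X_pow, if_neg (Ne.symm hj), mul_zero]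
    · intro h
      exact absurd (Finset.mem_range.2 (Nat.lt_succ_self n)) h
  have hqne : q ≠ 0 := by
    intro h
    rw [h, coeff_zero] at hqn
    exact mul_ne_zero hun (Finset.prod_ne_zero_iff.2 fun k _ => hv k) hqn.symm
  refine ⟨q, hqne, ?_⟩
  set φ := algebraMap A Ω with hφd
  have hc : φ (ψ.coeff n) ≠ 0 := fun h => hn ((injective_iff_map_eq_zero φ).1 hφ _ h)
  have hOΩ : ∀ x : O, algebraMap O Ω x = φ (algebraMap O A x) := fun x =>
    IsScalarTower.algebraMap_apply O A Ω x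
  set pv : Ω := ∏ k ∈ Finset.range (n + 1), algebraMap O Ω (v k) with hpv
  have h1 : ∀ j ∈ Finset.range (n + 1),
      algebraMap O Ω (w j) * φ (ψ.coeff n) = pv * φ (ψ.coeff j) := by
    intro j hj
    have h2 := congrArg φ (huv j)
    rw [map_mul, map_mul, ← hOΩ, ← hOΩ] at h2
    have h3 : pv = algebraMap O Ω (v j) *
        algebraMap O Ω (∏ k ∈ (Finset.range (n + 1)).erase j, v k) := by
      rw [hpv, map_prod]
      exact (Finset.mul_prod_erase _ (fun k => algebraMap O Ω (v k)) hj).symm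
    rw [hw, h3]
    simp only [map_mul]
    linear_combination (-(algebraMap O Ω (∏ k ∈ (Finset.range (n + 1)).erase j, v k))) * h2
  have h4 : aeval m ψ = ∑ j ∈ Finset.range (n + 1), φ (ψ.coeff j) * m ^ j := by
    rw [aeval_eq_sum_range' (Nat.lt_succ_of_le hdeg)]
    refine Finset.sum_congr rfl fun j _ => ?_
    rw [Algebra.smul_def]
  have h5 : aeval m q * φ (ψ.coeff n) = 0 := by
    have h6 : aeval m q * φ (ψ.coeff n) = pv * aeval m ψ := by
      rw [h4, hq, map_sum, Finset.sum_mul, Finset.mul_sum]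
      refine Finset.sum_congr rfl fun j hj => ?_
      rw [map_mul, map_pow, aeval_X, aeval_C]
      linear_combination (m ^ j) * h1 j hj
    rw [h6, hm, mul_zero]
  exact (mul_eq_zero.1 h5).resolve_right hc

variable {K : Type} [Field K] [NumberField K]

theorem map_inj {r : ℕ} : Function.Injective
    (MvPolynomial.map (algebraMap (𝓞 K) K) : MvPolynomial (Fin r) (𝓞 K) →+* _) :=
  MvPolynomial.map_injective _ (IsFractionRing.injective (𝓞 K) K)

/-- A common denominator of two polynomials. -/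
theorem exists_denom {r : ℕ} (U V : MvPolynomial (Fin r) K) :
    ∃ (b : 𝓞 K) (U' V' : MvPolynomial (Fin r) (𝓞 K)), b ≠ 0 ∧
      MvPolynomial.map (algebraMap (𝓞 K) K) U' = MvPolynomial.C (algebraMap (𝓞 K) K b) * U ∧
      MvPolynomial.map (algebraMap (𝓞 K) K) V' = MvPolynomial.C (algebraMap (𝓞 K) K b) * V := by
  classical
  obtain ⟨b, hb⟩ := IsLocalization.exist_integer_multiples_of_finset (nonZeroDivisors (𝓞 K))
    (U.support.image (fun m => U.coeff m) ∪ V.support.image (fun m => V.coeff m))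
  have hrange : ∀ W : MvPolynomial (Fin r) K, (∀ m ∈ W.support, W.coeff m ∈
      U.support.image (fun m => U.coeff m) ∪ V.support.image (fun m => V.coeff m)) →
      ∃ W' : MvPolynomial (Fin r) (𝓞 K), MvPolynomial.map (algebraMap (𝓞 K) K) W' =
        MvPolynomial.C (algebraMap (𝓞 K) K b) * W := by
    intro W hW
    have h1 : MvPolynomial.C (algebraMap (𝓞 K) K b) * W ∈
        Set.range (MvPolynomial.map (σ := Fin r) (algebraMap (𝓞 K) K)) := by
      rw [MvPolynomial.mem_range_map_iff_coeffs_subset]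
      intro c hc
      obtain ⟨m, hm, rfl⟩ := MvPolynomial.mem_coeffs_iff.1 hc
      rw [MvPolynomial.coeff_C_mul]
      by_cases hmW : m ∈ W.support
      · obtain ⟨y, hy⟩ := hb _ (hW m hmW)
        exact ⟨y, by rw [hy]; rfl⟩
      · rw [MvPolynomial.notMem_support_iff.1 hmW, mul_zero]
        exact ⟨0, map_zero _⟩
    exact h1
  obtain ⟨U', hU'⟩ := hrange U fun m hm =>
    Finset.mem_union_left _ (Finset.mem_image_of_mem _ hm)
  obtain ⟨V', hV'⟩ := hrange V fun m hm =>
    Finset.mem_union_right _ (Finset.mem_image_of_mem _ hm)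
  exact ⟨b, U', V', nonZeroDivisors.ne_zero b.2, hU', hV'⟩

end KS

variable {K : Type} [Field K] [NumberField K]

theorem sigma {r d : ℕ} (hd : 1 ≤ d) (F G : (MvPolynomial (Fin r) (𝓞 K))[X])
    (hF : F.natDegree ≤ d) (hG : G.natDegree ≤ d) (hR : resultant F G d d ≠ 0)
    (hv : Varies1 F G) :
    ∃ (U V E : MvPolynomial (Fin r) (𝓞 K)) (C : ℝ),
      IsRelPrime (MvPolynomial.map (algebraMap (𝓞 K) K) U)
        (MvPolynomial.map (algebraMap (𝓞 K) K) V) ∧ V ≠ 0 ∧ E ≠ 0 ∧
      ¬ (U.totalDegree = 0 ∧ V.totalDegree = 0) ∧ 0 ≤ C ∧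
      ∀ s : Fin r → ℤ, ev s E ≠ 0 →
      ev s V ≠ 0 ∧ resultant (spec s F) (spec s G) d d ≠ 0 ∧
      ∀ {M : Type} [NormedField M] [IsAlgClosed M] (φ : K →+* M), (∃ e : M, e ≠ 0 ∧ ‖e‖ ≠ 1) →
      ∀ l ∈ resSet d ((spec s F).map (φ.comp (algebraMap (𝓞 K) K)))
        ((spec s G).map (φ.comp (algebraMap (𝓞 K) K))),
      ‖φ (ev s U : 𝓞 K)‖ ≤ ‖φ (ev s V : 𝓞 K)‖ * Real.exp (2 * (d + 1) * l + C) := by
  obtain ⟨C₁, hC₁, hmult⟩ := FAM.mult d hd
  obtain ⟨C₀, hC₀, hge⟩ := RI.resSet_ge d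
  obtain ⟨x, m, hx, hm, htr⟩ := hv
  have hφ : Function.Injective (algebraMap (MvPolynomial (Fin r) (𝓞 K))
      (AlgebraicClosure (FractionRing (MvPolynomial (Fin r) (𝓞 K))))) := by
    rw [IsScalarTower.algebraMap_eq (MvPolynomial (Fin r) (𝓞 K))
      (FractionRing (MvPolynomial (Fin r) (𝓞 K)))]
    exact (algebraMap (FractionRing (MvPolynomial (Fin r) (𝓞 K))) _).injective.comp
      (IsFractionRing.injective _ _)
  have hm1 : m ≠ 1 := by
    intro h
    rw [h] at htr
    exact htr isAlgebraic_one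
  set n := (F - X * G).natDegree with hn
  obtain ⟨hP0, hψn, hψd, hψm⟩ := FAM.S.generic hφ d hd F G hF hG hR x m hx hm hm1 n hn.symm
  set ψ := FAM.S.Psi n d (F - X * G) G with hψ
  have hn1 : n ≤ d + 1 := by
    rw [hn]
    refine (natDegree_sub_le _ _).trans (max_le (by omega) (natDegree_mul_le.trans ?_))
    have : (X : (MvPolynomial (Fin r) (𝓞 K))[X]).natDegree ≤ 1 := natDegree_X_le
    omega
  have hψn' : MvPolynomial.map (algebraMap (𝓞 K) K) (ψ.coeff n) ≠ 0 := fun h =>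
    hψn ((injective_iff_map_eq_zero _).1 KS.map_inj _ h)
  -- the reduced fractions
  have hred : ∀ j, ∃ U V : MvPolynomial (Fin r) (𝓞 K),
      IsRelPrime (MvPolynomial.map (algebraMap (𝓞 K) K) U)
        (MvPolynomial.map (algebraMap (𝓞 K) K) V) ∧ V ≠ 0 ∧
      (∀ s : Fin r → ℤ, ev s (ψ.coeff n) ≠ 0 → ev s V ≠ 0) ∧
      V * ψ.coeff j = U * ψ.coeff n := by
    intro j
    obtain ⟨V', U', g, h1, h2, h3⟩ := UniqueFactorizationMonoid.exists_reduced_factors
      (MvPolynomial.map (algebraMap (𝓞 K) K) (ψ.coeff n)) hψn'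
      (MvPolynomial.map (algebraMap (𝓞 K) K) (ψ.coeff j))
    obtain ⟨b, U, V, hb, hU, hV⟩ := KS.exists_denom U' V'
    have hbK : algebraMap (𝓞 K) K b ≠ 0 := fun h =>
      hb ((injective_iff_map_eq_zero _).1 (IsFractionRing.injective (𝓞 K) K) _ h)
    have hbu : IsUnit (MvPolynomial.C (algebraMap (𝓞 K) K b) : MvPolynomial (Fin r) K) :=
      (IsUnit.mk0 _ hbK).map MvPolynomial.C
    have hV'0 : V' ≠ 0 := by
      intro h
      rw [h, mul_zero] at h2
      exact hψn' h2.symm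
    refine ⟨U, V, ?_, ?_, ?_, ?_⟩
    · rw [hU, hV]
      intro c hcU hcV
      exact h1 (hbu.dvd_mul_left.1 hcV) (hbu.dvd_mul_left.1 hcU)
    · intro h
      rw [h, map_zero] at hV
      exact mul_ne_zero hbu.ne_zero hV'0 hV.symm
    · intro s hs h
      have e1 := ev_map (algebraMap (𝓞 K) K) s V
      rw [h, map_zero, hV, map_mul] at e1
      have e2 : ev s V' = 0 := by
        refine (mul_eq_zero.1 e1).resolve_left ?_
        unfold ev
        rw [MvPolynomial.eval_C]
        exact hbK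
      have e3 := ev_map (algebraMap (𝓞 K) K) s (ψ.coeff n)
      rw [← h2, map_mul, e2, mul_zero] at e3
      exact hs ((injective_iff_map_eq_zero _).1 (IsFractionRing.injective (𝓞 K) K) _ e3.symm)
    · refine KS.map_inj ?_
      rw [map_mul, map_mul, hU, hV, ← h2, ← h3]
      ring
  choose U V hrel hV0 hVs hUV using hred
  have hex : ∃ j, ¬ ((U j).totalDegree = 0 ∧ (V j).totalDegree = 0) := by
    by_contra hcon
    have hcon2 : ∀ j, (U j).totalDegree = 0 ∧ (V j).totalDegree = 0 := fun j =>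
      not_not.1 fun h => hcon ⟨j, h⟩
    have hU : ∀ j, U j = MvPolynomial.C ((U j).coeff 0) := fun j =>
      MvPolynomial.totalDegree_eq_zero_iff_eq_C.1 (hcon2 j).1
    have hV : ∀ j, V j = MvPolynomial.C ((V j).coeff 0) := fun j =>
      MvPolynomial.totalDegree_eq_zero_iff_eq_C.1 (hcon2 j).2
    have halg : IsAlgebraic (𝓞 K) m := by
      refine KS.nonconst (O := 𝓞 K) (MvPolynomial.C_injective (Fin r) (𝓞 K)) hφ n ψ hψn hψd m hψm
        (fun j => (U j).coeff 0) (fun j => (V j).coeff 0) (fun j h => ?_) (fun j => ?_)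
      · refine hV0 j ?_
        rw [hV j, h, map_zero]
      · rw [MvPolynomial.algebraMap_eq, ← hU j, ← hV j]
        exact hUV j
    exact htr (halg.restrictScalars ℤ)
  obtain ⟨j, hj⟩ := hex
  have hlc0 : (F - X * G).coeff n ≠ 0 := leadingCoeff_ne_zero.2 hP0
  refine ⟨U j, V j, (F - X * G).coeff n * resultant F G d d * ψ.coeff n,
    (d + 1) * (C₁ + 2 * C₀ + Real.log 2), hrel j, hV0 j,
    mul_ne_zero (mul_ne_zero hlc0 hR) hψn, hj, ?_, ?_⟩
  · have := Real.log_nonneg (one_le_two : (1 : ℝ) ≤ 2)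
    positivity
  intro s hs
  rw [map_mul, map_mul] at hs
  have hs1 : ev s ((F - X * G).coeff n) ≠ 0 := left_ne_zero_of_mul (left_ne_zero_of_mul hs)
  have hs2 : ev s (resultant F G d d) ≠ 0 := right_ne_zero_of_mul (left_ne_zero_of_mul hs)
  have hs3 : ev s (ψ.coeff n) ≠ 0 := right_ne_zero_of_mul hs
  refine ⟨hVs j s hs3, ?_, ?_⟩
  · rw [spec_res]
    exact hs2
  intro M _ _ φ₀ hM l hl
  set φ : MvPolynomial (Fin r) (𝓞 K) →+* M :=
    (φ₀.comp (algebraMap (𝓞 K) K)).comp (ev s) with hφs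
  have hmapF : (spec s F).map (φ₀.comp (algebraMap (𝓞 K) K)) = F.map φ := by
    unfold spec
    rw [map_map]
  have hmapG : (spec s G).map (φ₀.comp (algebraMap (𝓞 K) K)) = G.map φ := by
    unfold spec
    rw [map_map]
  have hφapp : ∀ Q, φ Q = φ₀ (ev s Q : 𝓞 K) := fun Q => rfl
  have hφ0 : ∀ Q, ev s Q ≠ 0 → φ Q ≠ 0 := by
    intro Q hQ h
    rw [hφapp] at h
    have h1 := (injective_iff_map_eq_zero φ₀).1 φ₀.injective _ h
    exact hQ ((injective_iff_map_eq_zero _).1 (IsFractionRing.injective (𝓞 K) K) _ h1)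
  rw [hmapF, hmapG] at hl
  have hFd : (F.map φ).natDegree ≤ d := natDegree_map_le.trans hF
  have hGd : (G.map φ).natDegree ≤ d := natDegree_map_le.trans hG
  have hRm : resultant (F.map φ) (G.map φ) d d ≠ 0 := by
    rw [resultant_map_map]
    exact hφ0 _ hs2
  have hPm : (F - X * G).map φ = F.map φ - X * G.map φ := by
    rw [Polynomial.map_sub, Polynomial.map_mul, map_X]
  have hPd : (F.map φ - X * G.map φ).natDegree = n := by
    rw [← hPm, hn]
    exact natDegree_map_eq_iff.2 (Or.inl (hφ0 _ hs1))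
  have hl0 := hge (F.map φ) (G.map φ) l hl
  have hb := FAM.S.bound n d hn1 (F.map φ) (G.map φ) hGd hPd (Real.exp (2 * l + C₁))
    (Real.exp_pos _).le (fun y hy => hmult hM (F.map φ) (G.map φ) hFd hGd hRm l hl y hy) j
  have hpsi : FAM.S.Psi n d (F.map φ - X * G.map φ) (G.map φ) = ψ.map φ := by
    rw [hψ, FAM.S.psi_map, hPm]
  rw [hpsi, coeff_map, coeff_map] at hb
  have hg0 : φ (ψ.coeff n) ≠ 0 := hφ0 _ hs3
  have hrelφ : ‖φ (V j)‖ * ‖φ (ψ.coeff j)‖ = ‖φ (U j)‖ * ‖φ (ψ.coeff n)‖ := by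
    rw [← norm_mul, ← norm_mul, ← map_mul, ← map_mul, hUV j]
  have hb2 : ‖φ (U j)‖ ≤ ‖φ (V j)‖ * (1 + Real.exp (2 * l + C₁)) ^ n := by
    have h1 : ‖φ (U j)‖ * ‖φ (ψ.coeff n)‖ ≤
        ‖φ (V j)‖ * (1 + Real.exp (2 * l + C₁)) ^ n * ‖φ (ψ.coeff n)‖ := by
      rw [← hrelφ]
      have h2 := mul_le_mul_of_nonneg_left hb (norm_nonneg (φ (V j)))
      refine h2.trans (le_of_eq ?_)
      ring
    exact le_of_mul_le_mul_right h1 (norm_pos_iff.2 hg0)
  refine hb2.trans (mul_le_mul_of_nonneg_left ?_ (norm_nonneg _))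
  -- the exponential
  set L := 2 * l + C₁ + 2 * C₀ with hL
  have hL0 : 0 ≤ L := by rw [hL]; linarith
  have h1 : 1 + Real.exp (2 * l + C₁) ≤ 2 * Real.exp L := by
    have h2 : (1 : ℝ) ≤ Real.exp L := Real.one_le_exp hL0
    have h3 : Real.exp (2 * l + C₁) ≤ Real.exp L := Real.exp_le_exp.2 (by rw [hL]; linarith)
    linarith
  have h2 : (2 : ℝ) * Real.exp L = Real.exp (L + Real.log 2) := by
    rw [Real.exp_add L, Real.exp_log two_pos]
    ring
  have hlog2 : 0 ≤ Real.log 2 := Real.log_nonneg one_le_two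
  calc (1 + Real.exp (2 * l + C₁)) ^ n ≤ (Real.exp (L + Real.log 2)) ^ n := by
        refine pow_le_pow_left₀ ?_ (h1.trans h2.le) n
        have := Real.exp_pos (2 * l + C₁)
        linarith
    _ = Real.exp (n * (L + Real.log 2)) := by rw [← Real.exp_nat_mul]
    _ ≤ Real.exp (2 * (d + 1) * l + (d + 1) * (C₁ + 2 * C₀ + Real.log 2)) := by
        refine Real.exp_le_exp.2 ?_
        have h3 : (n : ℝ) ≤ d + 1 := by exact_mod_cast hn1
        have h4 : (n : ℝ) * (L + Real.log 2) ≤ (d + 1) * (L + Real.log 2) :=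
          mul_le_mul_of_nonneg_right h3 (by linarith)
        refine h4.trans (le_of_eq ?_)
        rw [hL]
        ring

end Pool.Agent.FamK
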