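import Mathlib
import Pool.Agent.AVR.PtC
import Pool.Agent.FAM.Lines

set_option autoImplicit false

/-!
# The exponential tail: auxiliary estimates
-/

namespace Pool.Agent.FAM

open Polynomial

namespace Tail

/-- The logarithm of a polynomially bounded integer. -/
theorem log_le (B H : ℕ) (hH : 1 ≤ H) (z : ℤ) (hz : z ≠ 0) (h : |z| ≤ B * (H : ℤ) ^ B) :
    Real.log |(z : ℝ)| ≤ (Real.log B + B) * (1 + Real.log H) := by
  have h1 : (0 : ℝ) < |(z : ℝ)| := abs_pos.2 (by exact_mod_cast hz)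
  have h2 : |(z : ℝ)| ≤ B * (H : ℝ) ^ B := by exact_mod_cast h
  have hH0 : (0 : ℝ) < H := by exact_mod_cast hH
  have hB : B ≠ 0 := by
    rintro rfl
    norm_num at h2
    exact hz h2
  have hB0 : (0 : ℝ) < B := by exact_mod_cast Nat.pos_of_ne_zero hB
  have h3 := Real.log_le_log h1 h2
  rw [Real.log_mul hB0.ne' (by positivity), Real.log_pow] at h3
  have h4 : 0 ≤ Real.log H := Real.log_natCast_nonneg _
  have h5 : 0 ≤ Real.log (B : ℝ) := Real.log_natCast_nonneg _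
  nlinarith [mul_nonneg h5 h4]

/-- The integral part of the `k`-th root of `H`. -/
theorem root (H k : ℕ) (hH : 1 ≤ H) (hk : 1 ≤ k) (h : (k : ℝ) ^ 2 ≤ Real.log H) :
    ∃ y : ℕ, 2 ≤ y ∧ y ^ k ≤ H ∧ H < (y + 1) ^ k ∧
      (k : ℝ) / y ≤ 4 * Real.exp (-(1 / 2 * k)) := by
  set y := Nat.findGreatest (fun y => y ^ k ≤ H) H with hy
  have h1 : y ^ k ≤ H := Nat.findGreatest_spec (P := fun y => y ^ k ≤ H) hH (by simpa using hH)
  have h2 : H < (y + 1) ^ k := by
    by_contra hc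
    rw [not_lt] at hc
    have h3 : y + 1 ≤ H := (Nat.le_self_pow (by omega) _).trans hc
    exact Nat.findGreatest_is_greatest (P := fun y => y ^ k ≤ H) (Nat.lt_succ_self _) h3 hc
  have hH0 : (0 : ℝ) < H := by exact_mod_cast hH
  have hk1 : (1 : ℝ) ≤ k := by exact_mod_cast hk
  have h3 : Real.exp k < y + 1 := by
    have h4 : Real.exp k ^ k ≤ H := by
      rw [← Real.exp_nat_mul, ← pow_two, ← Real.exp_log hH0]
      exact Real.exp_le_exp.2 h
    have h5 : (H : ℝ) < ((y : ℝ) + 1) ^ k := by exact_mod_cast h2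
    exact lt_of_pow_lt_pow_left₀ k (by positivity) (h4.trans_lt h5)
  have h4 : (2 : ℝ) < Real.exp k := by
    have := Real.add_one_lt_exp (x := k) (by linarith)
    linarith
  have h5 : 2 ≤ y := by
    have h6 : (2 : ℝ) < y + 1 := by linarith
    have h7 : 2 < y + 1 := by exact_mod_cast h6
    omega
  have hy0 : (0 : ℝ) < y := by exact_mod_cast (by omega : 0 < y)
  refine ⟨y, h5, h1, h2, ?_⟩
  rw [div_le_iff₀ hy0]
  have h6 : Real.exp k / 2 ≤ y := by linarith
  have h7 : (k : ℝ) ≤ 2 * Real.exp (1 / 2 * k) := by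
    have := Real.add_one_le_exp (1 / 2 * (k : ℝ))
    linarith
  have h8 : Real.exp (-(1 / 2 * (k : ℝ))) * Real.exp k = Real.exp (1 / 2 * k) := by
    rw [← Real.exp_add]
    congr 1
    ring
  calc (k : ℝ) ≤ 2 * Real.exp (1 / 2 * k) := h7
    _ = 4 * Real.exp (-(1 / 2 * k)) * (Real.exp k / 2) := by rw [← h8]; ring
    _ ≤ 4 * Real.exp (-(1 / 2 * k)) * y := mul_le_mul_of_nonneg_left h6 (by positivity)

/-- `e ^ k ≤ H` if `k ^ 2 ≤ log H`. -/
theorem exp_le (H k : ℕ) (hH : 1 ≤ H) (hk : 1 ≤ k) (h : (k : ℝ) ^ 2 ≤ Real.log H) :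
    Real.exp k ≤ H := by
  have hH0 : (0 : ℝ) < H := by exact_mod_cast hH
  have hk1 : (1 : ℝ) ≤ k := by exact_mod_cast hk
  rw [← Real.exp_log hH0]
  exact Real.exp_le_exp.2 (by nlinarith)

open Classical in
/-- The zeros of a polynomial, in terms of `k`. -/
theorem zeros_exp {r : ℕ} (E : MvPolynomial (Fin r) ℤ) (hE : E ≠ 0) : ∃ C : ℝ, 0 ≤ C ∧
    ∀ H k : ℕ, 1 ≤ H → 1 ≤ k → (k : ℝ) ^ 2 ≤ Real.log H →
    (((Cube r H).filter (fun s => MvPolynomial.eval s E = 0)).card : ℝ) ≤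
      C * Real.exp (-(1 / 2 * k)) * (2 * H + 1) ^ r := by
  obtain ⟨C, hC⟩ := zeros E hE
  refine ⟨C, Nat.cast_nonneg _, fun H k hH hk hkH => ?_⟩
  have h1 : ((2 * H + 1 : ℕ) : ℝ) * (((Cube r H).filter
      (fun s => MvPolynomial.eval s E = 0)).card : ℝ) ≤ C * ((2 * H + 1 : ℕ) : ℝ) ^ r := by
    exact_mod_cast hC H
  push_cast at h1
  have h2 := exp_le H k hH hk hkH
  have hH0 : (0 : ℝ) < H := by exact_mod_cast hH
  have hk0 : (0 : ℝ) ≤ k := Nat.cast_nonneg _
  have h3 : Real.exp (1 / 2 * k) ≤ 2 * H + 1 := by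
    have : Real.exp (1 / 2 * (k : ℝ)) ≤ Real.exp k := Real.exp_le_exp.2 (by linarith)
    linarith
  have h4 := (mul_le_mul_of_nonneg_right h3 (Nat.cast_nonneg (α := ℝ)
    ((Cube r H).filter (fun s => MvPolynomial.eval s E = 0)).card)).trans h1
  have h5 : Real.exp (-(1 / 2 * (k : ℝ))) * Real.exp (1 / 2 * k) = 1 := by
    rw [← Real.exp_add, neg_add_cancel, Real.exp_zero]
  calc (((Cube r H).filter (fun s => MvPolynomial.eval s E = 0)).card : ℝ)
      = Real.exp (-(1 / 2 * (k : ℝ))) * (Real.exp (1 / 2 * k) *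
        (((Cube r H).filter (fun s => MvPolynomial.eval s E = 0)).card : ℝ)) := by
        rw [← mul_assoc, h5, one_mul]
    _ ≤ Real.exp (-(1 / 2 * (k : ℝ))) * (C * (2 * H + 1) ^ r) :=
        mul_le_mul_of_nonneg_left h4 (Real.exp_pos _).le
    _ = C * Real.exp (-(1 / 2 * k)) * (2 * H + 1) ^ r := by ring

/-- `1 ≤ (k log (k + 1)) / log 2`. -/
theorem one_le (k : ℕ) (hk : 1 ≤ k) : 1 ≤ 1 / Real.log 2 * (k * Real.log (k + 1)) := by
  have hlog2 : 0 < Real.log 2 := Real.log_pos (by norm_num)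
  have hk1 : (1 : ℝ) ≤ k := by exact_mod_cast hk
  have h1 : Real.log 2 ≤ Real.log (k + 1) := Real.log_le_log (by norm_num) (by linarith)
  rw [one_div, inv_mul_eq_div, le_div_iff₀ hlog2]
  nlinarith

/-- A proportion of the logarithmic size at a large prime. -/
theorem exists_Q (A a b : ℝ) (hA : 0 ≤ A) (ha : 0 < a) (hb : 0 ≤ b) : ∃ Q : ℕ,
    ∀ (R : ℝ) (H k p : ℕ), 1 ≤ H → 1 ≤ k → R ≤ A * (1 + Real.log H) → p.Prime → H < p ^ k →
    R ≤ (((Q + 1) * k : ℕ) : ℝ) * (1 + max 0 (a * Real.log p - b)) := by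
  obtain ⟨Q, hQ⟩ := exists_nat_ge (A * (1 / Real.log 2 + 1) * ((1 + b) / a))
  refine ⟨Q, fun R H k p hH hk hR hp hHp => ?_⟩
  have hk1 : (1 : ℝ) ≤ k := by exact_mod_cast hk
  have hlog2 : 0 < Real.log 2 := Real.log_pos (by norm_num)
  have hp2 : Real.log 2 ≤ Real.log p :=
    Real.log_le_log (by norm_num) (by exact_mod_cast hp.two_le)
  have hlp : 0 < Real.log p := by linarith
  set l : ℝ := max 0 (a * Real.log p - b) with hl
  have h1 : Real.log H ≤ k * Real.log p := by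
    rw [← Real.log_pow]
    refine Real.log_le_log (by exact_mod_cast hH) ?_
    exact_mod_cast hHp.le
  have h2 : 1 + Real.log H ≤ (1 / Real.log 2 + 1) * (k * Real.log p) := by
    have h3 : 1 ≤ 1 / Real.log 2 * (k * Real.log p) := by
      rw [one_div, inv_mul_eq_div, le_div_iff₀ hlog2]
      nlinarith
    linarith
  have h3 := AVR.PtC.one_add_max a b (Real.log p) ha hb hlp.le
  have h6 : A * (1 + Real.log H) ≤ A * ((1 / Real.log 2 + 1) * (k * Real.log p)) :=
    mul_le_mul_of_nonneg_left h2 hA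
  have h7 : A * (1 / Real.log 2 + 1) * k * Real.log p ≤
      A * (1 / Real.log 2 + 1) * k * ((1 + b) / a * (1 + l)) :=
    mul_le_mul_of_nonneg_left h3 (by positivity)
  have h8 : A * (1 / Real.log 2 + 1) * ((1 + b) / a) * (k * (1 + l)) ≤
      (Q + 1) * (k * (1 + l)) := by
    refine mul_le_mul_of_nonneg_right (by linarith) ?_
    have : 0 ≤ l := le_max_left _ _
    positivity
  push_cast
  nlinarith

/-- A proportion of the logarithmic size at an archimedean place. -/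
theorem exists_Q_inf (A a b : ℝ) (hA : 0 ≤ A) (ha : 0 < a) (hb : 0 ≤ b) : ∃ Q : ℕ,
    ∀ (R : ℝ) (H : ℕ), R ≤ A * (1 + Real.log H) →
    R ≤ ((Q + 1 : ℕ) : ℝ) ∨ R ≤ ((Q + 1 : ℕ) : ℝ) * (1 + (a * Real.log H - b)) := by
  obtain ⟨Q, hQ⟩ := exists_nat_ge (A * (1 + (2 + 2 * b) / a))
  refine ⟨Q, fun R H hR => ?_⟩
  have hlogH : 0 ≤ Real.log H := Real.log_natCast_nonneg _
  have h2 : (0 : ℝ) ≤ (2 + 2 * b) / a := by positivity
  rcases le_total (a * Real.log H) (2 * b) with hle | hle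
  · left
    have h3 : Real.log H ≤ (2 + 2 * b) / a := by
      rw [le_div_iff₀ ha]
      linarith
    have h5 : A * (1 + Real.log H) ≤ A * (1 + (2 + 2 * b) / a) :=
      mul_le_mul_of_nonneg_left (by linarith) hA
    push_cast
    linarith
  · right
    set l : ℝ := a * Real.log H - b with hl
    have hl0 : 0 ≤ l := by linarith
    have h3 : Real.log H ≤ (2 + 2 * b) / a * (1 + l) := by
      have h4 : Real.log H = (a * Real.log H) / a := by
        field_simp
      rw [h4, div_mul_eq_mul_div, div_le_div_iff_of_pos_right ha]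
      nlinarith
    have h5 : A * (1 + Real.log H) ≤ A * ((1 + (2 + 2 * b) / a) * (1 + l)) := by
      refine mul_le_mul_of_nonneg_left ?_ hA
      linarith
    have h6 : A * (1 + (2 + 2 * b) / a) * (1 + l) ≤ (Q + 1) * (1 + l) :=
      mul_le_mul_of_nonneg_right (by linarith) (by linarith)
    push_cast
    nlinarith

/-- The final constant at a large prime. -/
theorem count_le (C : ℝ) (hC : 0 ≤ C) (Q k : ℕ) :
    C * ((((Q + 1) * k : ℕ) : ℝ) * Real.log ((((Q + 1) * k : ℕ) : ℝ) + 1)) ≤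
      C * ((Q + 1 : ℕ) : ℝ) ^ 2 * (k * Real.log (k + 1)) := by
  have h6 := AVR.PtC.log_mul_le (Q + 1) k
  have h8 : (((Q + 1) * k : ℕ) : ℝ) * Real.log ((((Q + 1) * k : ℕ) : ℝ) + 1) ≤
      (((Q + 1) * k : ℕ) : ℝ) * (((Q + 1 : ℕ) : ℝ) * Real.log (k + 1)) :=
    mul_le_mul_of_nonneg_left h6 (Nat.cast_nonneg _)
  have h9 := mul_le_mul_of_nonneg_left h8 hC
  refine h9.trans (le_of_eq ?_)
  push_cast
  ring

end Tail

end Pool.Agent.FAM
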