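import Mathlib
import Pool.Agent.FAM.KDefs
import Pool.Agent.FAM.KS
import Pool.Agent.FAM.KNorm
import Pool.Agent.FAM.KBad
import Pool.Agent.FAM.KGlue
import Pool.Agent.FAM.LargeG
import Pool.Agent.FAM.TailAux
import Pool.Agent.GPoly.Places

set_option autoImplicit false

/-!
# The exponential tail in every algebraic family over a number field
-/

namespace Pool.Agent.FamK

open Polynomial NumberField IsDedekindDomain
open Pool.Agent.FAM (Cube itP)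
open Pool.Agent.GPoly (av lq av_int_le_pow av_int_eq_one)
open Pool.Agent.RI (resSet)

variable {K : Type} [Field K] [NumberField K]

namespace KTail

theorem absNorm_ge (v : HeightOneSpectrum (𝓞 K)) (p : ℕ) (hp : p.Prime)
    (hv : (p : 𝓞 K) ∈ v.asIdeal) : p ≤ Ideal.absNorm v.asIdeal := by
  have h1 : ((Ideal.absNorm v.asIdeal : ℕ) : 𝓞 K) ∈ v.asIdeal := Ideal.absNorm_mem v.asIdeal
  have h0 : Ideal.absNorm v.asIdeal ≠ 0 := by
    have := NumberField.HeightOneSpectrum.one_lt_absNorm v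
    omega
  refine Nat.le_of_dvd (Nat.pos_of_ne_zero h0) ?_
  by_contra hnd
  have h2 : IsCoprime ((p : ℕ) : ℤ) ((Ideal.absNorm v.asIdeal : ℕ) : ℤ) :=
    Nat.isCoprime_iff_coprime.2 ((Nat.Prime.coprime_iff_not_dvd hp).2 hnd)
  obtain ⟨a, b, hab⟩ := h2
  have h3 : ((a : ℤ) : 𝓞 K) * (p : 𝓞 K) +
      ((b : ℤ) : 𝓞 K) * ((Ideal.absNorm v.asIdeal : ℕ) : 𝓞 K) = 1 := by
    exact_mod_cast congrArg (Int.cast : ℤ → 𝓞 K) hab
  have h4 : (1 : 𝓞 K) ∈ v.asIdeal := by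
    rw [← h3]
    exact Ideal.add_mem _ (Ideal.mul_mem_left _ _ hv) (Ideal.mul_mem_left _ _ h1)
  exact v.isPrime.ne_top ((Ideal.eq_top_iff_one _).2 h4)

theorem av_le (v : HeightOneSpectrum (𝓞 K)) (p : ℕ) (hp : p.Prime)
    (hv : (p : 𝓞 K) ∈ v.asIdeal) (x : 𝓞 K) (hx : x ∈ v.asIdeal) :
    av v (algebraMap (𝓞 K) K x) ≤ (p : ℝ)⁻¹ := by
  have h1 := (av_int_le_pow v x 1).1 (by rwa [pow_one])
  have hp0 : (0 : ℝ) < p := by exact_mod_cast hp.pos
  have h2 : (p : ℝ) ≤ (Ideal.absNorm v.asIdeal : ℝ) := by exact_mod_cast absNorm_ge v p hp hv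
  refine h1.trans ?_
  rw [Nat.cast_one, one_mul, lq, Real.exp_neg, Real.exp_log (by linarith)]
  exact inv_anti₀ hp0 h2

/-- `sigma` at a large prime. -/
theorem lamV (d : ℕ) (C : ℝ) (F G : (𝓞 K)[X]) (U V : 𝓞 K)
    (h : ∀ {M : Type} [NormedField M] [IsAlgClosed M] (φ : K →+* M),
      (∃ e : M, e ≠ 0 ∧ ‖e‖ ≠ 1) →
      ∀ l ∈ resSet d (F.map (φ.comp (algebraMap (𝓞 K) K)))
        (G.map (φ.comp (algebraMap (𝓞 K) K))),
      ‖φ (U : K)‖ ≤ ‖φ (V : K)‖ * Real.exp (2 * (d + 1) * l + C))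
    (v : HeightOneSpectrum (𝓞 K)) (p : ℕ) (hp : p.Prime) (hpv : (p : 𝓞 K) ∈ v.asIdeal)
    (hV : V ∈ v.asIdeal) (hU : U ∉ v.asIdeal) :
    LamV d F G v (max 0 (1 / (2 * (d + 1)) * Real.log p - C / (2 * (d + 1)))) := by
  intro E _ _ _ φ hφ r hr
  refine max_le (RI.resSet_nonneg d _ _ r hr) ?_
  have hp1 : (1 : ℝ) < p := by exact_mod_cast hp.one_lt
  have hp0 : (0 : ℝ) < p := by linarith
  have he : ∃ e : E, e ≠ 0 ∧ ‖e‖ ≠ 1 := by
    refine ⟨φ (algebraMap (𝓞 K) K (p : 𝓞 K)), ?_, ?_⟩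
    · rw [_root_.map_ne_zero, map_natCast]
      exact_mod_cast hp.ne_zero
    · rw [hφ]
      exact ((av_le v p hp hpv _ hpv).trans_lt (inv_lt_one_of_one_lt₀ hp1)).ne
  have h1 := h φ he r hr
  rw [hφ, hφ] at h1
  have h2 : av v (U : K) = 1 := (av_int_eq_one v U).2 hU
  have h3 : av v (V : K) ≤ (p : ℝ)⁻¹ := av_le v p hp hpv V hV
  rw [h2] at h1
  have h3 : 1 ≤ (p : ℝ)⁻¹ * Real.exp (2 * (d + 1) * r + C) :=
    h1.trans (mul_le_mul_of_nonneg_right h3 (Real.exp_pos _).le)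
  have h4 : (p : ℝ) ≤ Real.exp (2 * (d + 1) * r + C) := by
    rw [inv_mul_eq_div, le_div_iff₀ hp0, one_mul] at h3
    exact h3
  have h5 := Real.log_le_log hp0 h4
  rw [Real.log_exp] at h5
  have hd0 : (0 : ℝ) < 2 * (d + 1) := by positivity
  rw [one_div, inv_mul_eq_div, ← sub_div, div_le_iff₀ hd0]
  linarith

/-- Some embedding is at least as large as the norm on average. -/
theorem exists_emb (x : 𝓞 K) (hx : x ≠ 0) : ∃ σ : K →+* ℂ,
    Real.log |((Algebra.norm ℤ x : ℤ) : ℝ)| / Module.finrank ℚ K ≤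
      Real.log ‖σ (x : K)‖ := by
  classical
  have h1 : ((Algebra.norm ℤ x : ℤ) : ℂ) = ∏ σ : K →ₐ[ℚ] ℂ, σ (x : K) := by
    have h2 := Algebra.norm_eq_prod_embeddings ℚ ℂ (x : K)
    rw [← Algebra.coe_norm_int] at h2
    rw [← h2]
    simp
  have hx' : (x : K) ≠ 0 := by
    exact (map_ne_zero_iff (algebraMap (𝓞 K) K) RingOfIntegers.coe_injective).2 hx
  have h2 : Real.log |((Algebra.norm ℤ x : ℤ) : ℝ)| = ∑ σ : K →ₐ[ℚ] ℂ, Real.log ‖σ (x : K)‖ := by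
    rw [← Complex.norm_intCast, h1, norm_prod, Real.log_prod]
    intro σ _
    rw [norm_ne_zero_iff, _root_.map_ne_zero]
    exact hx'
  have hcard : Fintype.card (K →ₐ[ℚ] ℂ) = Module.finrank ℚ K := AlgHom.card ℚ K ℂ
  have hpos : 0 < Module.finrank ℚ K := Module.finrank_pos
  have hne : (Finset.univ : Finset (K →ₐ[ℚ] ℂ)).Nonempty := by
    rw [← Finset.card_pos, Finset.card_univ, hcard]
    exact hpos
  have h3 : ∑ _σ : K →ₐ[ℚ] ℂ, Real.log |((Algebra.norm ℤ x : ℤ) : ℝ)| / Module.finrank ℚ K ≤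
      ∑ σ : K →ₐ[ℚ] ℂ, Real.log ‖σ (x : K)‖ := by
    rw [Finset.sum_const, Finset.card_univ, hcard, nsmul_eq_mul, ← h2,
      mul_div_cancel₀]
    exact_mod_cast hpos.ne'
  obtain ⟨σ, -, hσ⟩ := Finset.exists_le_of_sum_le hne h3
  exact ⟨σ.toRingHom, hσ⟩

/-- `sigma` at an archimedean place. -/
theorem lamS (d : ℕ) (C B : ℝ) (F G : (𝓞 K)[X]) (U V : 𝓞 K) (hV : V ≠ 0)
    (hB : ∀ σ : K →+* ℂ, Real.log ‖σ (V : K)‖ ≤ B) (H : ℕ) (hH : 1 ≤ H)
    (hU : (H : ℤ) ≤ (Algebra.norm ℤ U) ^ 2)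
    (h : ∀ {M : Type} [NormedField M] [IsAlgClosed M] (φ : K →+* M),
      (∃ e : M, e ≠ 0 ∧ ‖e‖ ≠ 1) →
      ∀ l ∈ resSet d (F.map (φ.comp (algebraMap (𝓞 K) K)))
        (G.map (φ.comp (algebraMap (𝓞 K) K))),
      ‖φ (U : K)‖ ≤ ‖φ (V : K)‖ * Real.exp (2 * (d + 1) * l + C)) :
    ∃ σ : K →+* ℂ, LamS d F G σ
      (1 / (4 * Module.finrank ℚ K * (d + 1)) * Real.log H - (B + C) / (2 * (d + 1))) := by
  have hH0 : (0 : ℝ) < H := by exact_mod_cast hH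
  have hU2 : (H : ℝ) ≤ |((Algebra.norm ℤ U : ℤ) : ℝ)| ^ 2 := by
    rw [sq_abs]
    exact_mod_cast hU
  have hU0 : U ≠ 0 := by
    rintro rfl
    rw [Algebra.norm_zero] at hU2
    norm_num at hU2
    linarith
  obtain ⟨σ, hσ⟩ := exists_emb U hU0
  refine ⟨σ, fun r hr => ?_⟩
  have h1 := h (M := ℂ) σ ⟨2, two_ne_zero, by norm_num⟩ r hr
  have hU' : 0 < ‖σ (U : K)‖ := by
    rw [norm_pos_iff, _root_.map_ne_zero]
    exact (map_ne_zero_iff (algebraMap (𝓞 K) K) RingOfIntegers.coe_injective).2 hU0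
  have hV' : 0 < ‖σ (V : K)‖ := by
    rw [norm_pos_iff, _root_.map_ne_zero]
    exact (map_ne_zero_iff (algebraMap (𝓞 K) K) RingOfIntegers.coe_injective).2 hV
  have h2 := Real.log_le_log hH0 hU2
  rw [Real.log_pow] at h2
  push_cast at h2
  have h3 := Real.log_le_log hU' h1
  rw [Real.log_mul hV'.ne' (Real.exp_pos _).ne', Real.log_exp] at h3
  have hn : (0 : ℝ) < Module.finrank ℚ K := by exact_mod_cast Module.finrank_pos (R := ℚ) (M := K)
  have hd0 : (0 : ℝ) < 2 * (d + 1) := by positivity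
  have h4 : 1 / (4 * (Module.finrank ℚ K : ℝ) * ((d : ℝ) + 1)) * Real.log H =
      Real.log H / 2 / Module.finrank ℚ K / (2 * (d + 1)) := by
    field_simp
    ring
  rw [h4, ← sub_div, div_le_iff₀ hd0]
  have h5 : Real.log H / 2 / Module.finrank ℚ K ≤
      Real.log |((Algebra.norm ℤ U : ℤ) : ℝ)| / Module.finrank ℚ K := by
    apply div_le_div_of_nonneg_right _ hn.le
    linarith
  have h6 := hB σ
  linarith

open Classical in
/-- The zeros of a polynomial, in terms of `k`. -/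
theorem zeros_exp {r : ℕ} (E : MvPolynomial (Fin r) (𝓞 K)) (hE : E ≠ 0) : ∃ C : ℝ, 0 ≤ C ∧
    ∀ H k : ℕ, 1 ≤ H → 1 ≤ k → (k : ℝ) ^ 2 ≤ Real.log H →
    (((Cube r H).filter (fun s => ev s E = 0)).card : ℝ) ≤
      C * Real.exp (-(1 / 2 * k)) * (2 * H + 1) ^ r := by
  obtain ⟨W, hW, hW0, -⟩ := norm_poly E
  obtain ⟨C, hC, h⟩ := FAM.Tail.zeros_exp W (hW0 hE)
  refine ⟨C, hC, fun H k hH hk hkH => le_trans ?_ (h H k hH hk hkH)⟩
  have h1 : (Cube r H).filter (fun s => ev s E = 0) ⊆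
      (Cube r H).filter (fun s => MvPolynomial.eval s W = 0) := by
    intro s hs
    rw [Finset.mem_filter] at hs ⊢
    refine ⟨hs.1, ?_⟩
    rw [hW, hs.2, Algebra.norm_zero]
  exact_mod_cast Finset.card_le_card h1

open Classical in
/-- The tail when `V` is not constant. -/
theorem caseA (N : ℕ) {r d : ℕ} (hd : 2 ≤ d) (F G : (MvPolynomial (Fin r) (𝓞 K))[X])
    (hF : F.natDegree ≤ d) (hG : G.natDegree ≤ d) (A : ℝ) (hA0 : 0 ≤ A)
    (hA : ∀ H : ℕ, 1 ≤ H → ∀ s ∈ Cube r H, resultant (spec s F) (spec s G) d d ≠ 0 →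
      Real.log |((Algebra.norm ℤ (resultant (spec s F) (spec s G) d d) : ℤ) : ℝ)| ≤
        A * (1 + Real.log H))
    (U V E : MvPolynomial (Fin r) (𝓞 K)) (C : ℝ)
    (hUV : IsRelPrime (MvPolynomial.map (algebraMap (𝓞 K) K) U)
        (MvPolynomial.map (algebraMap (𝓞 K) K) V)) (hE : E ≠ 0)
    (hV : 1 ≤ V.totalDegree) (hC : 0 ≤ C)
    (h : ∀ s : Fin r → ℤ, ev s E ≠ 0 →
      ev s V ≠ 0 ∧ resultant (spec s F) (spec s G) d d ≠ 0 ∧
      ∀ {M : Type} [NormedField M] [IsAlgClosed M] (φ : K →+* M), (∃ e : M, e ≠ 0 ∧ ‖e‖ ≠ 1) →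
      ∀ l ∈ resSet d ((spec s F).map (φ.comp (algebraMap (𝓞 K) K)))
        ((spec s G).map (φ.comp (algebraMap (𝓞 K) K))),
      ‖φ (ev s U : 𝓞 K)‖ ≤ ‖φ (ev s V : 𝓞 K)‖ * Real.exp (2 * (d + 1) * l + C)) :
    ∃ C₀ C₁ c : ℝ, 0 ≤ C₀ ∧ 0 ≤ C₁ ∧ 0 < c ∧
    ∀ H k : ℕ, 1 ≤ H → 1 ≤ k → (k : ℝ) ^ 2 ≤ Real.log H →
    (((Cube r H).filter (fun s =>
      C₀ * (k * Real.log (k + 1)) < (Pts N d (spec s F) (spec s G)).ncard)).card : ℝ) ≤
      C₁ * Real.exp (-(c * k)) * (2 * H + 1) ^ r := by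
  have hd1 : (0 : ℝ) < d + 1 := by positivity
  obtain ⟨C₀, hC₀, hglue⟩ := glue K N d hd
  obtain ⟨Q, hQ⟩ := FAM.Tail.exists_Q A (1 / (2 * (d + 1))) (C / (2 * (d + 1))) hA0
    (by positivity) (by positivity)
  obtain ⟨CL, cL, hCL, hcL, hlarge⟩ := large_prime U V hUV hV
  obtain ⟨CE, hCE, hzero⟩ := zeros_exp E hE
  refine ⟨C₀ * ((Q + 1 : ℕ) : ℝ) ^ 2, CE + CL * 5, min cL (1 / 2), by positivity, by positivity,
    by positivity, ?_⟩
  intro H k hH hk hkH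
  obtain ⟨y, hy2, hyk, hHy, hky⟩ := FAM.Tail.root H k hH hk hkH
  have hk0 : (0 : ℝ) ≤ k := Nat.cast_nonneg _
  have hsub : (Cube r H).filter (fun s => C₀ * ((Q + 1 : ℕ) : ℝ) ^ 2 * (k * Real.log (k + 1)) <
      (Pts N d (spec s F) (spec s G)).ncard) ⊆
      (Cube r H).filter (fun s => ev s E = 0) ∪
      (Cube r H).filter (fun s => ev s V ≠ 0 ∧ ¬ ∃ (p : ℕ) (v : HeightOneSpectrum (𝓞 K)),
        p.Prime ∧ y < p ∧ (p : 𝓞 K) ∈ v.asIdeal ∧ ev s V ∈ v.asIdeal ∧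
        ev s U ∉ v.asIdeal) := by
    intro s hs
    rw [Finset.mem_filter] at hs
    rw [Finset.mem_union, Finset.mem_filter, Finset.mem_filter]
    by_contra hcon
    rw [not_or] at hcon
    obtain ⟨hc1, hc2⟩ := hcon
    have hEs : ev s E ≠ 0 := fun h0 => hc1 ⟨hs.1, h0⟩
    obtain ⟨hVs, hRs, hK⟩ := h s hEs
    have hps : ∃ (p : ℕ) (v : HeightOneSpectrum (𝓞 K)),
        p.Prime ∧ y < p ∧ (p : 𝓞 K) ∈ v.asIdeal ∧ ev s V ∈ v.asIdeal ∧
        ev s U ∉ v.asIdeal := by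
      by_contra h0
      exact hc2 ⟨hs.1, hVs, h0⟩
    obtain ⟨p, v, hp, hyp, hpv, hpV, hpU⟩ := hps
    have hHp : H < p ^ k := hHy.trans_le (Nat.pow_le_pow_left (by omega) k)
    have h1 := hglue (spec s F) (spec s G) (spec_natDegree_le s F hF) (spec_natDegree_le s G hG)
      hRs ((Q + 1) * k) (Nat.mul_pos (Nat.succ_pos _) hk)
      (Or.inl ⟨v, _, lamV d C _ _ _ _ hK v p hp hpv hpV hpU,
        hQ _ H k p hH hk (hA H hH s hs.1 hRs) hp hHp⟩)
    exact absurd hs.2 (not_lt.2 (h1.2.trans (FAM.Tail.count_le C₀ hC₀ Q k)))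
  have h1 : (((Cube r H).filter (fun s => C₀ * ((Q + 1 : ℕ) : ℝ) ^ 2 * (k * Real.log (k + 1)) <
      (Pts N d (spec s F) (spec s G)).ncard)).card : ℝ) ≤
      (((Cube r H).filter (fun s => ev s E = 0)).card : ℝ) +
      (((Cube r H).filter (fun s => ev s V ≠ 0 ∧ ¬ ∃ (p : ℕ) (v : HeightOneSpectrum (𝓞 K)),
        p.Prime ∧ y < p ∧ (p : 𝓞 K) ∈ v.asIdeal ∧ ev s V ∈ v.asIdeal ∧
        ev s U ∉ v.asIdeal)).card : ℝ) := by
    exact_mod_cast (Finset.card_le_card hsub).trans (Finset.card_union_le _ _)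
  have h2 := hzero H k hH hk hkH
  have h3 := hlarge H y k hy2 hk hyk hHy
  have hc1 : Real.exp (-(1 / 2 * (k : ℝ))) ≤ Real.exp (-(min cL (1 / 2) * k)) := by
    refine Real.exp_le_exp.2 (neg_le_neg ?_)
    exact mul_le_mul_of_nonneg_right (min_le_right _ _) hk0
  have hc2 : Real.exp (-(cL * (k : ℝ))) ≤ Real.exp (-(min cL (1 / 2) * k)) := by
    refine Real.exp_le_exp.2 (neg_le_neg ?_)
    exact mul_le_mul_of_nonneg_right (min_le_left _ _) hk0
  have hP : (0 : ℝ) ≤ (2 * (H : ℝ) + 1) ^ r := by positivity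
  set e := Real.exp (-(min cL (1 / 2) * k)) with he
  have h4 : CE * Real.exp (-(1 / 2 * k)) * (2 * (H : ℝ) + 1) ^ r ≤ CE * e * (2 * (H : ℝ) + 1) ^ r :=
    mul_le_mul_of_nonneg_right (mul_le_mul_of_nonneg_left hc1 hCE) hP
  have h5 : CL * (Real.exp (-(cL * k)) + k / y) * (2 * (H : ℝ) + 1) ^ r ≤
      CL * (5 * e) * (2 * (H : ℝ) + 1) ^ r := by
    refine mul_le_mul_of_nonneg_right (mul_le_mul_of_nonneg_left ?_ hCL.le) hP
    linarith
  calc _ ≤ _ := h1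
    _ ≤ CE * e * (2 * (H : ℝ) + 1) ^ r + CL * (5 * e) * (2 * (H : ℝ) + 1) ^ r := by linarith
    _ = (CE + CL * 5) * e * (2 * (H : ℝ) + 1) ^ r := by ring

open Classical in
/-- The tail when `V` is constant. -/
theorem caseB (N : ℕ) {r d : ℕ} (hd : 2 ≤ d) (F G : (MvPolynomial (Fin r) (𝓞 K))[X])
    (hF : F.natDegree ≤ d) (hG : G.natDegree ≤ d) (A : ℝ) (hA0 : 0 ≤ A)
    (hA : ∀ H : ℕ, 1 ≤ H → ∀ s ∈ Cube r H, resultant (spec s F) (spec s G) d d ≠ 0 →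
      Real.log |((Algebra.norm ℤ (resultant (spec s F) (spec s G) d d) : ℤ) : ℝ)| ≤
        A * (1 + Real.log H))
    (U E : MvPolynomial (Fin r) (𝓞 K)) (v : 𝓞 K) (C : ℝ) (hv : v ≠ 0) (hE : E ≠ 0)
    (hU : 1 ≤ U.totalDegree) (hC : 0 ≤ C)
    (h : ∀ s : Fin r → ℤ, ev s E ≠ 0 →
      resultant (spec s F) (spec s G) d d ≠ 0 ∧
      ∀ {M : Type} [NormedField M] [IsAlgClosed M] (φ : K →+* M), (∃ e : M, e ≠ 0 ∧ ‖e‖ ≠ 1) →
      ∀ l ∈ resSet d ((spec s F).map (φ.comp (algebraMap (𝓞 K) K)))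
        ((spec s G).map (φ.comp (algebraMap (𝓞 K) K))),
      ‖φ (ev s U : 𝓞 K)‖ ≤ ‖φ (v : 𝓞 K)‖ * Real.exp (2 * (d + 1) * l + C)) :
    ∃ C₀ C₁ c : ℝ, 0 ≤ C₀ ∧ 0 ≤ C₁ ∧ 0 < c ∧
    ∀ H k : ℕ, 1 ≤ H → 1 ≤ k → (k : ℝ) ^ 2 ≤ Real.log H →
    (((Cube r H).filter (fun s =>
      C₀ * (k * Real.log (k + 1)) < (Pts N d (spec s F) (spec s G)).ncard)).card : ℝ) ≤
      C₁ * Real.exp (-(c * k)) * (2 * H + 1) ^ r := by
  have hd1 : (0 : ℝ) < d + 1 := by positivity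
  have hn : (0 : ℝ) < Module.finrank ℚ K := by exact_mod_cast Module.finrank_pos (R := ℚ) (M := K)
  have hB : ∃ B : ℝ, 0 ≤ B ∧ ∀ σ : K →+* ℂ, Real.log ‖σ (v : K)‖ ≤ B := by
    refine ⟨∑ σ : K →+* ℂ, |Real.log ‖σ (v : K)‖|, Finset.sum_nonneg fun _ _ => abs_nonneg _,
      fun σ => (le_abs_self _).trans ?_⟩
    exact Finset.single_le_sum (f := fun σ : K →+* ℂ => |Real.log ‖σ (v : K)‖|)
      (fun _ _ => abs_nonneg _) (Finset.mem_univ σ)
  obtain ⟨B, hB0, hB⟩ := hB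
  obtain ⟨C₀, hC₀, hglue⟩ := glue K N d hd
  obtain ⟨Q, hQ⟩ := FAM.Tail.exists_Q_inf A (1 / (4 * Module.finrank ℚ K * (d + 1)))
    ((B + C) / (2 * (d + 1))) hA0 (by positivity) (by positivity)
  obtain ⟨W, hW, -, hWdeg⟩ := norm_poly U
  obtain ⟨CB, hCB, hbig⟩ := FAM.big W (hWdeg hU)
  obtain ⟨CE, hCE, hzero⟩ := zeros_exp E hE
  have hlog2 : 0 < Real.log 2 := Real.log_pos (by norm_num)
  set D : ℝ := C₀ * (((Q + 1 : ℕ) : ℝ) * Real.log (((Q + 1 : ℕ) : ℝ) + 1)) with hD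
  have hD0 : 0 ≤ D := by
    refine mul_nonneg hC₀ (mul_nonneg (Nat.cast_nonneg _) (Real.log_nonneg ?_))
    have : (0 : ℝ) ≤ ((Q + 1 : ℕ) : ℝ) := Nat.cast_nonneg _
    linarith
  refine ⟨D * (1 / Real.log 2), CE + CB, 1 / 2, by positivity, by positivity, by norm_num, ?_⟩
  intro H k hH hk hkH
  have hH0 : (0 : ℝ) < H := by exact_mod_cast hH
  have hk0 : (0 : ℝ) ≤ k := Nat.cast_nonneg _
  have hsub : (Cube r H).filter (fun s => D * (1 / Real.log 2) * (k * Real.log (k + 1)) <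
      (Pts N d (spec s F) (spec s G)).ncard) ⊆
      (Cube r H).filter (fun s => ev s E = 0) ∪
      (Cube r H).filter (fun s => MvPolynomial.eval s W ^ 2 < H) := by
    intro s hs
    rw [Finset.mem_filter] at hs
    rw [Finset.mem_union, Finset.mem_filter, Finset.mem_filter]
    by_contra hcon
    rw [not_or] at hcon
    obtain ⟨hc1, hc2⟩ := hcon
    have hEs : ev s E ≠ 0 := fun h0 => hc1 ⟨hs.1, h0⟩
    have hUs : (H : ℤ) ≤ (Algebra.norm ℤ (ev s U)) ^ 2 := by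
      rw [← hW]
      by_contra h0
      exact hc2 ⟨hs.1, not_le.1 h0⟩
    obtain ⟨hRs, hK⟩ := h s hEs
    obtain ⟨σ, hσ⟩ := lamS d C B _ _ _ v hv hB H hH hUs hK
    have h1 : (Pts N d (spec s F) (spec s G)).Finite ∧
        ((Pts N d (spec s F) (spec s G)).ncard : ℝ) ≤ D := by
      rcases hQ _ H (hA H hH s hs.1 hRs) with h2 | h2
      · exact hglue (spec s F) (spec s G) (spec_natDegree_le s F hF) (spec_natDegree_le s G hG)
          hRs (Q + 1) (Nat.succ_pos _) (Or.inr (Or.inr h2))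
      · exact hglue (spec s F) (spec s G) (spec_natDegree_le s F hF) (spec_natDegree_le s G hG)
          hRs (Q + 1) (Nat.succ_pos _) (Or.inr (Or.inl ⟨σ, _, hσ, h2⟩))
    have h2 := mul_le_mul_of_nonneg_left (FAM.Tail.one_le k hk) hD0
    have h3 := hs.2
    rw [mul_one, ← mul_assoc] at h2
    linarith [h1.2]
  have h1 : (((Cube r H).filter (fun s => D * (1 / Real.log 2) * (k * Real.log (k + 1)) <
      (Pts N d (spec s F) (spec s G)).ncard)).card : ℝ) ≤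
      (((Cube r H).filter (fun s => ev s E = 0)).card : ℝ) +
      (((Cube r H).filter (fun s => MvPolynomial.eval s W ^ 2 < H)).card : ℝ) := by
    exact_mod_cast (Finset.card_le_card hsub).trans (Finset.card_union_le _ _)
  have h2 := hzero H k hH hk hkH
  have h3 := hbig H hH
  have hP : (0 : ℝ) ≤ (2 * (H : ℝ) + 1) ^ r := by positivity
  have h4 : CB * (2 * (H : ℝ) + 1) ^ r / Real.sqrt H ≤
      CB * Real.exp (-(1 / 2 * k)) * (2 * (H : ℝ) + 1) ^ r := by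
    rw [div_le_iff₀ (Real.sqrt_pos.2 hH0)]
    have h5 : 1 ≤ Real.exp (-(1 / 2 * k)) * Real.sqrt H := by
      have h6 : Real.exp (1 / 2 * k) ≤ Real.sqrt H := by
        refine Real.le_sqrt_of_sq_le ?_
        rw [← Real.exp_nat_mul]
        refine le_trans (Real.exp_le_exp.2 ?_) (FAM.Tail.exp_le H k hH hk hkH)
        push_cast
        linarith
      have h7 : Real.exp (-(1 / 2 * (k : ℝ))) * Real.exp (1 / 2 * k) = 1 := by
        rw [← Real.exp_add, neg_add_cancel, Real.exp_zero]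
      exact h7.symm.le.trans (mul_le_mul_of_nonneg_left h6 (Real.exp_pos _).le)
    have h6 : (0 : ℝ) ≤ CB * (2 * (H : ℝ) + 1) ^ r := mul_nonneg hCB.le hP
    calc CB * (2 * (H : ℝ) + 1) ^ r = CB * (2 * (H : ℝ) + 1) ^ r * 1 := (mul_one _).symm
      _ ≤ CB * (2 * (H : ℝ) + 1) ^ r * (Real.exp (-(1 / 2 * k)) * Real.sqrt H) :=
        mul_le_mul_of_nonneg_left h5 h6
      _ = CB * Real.exp (-(1 / 2 * k)) * (2 * (H : ℝ) + 1) ^ r * Real.sqrt H := by ring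
  calc _ ≤ _ := h1
    _ ≤ CE * Real.exp (-(1 / 2 * k)) * (2 * (H : ℝ) + 1) ^ r +
        CB * Real.exp (-(1 / 2 * k)) * (2 * (H : ℝ) + 1) ^ r := by linarith
    _ = (CE + CB) * Real.exp (-(1 / 2 * k)) * (2 * (H : ℝ) + 1) ^ r := by ring

end KTail

open KTail

open Classical in
/-- The exponential tail, and the bound for every member of the family. -/
theorem tail (N : ℕ) {r d : ℕ} (hd : 2 ≤ d) (F G : (MvPolynomial (Fin r) (𝓞 K))[X])
    (hF : F.natDegree ≤ d) (hG : G.natDegree ≤ d) (hR : resultant F G d d ≠ 0)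
    (hv : Varies1 F G) : ∃ C c : ℝ, 0 < C ∧ 0 < c ∧
    (∀ s : Fin r → ℤ, ev s (resultant F G d d) ≠ 0 → (Pts N d (spec s F) (spec s G)).Finite ∧
      ∀ H : ℕ, 1 ≤ H → s ∈ Cube r H →
        ((Pts N d (spec s F) (spec s G)).ncard : ℝ) ≤ C * (1 + Real.log H)) ∧
    ∀ H k : ℕ, 1 ≤ H → 1 ≤ k → (k : ℝ) ^ 2 ≤ Real.log H →
    (((Cube r H).filter (fun s => ev s (resultant F G d d) ≠ 0 ∧
      C * (k * Real.log (k + 1)) < (Pts N d (spec s F) (spec s G)).ncard)).card : ℝ) ≤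
      C * Real.exp (-(c * k)) * (2 * H + 1) ^ r := by
  obtain ⟨WR, hWR, -, -⟩ := norm_poly (resultant F G d d)
  obtain ⟨B, hB⟩ := FAM.size WR
  have hA0 : 0 ≤ Real.log (B : ℝ) + B := add_nonneg (Real.log_natCast_nonneg _) (Nat.cast_nonneg _)
  have hA : ∀ H : ℕ, 1 ≤ H → ∀ s ∈ Cube r H, resultant (spec s F) (spec s G) d d ≠ 0 →
      Real.log |((Algebra.norm ℤ (resultant (spec s F) (spec s G) d d) : ℤ) : ℝ)| ≤
        (Real.log B + B) * (1 + Real.log H) := by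
    intro H hH s hs hRs
    refine FAM.Tail.log_le B H hH _ (Algebra.norm_ne_zero_iff.2 hRs) ?_
    rw [spec_res, ← hWR]
    exact hB H hH s hs
  obtain ⟨U, V, E, C, hUV, hV0, hE, hdeg, hC, hs⟩ := sigma (by omega) F G hF hG hR hv
  obtain ⟨Cg, hCg, hglue⟩ := glue_all K N d hd
  have key : ∃ C₀ C₁ c : ℝ, 0 ≤ C₀ ∧ 0 ≤ C₁ ∧ 0 < c ∧
      ∀ H k : ℕ, 1 ≤ H → 1 ≤ k → (k : ℝ) ^ 2 ≤ Real.log H →
      (((Cube r H).filter (fun s =>
        C₀ * (k * Real.log (k + 1)) < (Pts N d (spec s F) (spec s G)).ncard)).card : ℝ) ≤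
        C₁ * Real.exp (-(c * k)) * (2 * H + 1) ^ r := by
    rcases Nat.eq_zero_or_pos V.totalDegree with h0 | h0
    · have hU : 1 ≤ U.totalDegree := by
        rw [Nat.one_le_iff_ne_zero]
        exact fun h1 => hdeg ⟨h1, h0⟩
      have hVC := MvPolynomial.totalDegree_eq_zero_iff_eq_C.1 h0
      set v : 𝓞 K := MvPolynomial.coeff 0 V with hv'
      have hvs : ∀ s : Fin r → ℤ, ev s V = v := by
        intro s
        rw [hVC, ev, MvPolynomial.eval_C]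
      have hv0 : v ≠ 0 := by
        intro h1
        rw [h1, map_zero] at hVC
        exact hV0 hVC
      refine caseB N hd F G hF hG _ hA0 hA U E v C hv0 hE hU hC fun s hEs => ?_
      obtain ⟨-, h2, h3⟩ := hs s hEs
      refine ⟨h2, fun {M} _ _ φ he l hl => ?_⟩
      have h4 := h3 φ he l hl
      rw [hvs] at h4
      exact h4
    · exact caseA N hd F G hF hG _ hA0 hA U V E C hUV hE h0 hC hs
  obtain ⟨C₀, C₁, c, hC₀, hC₁, hc, hkey⟩ := key
  refine ⟨Cg * (1 + (Real.log B + B)) + C₀ + C₁ + 1, c, by positivity, hc, ?_, ?_⟩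
  · intro s hRs
    have hRs' : resultant (spec s F) (spec s G) d d ≠ 0 := by
      rw [spec_res]
      exact hRs
    have h1 := hglue (spec s F) (spec s G) (spec_natDegree_le s F hF) (spec_natDegree_le s G hG)
      hRs'
    refine ⟨h1.1, fun H hH hsH => h1.2.trans ?_⟩
    have h2 := hA H hH s hsH hRs'
    have h3 : 0 ≤ Real.log H := Real.log_natCast_nonneg _
    have h4 : Cg * (1 + Real.log |((Algebra.norm ℤ (resultant (spec s F) (spec s G) d d) : ℤ) : ℝ)|)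
        ≤ Cg * ((1 + (Real.log B + B)) * (1 + Real.log H)) := by
      refine mul_le_mul_of_nonneg_left ?_ hCg
      nlinarith
    have h5 : 0 ≤ (C₀ + C₁ + 1) * (1 + Real.log H) := by positivity
    nlinarith
  · intro H k hH hk hkH
    have hkl : 0 ≤ (k : ℝ) * Real.log (k + 1) := by
      refine mul_nonneg (Nat.cast_nonneg _) (Real.log_nonneg ?_)
      have : (0 : ℝ) ≤ k := Nat.cast_nonneg _
      linarith
    have hA1 : 0 ≤ Cg * (1 + (Real.log B + B)) := mul_nonneg hCg (by linarith)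
    have hsub : (Cube r H).filter (fun s => ev s (resultant F G d d) ≠ 0 ∧
        (Cg * (1 + (Real.log B + B)) + C₀ + C₁ + 1) * (k * Real.log (k + 1)) <
          (Pts N d (spec s F) (spec s G)).ncard) ⊆
        (Cube r H).filter (fun s =>
          C₀ * (k * Real.log (k + 1)) < (Pts N d (spec s F) (spec s G)).ncard) := by
      intro s hs'
      rw [Finset.mem_filter] at hs' ⊢
      refine ⟨hs'.1, lt_of_le_of_lt ?_ hs'.2.2⟩
      exact mul_le_mul_of_nonneg_right (by linarith) hkl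
    have h1 : (((Cube r H).filter (fun s => ev s (resultant F G d d) ≠ 0 ∧
        (Cg * (1 + (Real.log B + B)) + C₀ + C₁ + 1) * (k * Real.log (k + 1)) <
          (Pts N d (spec s F) (spec s G)).ncard)).card : ℝ) ≤
        (((Cube r H).filter (fun s =>
          C₀ * (k * Real.log (k + 1)) < (Pts N d (spec s F) (spec s G)).ncard)).card : ℝ) := by
      exact_mod_cast Finset.card_le_card hsub
    refine (h1.trans (hkey H k hH hk hkH)).trans ?_
    refine mul_le_mul_of_nonneg_right (mul_le_mul_of_nonneg_right (by linarith)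
      (Real.exp_pos _).le) (by positivity)

end Pool.Agent.FamK
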