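import Mathlib
import Pool.Agent.FAM.KTail
import Pool.Agent.AVR.SumExp

set_option autoImplicit false

/-!
# The mean of `exp (n ^ (1 / 3))` in a family over a number field
-/

namespace Pool.Agent.FamK

open Polynomial NumberField Pool.Agent.AVR
open Pool.Agent.FAM (Cube)

open Classical in
/-- The mean of `exp (n ^ (1 / 3))`. -/
theorem average1 {K : Type} [Field K] [NumberField K] (N : ℕ) {r d : ℕ} (hd : 2 ≤ d)
    (F G : (MvPolynomial (Fin r) (𝓞 K))[X])
    (hF : F.natDegree ≤ d) (hG : G.natDegree ≤ d) (hR : resultant F G d d ≠ 0)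
    (hv : Varies1 F G) :
    (∀ s : Fin r → ℤ, ev s (resultant F G d d) ≠ 0 →
      (Pts N d (spec s F) (spec s G)).Finite) ∧
    ∃ C : ℝ, ∀ H : ℕ, 1 ≤ H → ∑ s ∈ (Cube r H).filter (fun s => ev s (resultant F G d d) ≠ 0),
      Real.exp (((Pts N d (spec s F) (spec s G)).ncard : ℝ) ^ ((1 : ℝ) / 3)) ≤
      C * (2 * H + 1) ^ r := by
  obtain ⟨C, c, hC, hc, h1, h2⟩ := tail N hd F G hF hG hR hv
  obtain ⟨M, hM⟩ := sum_exp C c hC hc
  refine ⟨fun s hs => (h1 s hs).1, M, fun H hH => ?_⟩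
  refine hM _ (fun s => (Pts N d (spec s F) (spec s G)).ncard) ((2 * H + 1) ^ r) (Real.log H)
    (Real.log_natCast_nonneg H) ?_ ?_ ?_
  · have h3 := Finset.card_filter_le (Cube r H)
      (fun s => ev s (resultant F G d d) ≠ 0)
    rw [FAM.card_Cube] at h3
    exact_mod_cast h3
  · intro s hs
    rw [Finset.mem_filter] at hs
    exact (h1 s hs.2).2 H hH hs.1
  · intro k hk hkL
    rw [Finset.filter_filter]
    exact h2 H k hH hk hkL

end Pool.Agent.FamK
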