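import Mathlib
import Pool.Agent.FAM.KTopA
import Pool.Agent.FAM.KTop1

set_option autoImplicit false

/-!
# Uniform boundedness on average in a family over a number field
-/

namespace Pool.Agent.FamK

open Polynomial NumberField
open Pool.Agent.FAM (Cube)

open Classical in
/-- THEOREM FAM over a number field. -/
theorem average {K : Type} [Field K] [NumberField K] (N : ℕ) {r d : ℕ} (hd : 2 ≤ d)
    (F G : (MvPolynomial (Fin r) (𝓞 K))[X])
    (hF : F.natDegree ≤ d) (hG : G.natDegree ≤ d) (hR : resultant F G d d ≠ 0)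
    (hv : Varies d F G) :
    (∀ s : Fin r → ℤ, ev s (resultant F G d d) ≠ 0 →
      (Pts N d (spec s F) (spec s G)).Finite) ∧
    ∃ C : ℝ, ∀ H : ℕ, 1 ≤ H → ∑ s ∈ (Cube r H).filter (fun s => ev s (resultant F G d d) ≠ 0),
      Real.exp (((Pts N d (spec s F) (spec s G)).ncard : ℝ) ^ ((1 : ℝ) / 3)) ≤
      C * (2 * H + 1) ^ r :=
  average_of N (average1 N) hd F G hF hG hR hv

end Pool.Agent.FamK
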