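import Mathlib
import Pool.Agent.FAM.Cop
import Pool.Agent.FAM.LargeG

set_option autoImplicit false

/-!
# Values of a polynomial in several variables: a large prime factor
-/

namespace Pool.Agent.FAM

open Polynomial

open Classical in
/-- For almost all `s` the value `V(s)` has a large prime factor not dividing `U(s)`. -/
theorem large {r : ℕ} (U V : MvPolynomial (Fin r) ℤ) (h : IsRelPrime U V)
    (hV : 1 ≤ V.totalDegree) : ∃ C c : ℝ, 0 < C ∧ 0 < c ∧ ∀ H y k : ℕ, 2 ≤ y → 1 ≤ k →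
    y ^ k ≤ H → H < (y + 1) ^ k →
    (((Cube r H).filter (fun s => ¬ ∃ p : ℕ, p.Prime ∧ y < p ∧
      (p : ℤ) ∣ MvPolynomial.eval s V ∧ ¬ (p : ℤ) ∣ MvPolynomial.eval s U)).card : ℝ) ≤
      C * (Real.exp (-(c * k)) + k / y) * (2 * H + 1) ^ r := by
  refine large_gen V hV (fun p s => (p : ℤ) ∣ MvPolynomial.eval s U) fun u => ?_
  obtain ⟨ρ, a, b, hρ, hab⟩ := cop U V h u
  refine ⟨ρ, hρ, fun p s x _ hp hq => ?_⟩
  exact Large.bezout_line U V ρ u s a b hab p x (by rw [eval_shift]; exact hp)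
    (by rw [eval_shift]; exact hq)

end Pool.Agent.FAM
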