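import Mathlib
import Pool.Agent.AVR.PtC
import Pool.Agent.FAM.S
import Pool.Agent.FAM.Large
import Pool.Agent.FAM.Lines
import Pool.Agent.FAM.TailAux

set_option autoImplicit false

/-!
# The exponential tail in every algebraic family
-/

namespace Pool.Agent.FAM

open Polynomial
open Pool.Agent.AVR (Pts LamP LamI glue_all pt_core pt_inf)

namespace Tail

/-- `sigma` at a large prime. -/
theorem lamP (d : ℕ) (C : ℝ) (F G : ℤ[X]) (U V : ℤ)
    (h : ∀ {K : Type} [NormedField K] [IsAlgClosed K] [CharZero K], (∃ e : K, e ≠ 0 ∧ ‖e‖ ≠ 1) →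
      ∀ l ∈ RI.resSet d (F.map (Int.castRingHom K)) (G.map (Int.castRingHom K)),
      ‖(U : K)‖ ≤ ‖(V : K)‖ * Real.exp (2 * (d + 1) * l + C))
    (p : ℕ) (hp : p.Prime) (hpV : (p : ℤ) ∣ V) (hpU : ¬ (p : ℤ) ∣ U) :
    LamP d F G p (max 0 (1 / (2 * (d + 1)) * Real.log p - C / (2 * (d + 1)))) := by
  intro E _ _ _ _ hpE r hr
  refine max_le (RI.resSet_nonneg d _ _ r hr) ?_
  have hp1 : (1 : ℝ) < p := by exact_mod_cast hp.one_lt
  have hp0 : (0 : ℝ) < p := by linarith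
  have he : ∃ e : E, e ≠ 0 ∧ ‖e‖ ≠ 1 := by
    refine ⟨(p : E), by exact_mod_cast hp.ne_zero, ?_⟩
    rw [hpE]
    exact (inv_lt_one_of_one_lt₀ hp1).ne
  have h1 := h he r hr
  rw [AVR.PtC.norm_coprime p hp hpE U hpU] at h1
  have h2 := AVR.PtC.norm_dvd p hpE V hpV
  have h3 : 1 ≤ (p : ℝ)⁻¹ * Real.exp (2 * (d + 1) * r + C) :=
    h1.trans (mul_le_mul_of_nonneg_right h2 (Real.exp_pos _).le)
  have h4 : (p : ℝ) ≤ Real.exp (2 * (d + 1) * r + C) := by
    rw [inv_mul_eq_div, le_div_iff₀ hp0, one_mul] at h3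
    exact h3
  have h5 := Real.log_le_log hp0 h4
  rw [Real.log_exp] at h5
  have hd0 : (0 : ℝ) < 2 * (d + 1) := by positivity
  rw [one_div, inv_mul_eq_div, ← sub_div, div_le_iff₀ hd0]
  linarith

/-- `sigma` over `ℂ`. -/
theorem lamI (d : ℕ) (C : ℝ) (F G : ℤ[X]) (U V : ℤ) (hV : V ≠ 0) (H : ℕ) (hH : 1 ≤ H)
    (hU : (H : ℤ) ≤ U ^ 2)
    (h : ∀ {K : Type} [NormedField K] [IsAlgClosed K] [CharZero K], (∃ e : K, e ≠ 0 ∧ ‖e‖ ≠ 1) →
      ∀ l ∈ RI.resSet d (F.map (Int.castRingHom K)) (G.map (Int.castRingHom K)),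
      ‖(U : K)‖ ≤ ‖(V : K)‖ * Real.exp (2 * (d + 1) * l + C)) :
    LamI d F G (1 / (4 * (d + 1)) * Real.log H - (Real.log |(V : ℝ)| + C) / (2 * (d + 1))) := by
  intro r hr
  have h1 := h (K := ℂ) ⟨2, two_ne_zero, by norm_num⟩ r hr
  rw [Complex.norm_intCast, Complex.norm_intCast] at h1
  have hH0 : (0 : ℝ) < H := by exact_mod_cast hH
  have hV0 : (0 : ℝ) < |(V : ℝ)| := abs_pos.2 (by exact_mod_cast hV)
  have hU2 : (H : ℝ) ≤ |(U : ℝ)| ^ 2 := by
    rw [sq_abs]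
    exact_mod_cast hU
  have hU0 : (0 : ℝ) < |(U : ℝ)| := by
    refine (abs_nonneg _).lt_of_ne fun h0 => ?_
    rw [← h0] at hU2
    norm_num at hU2
    linarith
  have h2 := Real.log_le_log hH0 hU2
  rw [Real.log_pow] at h2
  push_cast at h2
  have h3 := Real.log_le_log hU0 h1
  rw [Real.log_mul hV0.ne' (Real.exp_pos _).ne', Real.log_exp] at h3
  have hd0 : (0 : ℝ) < 2 * (d + 1) := by positivity
  have h4 : 1 / (4 * ((d : ℝ) + 1)) * Real.log H = Real.log H / 2 / (2 * (d + 1)) := by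
    field_simp
    ring
  rw [h4, ← sub_div, div_le_iff₀ hd0]
  linarith

open Classical in
/-- The tail when `V` is not constant. -/
theorem caseA (N : ℕ) {r d : ℕ} (hd : 2 ≤ d) (F G : (MvPolynomial (Fin r) ℤ)[X])
    (hF : F.natDegree ≤ d) (hG : G.natDegree ≤ d) (A : ℝ) (hA0 : 0 ≤ A)
    (hA : ∀ H : ℕ, 1 ≤ H → ∀ s ∈ Cube r H, resultant (spec s F) (spec s G) d d ≠ 0 →
      Real.log |((resultant (spec s F) (spec s G) d d : ℤ) : ℝ)| ≤ A * (1 + Real.log H))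
    (U V E : MvPolynomial (Fin r) ℤ) (C : ℝ) (hUV : IsRelPrime U V) (hE : E ≠ 0)
    (hV : 1 ≤ V.totalDegree) (hC : 0 ≤ C)
    (h : ∀ s : Fin r → ℤ, MvPolynomial.eval s E ≠ 0 →
      MvPolynomial.eval s V ≠ 0 ∧ resultant (spec s F) (spec s G) d d ≠ 0 ∧
      ∀ {K : Type} [NormedField K] [IsAlgClosed K] [CharZero K], (∃ e : K, e ≠ 0 ∧ ‖e‖ ≠ 1) →
      ∀ l ∈ RI.resSet d ((spec s F).map (Int.castRingHom K)) ((spec s G).map (Int.castRingHom K)),
      ‖((MvPolynomial.eval s U : ℤ) : K)‖ ≤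
        ‖((MvPolynomial.eval s V : ℤ) : K)‖ * Real.exp (2 * (d + 1) * l + C)) :
    ∃ C₀ C₁ c : ℝ, 0 ≤ C₀ ∧ 0 ≤ C₁ ∧ 0 < c ∧
    ∀ H k : ℕ, 1 ≤ H → 1 ≤ k → (k : ℝ) ^ 2 ≤ Real.log H →
    (((Cube r H).filter (fun s =>
      C₀ * (k * Real.log (k + 1)) < (Pts N d (spec s F) (spec s G)).ncard)).card : ℝ) ≤
      C₁ * Real.exp (-(c * k)) * (2 * H + 1) ^ r := by
  have hd1 : (0 : ℝ) < d + 1 := by positivity
  obtain ⟨C₀, hC₀, hpt⟩ := pt_core N d hd A (1 / (2 * (d + 1))) (C / (2 * (d + 1))) hA0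
    (by positivity) (by positivity)
  obtain ⟨CL, cL, hCL, hcL, hlarge⟩ := large U V hUV hV
  obtain ⟨CE, hCE, hzero⟩ := zeros_exp E hE
  refine ⟨C₀, CE + CL * 5, min cL (1 / 2), hC₀, by positivity, by positivity, ?_⟩
  intro H k hH hk hkH
  obtain ⟨y, hy2, hyk, hHy, hky⟩ := root H k hH hk hkH
  have hk0 : (0 : ℝ) ≤ k := Nat.cast_nonneg _
  have hsub : (Cube r H).filter (fun s =>
      C₀ * (k * Real.log (k + 1)) < (Pts N d (spec s F) (spec s G)).ncard) ⊆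
      (Cube r H).filter (fun s => MvPolynomial.eval s E = 0) ∪
      (Cube r H).filter (fun s => ¬ ∃ p : ℕ, p.Prime ∧ y < p ∧
        (p : ℤ) ∣ MvPolynomial.eval s V ∧ ¬ (p : ℤ) ∣ MvPolynomial.eval s U) := by
    intro s hs
    rw [Finset.mem_filter] at hs
    rw [Finset.mem_union, Finset.mem_filter, Finset.mem_filter]
    by_contra hcon
    rw [not_or] at hcon
    obtain ⟨hc1, hc2⟩ := hcon
    have hEs : MvPolynomial.eval s E ≠ 0 := fun h0 => hc1 ⟨hs.1, h0⟩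
    have hps : ∃ p : ℕ, p.Prime ∧ y < p ∧
        (p : ℤ) ∣ MvPolynomial.eval s V ∧ ¬ (p : ℤ) ∣ MvPolynomial.eval s U := by
      by_contra h0
      exact hc2 ⟨hs.1, h0⟩
    obtain ⟨p, hp, hyp, hpV, hpU⟩ := hps
    obtain ⟨-, hRs, hK⟩ := h s hEs
    have hHp : H < p ^ k := hHy.trans_le (Nat.pow_le_pow_left (by omega) k)
    have h1 := hpt (spec s F) (spec s G) (spec_natDegree_le s F hF) (spec_natDegree_le s G hG)
      hRs H k hH hk (hA H hH s hs.1 hRs) p hp hHp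
      (lamP d C _ _ _ _ hK p hp hpV hpU)
    exact absurd hs.2 (not_lt.2 h1.2)
  have h1 : (((Cube r H).filter (fun s =>
      C₀ * (k * Real.log (k + 1)) < (Pts N d (spec s F) (spec s G)).ncard)).card : ℝ) ≤
      (((Cube r H).filter (fun s => MvPolynomial.eval s E = 0)).card : ℝ) +
      (((Cube r H).filter (fun s => ¬ ∃ p : ℕ, p.Prime ∧ y < p ∧
        (p : ℤ) ∣ MvPolynomial.eval s V ∧ ¬ (p : ℤ) ∣ MvPolynomial.eval s U)).card : ℝ) := by
    exact_mod_cast (Finset.card_le_card hsub).trans (Finset.card_union_le _ _)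
  have h2 := hzero H k hH hk hkH
  have h3 := hlarge H y k hy2 hk hyk hHy
  have hc1 : Real.exp (-(1 / 2 * (k : ℝ))) ≤ Real.exp (-(min cL (1 / 2) * k)) := by
    refine Real.exp_le_exp.2 (neg_le_neg ?_)
    exact mul_le_mul_of_nonneg_right (min_le_right _ _) hk0
  have hc2 : Real.exp (-(cL * (k : ℝ))) ≤ Real.exp (-(min cL (1 / 2) * k)) := by
    refine Real.exp_le_exp.2 (neg_le_neg ?_)
    exact mul_le_mul_of_nonneg_right (min_le_left _ _) hk0
  have hP : (0 : ℝ) ≤ (2 * (H : ℝ) + 1) ^ r := by positivity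
  set e := Real.exp (-(min cL (1 / 2) * k)) with he
  have h4 : CE * Real.exp (-(1 / 2 * k)) * (2 * (H : ℝ) + 1) ^ r ≤ CE * e * (2 * (H : ℝ) + 1) ^ r :=
    mul_le_mul_of_nonneg_right (mul_le_mul_of_nonneg_left hc1 hCE) hP
  have h5 : CL * (Real.exp (-(cL * k)) + k / y) * (2 * (H : ℝ) + 1) ^ r ≤
      CL * (5 * e) * (2 * (H : ℝ) + 1) ^ r := by
    refine mul_le_mul_of_nonneg_right (mul_le_mul_of_nonneg_left ?_ hCL.le) hP
    linarith
  calc _ ≤ _ := h1
    _ ≤ CE * e * (2 * (H : ℝ) + 1) ^ r + CL * (5 * e) * (2 * (H : ℝ) + 1) ^ r := by linarith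
    _ = (CE + CL * 5) * e * (2 * (H : ℝ) + 1) ^ r := by ring

open Classical in
/-- The tail when `V` is constant. -/
theorem caseB (N : ℕ) {r d : ℕ} (hd : 2 ≤ d) (F G : (MvPolynomial (Fin r) ℤ)[X])
    (hF : F.natDegree ≤ d) (hG : G.natDegree ≤ d) (A : ℝ) (hA0 : 0 ≤ A)
    (hA : ∀ H : ℕ, 1 ≤ H → ∀ s ∈ Cube r H, resultant (spec s F) (spec s G) d d ≠ 0 →
      Real.log |((resultant (spec s F) (spec s G) d d : ℤ) : ℝ)| ≤ A * (1 + Real.log H))
    (U E : MvPolynomial (Fin r) ℤ) (v : ℤ) (C : ℝ) (hv : v ≠ 0) (hE : E ≠ 0)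
    (hU : 1 ≤ U.totalDegree) (hC : 0 ≤ C)
    (h : ∀ s : Fin r → ℤ, MvPolynomial.eval s E ≠ 0 →
      resultant (spec s F) (spec s G) d d ≠ 0 ∧
      ∀ {K : Type} [NormedField K] [IsAlgClosed K] [CharZero K], (∃ e : K, e ≠ 0 ∧ ‖e‖ ≠ 1) →
      ∀ l ∈ RI.resSet d ((spec s F).map (Int.castRingHom K)) ((spec s G).map (Int.castRingHom K)),
      ‖((MvPolynomial.eval s U : ℤ) : K)‖ ≤ ‖(v : K)‖ * Real.exp (2 * (d + 1) * l + C)) :
    ∃ C₀ C₁ c : ℝ, 0 ≤ C₀ ∧ 0 ≤ C₁ ∧ 0 < c ∧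
    ∀ H k : ℕ, 1 ≤ H → 1 ≤ k → (k : ℝ) ^ 2 ≤ Real.log H →
    (((Cube r H).filter (fun s =>
      C₀ * (k * Real.log (k + 1)) < (Pts N d (spec s F) (spec s G)).ncard)).card : ℝ) ≤
      C₁ * Real.exp (-(c * k)) * (2 * H + 1) ^ r := by
  have hd1 : (0 : ℝ) < d + 1 := by positivity
  have hv1 : (1 : ℝ) ≤ |(v : ℝ)| := by exact_mod_cast Int.one_le_abs hv
  have hlv : 0 ≤ Real.log |(v : ℝ)| := Real.log_nonneg hv1
  obtain ⟨C₀, hC₀, hpt⟩ := pt_inf N d hd A (1 / (4 * (d + 1)))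
    ((Real.log |(v : ℝ)| + C) / (2 * (d + 1))) hA0 (by positivity) (by positivity)
  obtain ⟨CB, hCB, hbig⟩ := big U hU
  obtain ⟨CE, hCE, hzero⟩ := zeros_exp E hE
  have hlog2 : 0 < Real.log 2 := Real.log_pos (by norm_num)
  refine ⟨C₀ * (1 / Real.log 2), CE + CB, 1 / 2, by positivity, by positivity, by norm_num, ?_⟩
  intro H k hH hk hkH
  have hH0 : (0 : ℝ) < H := by exact_mod_cast hH
  have hk0 : (0 : ℝ) ≤ k := Nat.cast_nonneg _
  have hsub : (Cube r H).filter (fun s => C₀ * (1 / Real.log 2) * (k * Real.log (k + 1)) <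
      (Pts N d (spec s F) (spec s G)).ncard) ⊆
      (Cube r H).filter (fun s => MvPolynomial.eval s E = 0) ∪
      (Cube r H).filter (fun s => MvPolynomial.eval s U ^ 2 < H) := by
    intro s hs
    rw [Finset.mem_filter] at hs
    rw [Finset.mem_union, Finset.mem_filter, Finset.mem_filter]
    by_contra hcon
    rw [not_or] at hcon
    obtain ⟨hc1, hc2⟩ := hcon
    have hEs : MvPolynomial.eval s E ≠ 0 := fun h0 => hc1 ⟨hs.1, h0⟩
    have hUs : (H : ℤ) ≤ MvPolynomial.eval s U ^ 2 := by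
      by_contra h0
      exact hc2 ⟨hs.1, not_le.1 h0⟩
    obtain ⟨hRs, hK⟩ := h s hEs
    have h1 := hpt (spec s F) (spec s G) (spec_natDegree_le s F hF) (spec_natDegree_le s G hG)
      hRs H hH (hA H hH s hs.1 hRs) (lamI d C _ _ _ v hv H hH hUs hK)
    have h2 := mul_le_mul_of_nonneg_left (one_le k hk) hC₀
    have h3 := hs.2
    rw [mul_one, ← mul_assoc] at h2
    linarith [h1.2]
  have h1 : (((Cube r H).filter (fun s => C₀ * (1 / Real.log 2) * (k * Real.log (k + 1)) <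
      (Pts N d (spec s F) (spec s G)).ncard)).card : ℝ) ≤
      (((Cube r H).filter (fun s => MvPolynomial.eval s E = 0)).card : ℝ) +
      (((Cube r H).filter (fun s => MvPolynomial.eval s U ^ 2 < H)).card : ℝ) := by
    exact_mod_cast (Finset.card_le_card hsub).trans (Finset.card_union_le _ _)
  have h2 := hzero H k hH hk hkH
  have h3 := hbig H hH
  have hP : (0 : ℝ) ≤ (2 * (H : ℝ) + 1) ^ r := by positivity
  have h4 : CB * (2 * (H : ℝ) + 1) ^ r / Real.sqrt H ≤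
      CB * Real.exp (-(1 / 2 * k)) * (2 * (H : ℝ) + 1) ^ r := by
    rw [div_le_iff₀ (Real.sqrt_pos.2 hH0)]
    have h5 : 1 ≤ Real.exp (-(1 / 2 * k)) * Real.sqrt H := by
      have h6 : Real.exp (1 / 2 * k) ≤ Real.sqrt H := by
        refine Real.le_sqrt_of_sq_le ?_
        rw [← Real.exp_nat_mul]
        refine le_trans (Real.exp_le_exp.2 ?_) (exp_le H k hH hk hkH)
        push_cast
        linarith
      have h7 : Real.exp (-(1 / 2 * (k : ℝ))) * Real.exp (1 / 2 * k) = 1 := by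
        rw [← Real.exp_add, neg_add_cancel, Real.exp_zero]
      exact h7.symm.le.trans (mul_le_mul_of_nonneg_left h6 (Real.exp_pos _).le)
    have h6 : (0 : ℝ) ≤ CB * (2 * (H : ℝ) + 1) ^ r := mul_nonneg hCB.le hP
    calc CB * (2 * (H : ℝ) + 1) ^ r = CB * (2 * (H : ℝ) + 1) ^ r * 1 := (mul_one _).symm
      _ ≤ CB * (2 * (H : ℝ) + 1) ^ r * (Real.exp (-(1 / 2 * k)) * Real.sqrt H) :=
        mul_le_mul_of_nonneg_left h5 h6
      _ = CB * Real.exp (-(1 / 2 * k)) * (2 * (H : ℝ) + 1) ^ r * Real.sqrt H := by ring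
  calc _ ≤ _ := h1
    _ ≤ CE * Real.exp (-(1 / 2 * k)) * (2 * (H : ℝ) + 1) ^ r +
        CB * Real.exp (-(1 / 2 * k)) * (2 * (H : ℝ) + 1) ^ r := by linarith
    _ = (CE + CB) * Real.exp (-(1 / 2 * k)) * (2 * (H : ℝ) + 1) ^ r := by ring

end Tail

open Tail

open Classical in
/-- The exponential tail, and the bound for every member of the family. -/
theorem tail (N : ℕ) {r d : ℕ} (hd : 2 ≤ d) (F G : (MvPolynomial (Fin r) ℤ)[X])
    (hF : F.natDegree ≤ d) (hG : G.natDegree ≤ d) (hR : resultant F G d d ≠ 0)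
    (hv : Varies F G) : ∃ C c : ℝ, 0 < C ∧ 0 < c ∧
    (∀ s : Fin r → ℤ, MvPolynomial.eval s (resultant F G d d) ≠ 0 →
      (Pts N d (spec s F) (spec s G)).Finite ∧ ∀ H : ℕ, 1 ≤ H → s ∈ Cube r H →
      ((Pts N d (spec s F) (spec s G)).ncard : ℝ) ≤ C * (1 + Real.log H)) ∧
    ∀ H k : ℕ, 1 ≤ H → 1 ≤ k → (k : ℝ) ^ 2 ≤ Real.log H →
    (((Cube r H).filter (fun s => MvPolynomial.eval s (resultant F G d d) ≠ 0 ∧
      C * (k * Real.log (k + 1)) < (Pts N d (spec s F) (spec s G)).ncard)).card : ℝ) ≤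
      C * Real.exp (-(c * k)) * (2 * H + 1) ^ r := by
  obtain ⟨B, hB⟩ := size (resultant F G d d)
  have hA0 : 0 ≤ Real.log (B : ℝ) + B := add_nonneg (Real.log_natCast_nonneg _) (Nat.cast_nonneg _)
  have hA : ∀ H : ℕ, 1 ≤ H → ∀ s ∈ Cube r H, resultant (spec s F) (spec s G) d d ≠ 0 →
      Real.log |((resultant (spec s F) (spec s G) d d : ℤ) : ℝ)| ≤
        (Real.log B + B) * (1 + Real.log H) := by
    intro H hH s hs hRs
    refine log_le B H hH _ hRs ?_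
    rw [spec_res]
    exact hB H hH s hs
  obtain ⟨U, V, E, C, hUV, hV0, hE, hdeg, hC, hs⟩ := sigma (by omega) F G hF hG hR hv
  obtain ⟨Cg, hCg, hglue⟩ := glue_all N d hd
  have key : ∃ C₀ C₁ c : ℝ, 0 ≤ C₀ ∧ 0 ≤ C₁ ∧ 0 < c ∧
      ∀ H k : ℕ, 1 ≤ H → 1 ≤ k → (k : ℝ) ^ 2 ≤ Real.log H →
      (((Cube r H).filter (fun s =>
        C₀ * (k * Real.log (k + 1)) < (Pts N d (spec s F) (spec s G)).ncard)).card : ℝ) ≤
        C₁ * Real.exp (-(c * k)) * (2 * H + 1) ^ r := by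
    rcases Nat.eq_zero_or_pos V.totalDegree with h0 | h0
    · have hU : 1 ≤ U.totalDegree := by
        rw [Nat.one_le_iff_ne_zero]
        exact fun h1 => hdeg ⟨h1, h0⟩
      have hVC := MvPolynomial.totalDegree_eq_zero_iff_eq_C.1 h0
      set v : ℤ := MvPolynomial.coeff 0 V with hv'
      have hvs : ∀ s : Fin r → ℤ, MvPolynomial.eval s V = v := by
        intro s
        rw [hVC, MvPolynomial.eval_C]
      have hv0 : v ≠ 0 := by
        intro h1
        rw [h1, map_zero] at hVC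
        exact hV0 hVC
      refine caseB N hd F G hF hG _ hA0 hA U E v C hv0 hE hU hC fun s hEs => ?_
      obtain ⟨-, h2, h3⟩ := hs s hEs
      refine ⟨h2, fun {K} _ _ _ he l hl => ?_⟩
      have h4 := h3 he l hl
      rw [hvs] at h4
      exact h4
    · exact caseA N hd F G hF hG _ hA0 hA U V E C hUV hE h0 hC hs
  obtain ⟨C₀, C₁, c, hC₀, hC₁, hc, hkey⟩ := key
  refine ⟨Cg * (1 + (Real.log B + B)) + C₀ + C₁ + 1, c, by positivity, hc, ?_, ?_⟩
  · intro s hRs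
    have hRs' : resultant (spec s F) (spec s G) d d ≠ 0 := by
      rw [spec_res]
      exact hRs
    have h1 := hglue (spec s F) (spec s G) (spec_natDegree_le s F hF) (spec_natDegree_le s G hG)
      hRs'
    refine ⟨h1.1, fun H hH hsH => h1.2.trans ?_⟩
    have h2 := hA H hH s hsH hRs'
    have h3 : 0 ≤ Real.log H := Real.log_natCast_nonneg _
    have h4 : Cg * (1 + Real.log |((resultant (spec s F) (spec s G) d d : ℤ) : ℝ)|) ≤
        Cg * ((1 + (Real.log B + B)) * (1 + Real.log H)) := by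
      refine mul_le_mul_of_nonneg_left ?_ hCg
      nlinarith
    have h5 : 0 ≤ (C₀ + C₁ + 1) * (1 + Real.log H) := by positivity
    nlinarith
  · intro H k hH hk hkH
    have hkl : 0 ≤ (k : ℝ) * Real.log (k + 1) := by
      refine mul_nonneg (Nat.cast_nonneg _) (Real.log_nonneg ?_)
      have : (0 : ℝ) ≤ k := Nat.cast_nonneg _
      linarith
    have hA1 : 0 ≤ Cg * (1 + (Real.log B + B)) := mul_nonneg hCg (by linarith)
    have hsub : (Cube r H).filter (fun s => MvPolynomial.eval s (resultant F G d d) ≠ 0 ∧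
        (Cg * (1 + (Real.log B + B)) + C₀ + C₁ + 1) * (k * Real.log (k + 1)) <
          (Pts N d (spec s F) (spec s G)).ncard) ⊆
        (Cube r H).filter (fun s =>
          C₀ * (k * Real.log (k + 1)) < (Pts N d (spec s F) (spec s G)).ncard) := by
      intro s hs'
      rw [Finset.mem_filter] at hs' ⊢
      refine ⟨hs'.1, lt_of_le_of_lt ?_ hs'.2.2⟩
      exact mul_le_mul_of_nonneg_right (by linarith) hkl
    have h1 : (((Cube r H).filter (fun s => MvPolynomial.eval s (resultant F G d d) ≠ 0 ∧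
        (Cg * (1 + (Real.log B + B)) + C₀ + C₁ + 1) * (k * Real.log (k + 1)) <
          (Pts N d (spec s F) (spec s G)).ncard)).card : ℝ) ≤
        (((Cube r H).filter (fun s =>
          C₀ * (k * Real.log (k + 1)) < (Pts N d (spec s F) (spec s G)).ncard)).card : ℝ) := by
      exact_mod_cast Finset.card_le_card hsub
    refine (h1.trans (hkey H k hH hk hkH)).trans ?_
    refine mul_le_mul_of_nonneg_right (mul_le_mul_of_nonneg_right (by linarith)
      (Real.exp_pos _).le) (by positivity)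

end Pool.Agent.FAM
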