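import Mathlib
import Pool.Agent.FAM.Iter
import Pool.Agent.FAM.Top

set_option autoImplicit false

/-!
# The multiplier of a periodic point varies
-/

namespace Pool.Agent.FAM

open Polynomial Pool.Agent.AVR

open Classical in
/-- THEOREM FAM for a periodic point. -/
theorem family_average_iter (N n : ℕ) {r d : ℕ} (hd : 2 ≤ d) (hn : 1 ≤ n)
    (F G : (MvPolynomial (Fin r) ℤ)[X])
    (hF : F.natDegree ≤ d) (hG : G.natDegree ≤ d) (hR : resultant F G d d ≠ 0)
    (hv : Varies (itP d n F G).1 (itP d n F G).2) :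
    (∀ s : Fin r → ℤ, MvPolynomial.eval s (resultant F G d d) ≠ 0 →
      (Pts N d (spec s F) (spec s G)).Finite) ∧
    ∃ C : ℝ, ∀ H : ℕ, 1 ≤ H →
      ∑ s ∈ (Cube r H).filter (fun s => MvPolynomial.eval s (resultant F G d d) ≠ 0),
        Real.exp (((Pts N d (spec s F) (spec s G)).ncard : ℝ) ^ ((1 : ℝ) / 3)) ≤
      C * (2 * H + 1) ^ r := by
  have hd1 : 1 ≤ d := by omega
  have hdn : 2 ≤ d ^ n := by
    calc 2 ≤ d := hd
      _ = d ^ 1 := (pow_one d).symm
      _ ≤ d ^ n := Nat.pow_le_pow_right (by omega) hn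
  have hdeg := IterAux.natDegree_itP d n (F.map (RingHom.id _)) (G.map (RingHom.id _))
  rw [Polynomial.map_id, Polynomial.map_id] at hdeg
  have hres : resultant (itP d n F G).1 (itP d n F G).2 (d ^ n) (d ^ n) ≠ 0 := by
    intro h
    exact hR ((IterAux.res_itP d n hd1 hn F G hF hG).1 h)
  have hiff : ∀ s : Fin r → ℤ,
      MvPolynomial.eval s (resultant (itP d n F G).1 (itP d n F G).2 (d ^ n) (d ^ n)) ≠ 0 ↔
      MvPolynomial.eval s (resultant F G d d) ≠ 0 := fun s =>
    not_congr (IterAux.eval_res d n hd1 hn F G hF hG s)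
  have hpts : ∀ s : Fin r → ℤ, MvPolynomial.eval s (resultant F G d d) ≠ 0 →
      Pts N (d ^ n) (spec s (itP d n F G).1) (spec s (itP d n F G).2) =
        Pts N d (spec s F) (spec s G) := by
    intro s hs
    have h1 := IterAux.Pts_itP N d n hd1 hn (spec s F) (spec s G) (spec_natDegree_le s F hF)
      (spec_natDegree_le s G hG) (by rw [spec_res]; exact hs)
    rw [IterAux.spec_itP] at h1
    exact h1
  obtain ⟨h1, C, h2⟩ := family_average N hdn (itP d n F G).1 (itP d n F G).2 hdeg.1 hdeg.2 hres hv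
  refine ⟨fun s hs => ?_, C, fun H hH => ?_⟩
  · rw [← hpts s hs]
    exact h1 s ((hiff s).2 hs)
  · refine le_trans (le_of_eq ?_) (h2 H hH)
    rw [Finset.filter_congr fun s _ => (hiff s).symm]
    refine Finset.sum_congr rfl fun s hs => ?_
    rw [hpts s ((hiff s).1 (Finset.mem_filter.1 hs).2)]

end Pool.Agent.FAM
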